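import Mathlib

/-!
# Smoothed analysis of halving lines: two inequalities for weights on the real line
-/

set_option autoImplicit false

namespace Pool.Agent.U999.SH

open Finset
open scoped ENNReal

variable {n : ℕ}

/-- the sum of the weighted distances -/
noncomputable def SS (a : Fin n → ℝ) (w : Fin n → ℝ≥0∞) : ℝ≥0∞ :=
  ∑ i, ∑ j, ENNReal.ofReal |a i - a j| * (w i * w j)

lemma d_tri (a : Fin n → ℝ) (i j l : Fin n) : ENNReal.ofReal |a i - a j| ≤
    ENNReal.ofReal |a i - a l| + ENNReal.ofReal |a j - a l| := by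
  rw [← ENNReal.ofReal_add (abs_nonneg _) (abs_nonneg _)]
  apply ENNReal.ofReal_le_ofReal
  rw [abs_sub_comm (a j) (a l)]
  exact abs_sub_le _ _ _

/-- the mean distance of a weight is controlled by that of every larger weight -/
lemma maj (a : Fin n → ℝ) (g w : Fin n → ℝ≥0∞) (K : ℝ≥0∞) (hgw : ∀ i, g i ≤ K * w i) :
    SS a g * ∑ l, w l ≤ 2 * K * (∑ i, g i) * SS a w := by
  have h1 : ∑ i, ∑ l, ENNReal.ofReal |a i - a l| * (g i * w l) ≤ K * SS a w := by
    unfold SS
    rw [Finset.mul_sum]
    apply sum_le_sum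
    intro i _
    rw [Finset.mul_sum]
    apply sum_le_sum
    intro l _
    calc ENNReal.ofReal |a i - a l| * (g i * w l)
        ≤ ENNReal.ofReal |a i - a l| * (K * w i * w l) := by gcongr; exact hgw i
      _ = _ := by ring
  calc SS a g * ∑ l, w l
      = ∑ i, ∑ j, ∑ l, ENNReal.ofReal |a i - a j| * (g i * g j) * w l := by
        unfold SS
        rw [Finset.sum_mul]
        apply sum_congr rfl
        intro i _
        rw [Finset.sum_mul]
        apply sum_congr rfl
        intro j _
        rw [Finset.mul_sum]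
    _ ≤ ∑ i, ∑ j, ∑ l, (g j * (ENNReal.ofReal |a i - a l| * (g i * w l)) +
          g i * (ENNReal.ofReal |a j - a l| * (g j * w l))) := by
        apply sum_le_sum; intro i _
        apply sum_le_sum; intro j _
        apply sum_le_sum; intro l _
        calc ENNReal.ofReal |a i - a j| * (g i * g j) * w l
            ≤ (ENNReal.ofReal |a i - a l| + ENNReal.ofReal |a j - a l|) * (g i * g j) * w l := by
              gcongr
              exact d_tri a i j l
          _ = _ := by ring
    _ = (∑ j, g j) * (∑ i, ∑ l, ENNReal.ofReal |a i - a l| * (g i * w l)) +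
          (∑ i, g i) * (∑ j, ∑ l, ENNReal.ofReal |a j - a l| * (g j * w l)) := by
        simp_rw [Finset.sum_add_distrib]
        congr 1
        · rw [Finset.sum_comm]
          rw [Finset.sum_mul]
          apply sum_congr rfl; intro j _
          rw [Finset.mul_sum]
          apply sum_congr rfl; intro i _
          rw [Finset.mul_sum]
        · rw [Finset.sum_mul]
          apply sum_congr rfl; intro i _
          rw [Finset.mul_sum]
          apply sum_congr rfl; intro j _
          rw [Finset.mul_sum]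
    _ ≤ (∑ j, g j) * (K * SS a w) + (∑ i, g i) * (K * SS a w) := by gcongr
    _ = _ := by ring

/-- the pointwise inequality -/
lemma alg (a : Fin n → ℝ) (g w : Fin n → ℝ≥0∞) (K : ℝ≥0∞) (hgw : ∀ i, g i ≤ K * w i)
    (hg : ∀ i, g i ≠ ∞) (P : Fin n → Fin n → ℝ≥0∞) (Q : Fin n → ℝ≥0∞)
    (hPQ : ∀ i j l, P i j ≤ Q l) :
    (∑ i, ∑ j, ENNReal.ofReal |a i - a j| * (g i * g j * P i j)) * ∑ i, w i ≤
      2 * K * SS a w * ∑ l, g l * Q l := by
  set G := ∑ i, g i with hG
  have hGtop : G ≠ ∞ := by
    rw [hG]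
    exact ENNReal.sum_ne_top.mpr (fun i _ => hg i)
  by_cases hG0 : G = 0
  · have : ∀ i, g i = 0 := by
      intro i
      exact (Finset.sum_eq_zero_iff.mp hG0) i (mem_univ i)
    simp [this]
  have h1 : (∑ i, ∑ j, ENNReal.ofReal |a i - a j| * (g i * g j * P i j)) * G ≤
      SS a g * ∑ l, g l * Q l := by
    unfold SS
    rw [Finset.sum_mul, Finset.sum_mul]
    apply sum_le_sum; intro i _
    rw [Finset.sum_mul, Finset.sum_mul]
    apply sum_le_sum; intro j _
    calc ENNReal.ofReal |a i - a j| * (g i * g j * P i j) * G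
        = ENNReal.ofReal |a i - a j| * (g i * g j) * ∑ l, g l * P i j := by
          rw [← Finset.sum_mul]
          ring
      _ ≤ _ := by
          gcongr with l _
          exact hPQ i j l
  have h2 : ((∑ i, ∑ j, ENNReal.ofReal |a i - a j| * (g i * g j * P i j)) * ∑ i, w i) * G ≤
      (2 * K * SS a w * ∑ l, g l * Q l) * G := by
    calc _ = ((∑ i, ∑ j, ENNReal.ofReal |a i - a j| * (g i * g j * P i j)) * G) * ∑ i, w i := by
          ring
      _ ≤ (SS a g * ∑ l, g l * Q l) * ∑ i, w i := by gcongr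
      _ = (SS a g * ∑ i, w i) * ∑ l, g l * Q l := by ring
      _ ≤ (2 * K * G * SS a w) * ∑ l, g l * Q l := mul_le_mul' (maj a g w K hgw) le_rfl
      _ = _ := by ring
  exact (ENNReal.mul_le_mul_iff_left hG0 hGtop).mp h2

/-- distances at most one -/
lemma SS_le (a : Fin n → ℝ) (ha : ∀ i j, |a i - a j| ≤ 1) (w : Fin n → ℝ≥0∞) :
    SS a w ≤ (∑ i, w i) * ∑ i, w i := by
  unfold SS
  rw [Finset.sum_mul]
  apply sum_le_sum; intro i _
  rw [Finset.mul_sum]
  apply sum_le_sum; intro j _
  calc ENNReal.ofReal |a i - a j| * (w i * w j) ≤ 1 * (w i * w j) := by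
        gcongr
        exact ENNReal.ofReal_le_one.mpr (ha i j)
    _ = _ := by ring

end Pool.Agent.U999.SH
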