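import Pool.Agent.U999.SH.Side
import Pool.Agent.U999.SH.Alg

/-!
# Smoothed analysis of halving lines: averaging over the heights
-/

set_option autoImplicit false

namespace Pool.Agent.U999.SH

open Finset MeasureTheory Pool.Agent.H189R2.Lev Filter
open scoped ENNReal

variable {n : ℕ}

/-- the weights as extended reals -/
noncomputable def wE (a c : Fin n → ℝ) (δ x y : ℝ) (l : Fin n) : ℝ≥0∞ :=
  ENNReal.ofReal (wr a c δ l x y)

lemma sum_wE (a c : Fin n → ℝ) (δ x y : ℝ) :
    ∑ l, wE a c δ x y l = ENNReal.ofReal (WW a c δ x y) := by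
  unfold wE WW
  rw [ENNReal.ofReal_sum_of_nonneg (fun l _ => (wr_pos a c δ l x y).le)]

lemma SS_smooth (a c : Fin n → ℝ) {δ : ℝ} (hδ : 0 < δ) (x : ℝ) {y y' : ℝ}
    (h : |y - y'| ≤ δ / 2) : SS a (wE a c δ x y) ≤ 4 * SS a (wE a c δ x y') := by
  have h1 : ∀ l, wE a c δ x y l ≤ 2 * wE a c δ x y' l := by
    intro l
    unfold wE
    calc ENNReal.ofReal (wr a c δ l x y) ≤ ENNReal.ofReal (2 * wr a c δ l x y') :=
          ENNReal.ofReal_le_ofReal (wr_smooth a c hδ l x h)
      _ = _ := by rw [ENNReal.ofReal_mul (by norm_num)]; norm_num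
  unfold SS
  rw [mul_sum]
  apply sum_le_sum; intro i _
  rw [mul_sum]
  apply sum_le_sum; intro j _
  calc ENNReal.ofReal |a i - a j| * (wE a c δ x y i * wE a c δ x y j)
      ≤ ENNReal.ofReal |a i - a j| * ((2 * wE a c δ x y' i) * (2 * wE a c δ x y' j)) := by
        gcongr
        · exact h1 i
        · exact h1 j
    _ = _ := by ring

/-- the quotient of the two sums, at points where at least `r` lines are near -/
noncomputable def AA (a c : Fin n → ℝ) (δ r x y : ℝ) : ℝ≥0∞ :=
  if r < WW a c δ x y then SS a (wE a c δ x y) * ENNReal.ofReal (1 / WW a c δ x y) else 0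

lemma AA_smooth (a c : Fin n → ℝ) {δ : ℝ} (hδ : 0 < δ) {r : ℝ} (hr : 0 ≤ r) (x : ℝ) {y y' : ℝ}
    (h : |y - y'| ≤ δ / 2) : AA a c δ (2 * r) x y ≤ 8 * AA a c δ r x y' := by
  unfold AA
  by_cases h1 : 2 * r < WW a c δ x y
  · have h2 := WW_smooth a c hδ x h
    have h' : |y' - y| ≤ δ / 2 := by rw [abs_sub_comm]; exact h
    have h3 := WW_smooth a c hδ x h'
    have h4 : r < WW a c δ x y' := by linarith
    have h5 : 0 < WW a c δ x y' := by linarith
    have h6 : 0 < WW a c δ x y := by linarith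
    rw [if_pos h1, if_pos h4]
    have h7 : ENNReal.ofReal (1 / WW a c δ x y) ≤ 2 * ENNReal.ofReal (1 / WW a c δ x y') := by
      calc ENNReal.ofReal (1 / WW a c δ x y) ≤ ENNReal.ofReal (2 * (1 / WW a c δ x y')) := by
            apply ENNReal.ofReal_le_ofReal
            rw [mul_one_div, div_le_div_iff₀ h6 h5]
            linarith
        _ = _ := by rw [ENNReal.ofReal_mul (by norm_num)]; norm_num
    calc SS a (wE a c δ x y) * ENNReal.ofReal (1 / WW a c δ x y)
        ≤ (4 * SS a (wE a c δ x y')) * (2 * ENNReal.ofReal (1 / WW a c δ x y')) :=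
          mul_le_mul' (SS_smooth a c hδ x h) h7
      _ = _ := by ring
  · rw [if_neg h1]
    exact zero_le

/-- averaging over a window -/
lemma conv {δ : ℝ} (hδ : 0 < δ) {A A' T : ℝ → ℝ≥0∞} (mA' : Measurable A')
    (mT : Measurable T) (h : ∀ y y', |y - y'| ≤ δ / 2 → A y ≤ 8 * A' y') :
    ∫⁻ y, A y * T y ≤ ENNReal.ofReal (8 / δ) *
      ∫⁻ y', A' y' * ∫⁻ y, (Set.Icc (y' - δ / 2) (y' + δ / 2)).indicator T y := by
  have mS : MeasurableSet {p : ℝ × ℝ | |p.1 - p.2| ≤ δ / 2} :=
    measurableSet_le (by fun_prop) measurable_const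
  have mΦ : Measurable ({p : ℝ × ℝ | |p.1 - p.2| ≤ δ / 2}.indicator
      (fun p => A' p.2 * T p.1)) :=
    ((mA'.comp measurable_snd).mul (mT.comp measurable_fst)).indicator mS
  have h1 : ∀ y, A y * T y ≤ ENNReal.ofReal (8 / δ) *
      ∫⁻ y', {p : ℝ × ℝ | |p.1 - p.2| ≤ δ / 2}.indicator (fun p => A' p.2 * T p.1) (y, y') := by
    intro y
    have h2 : ENNReal.ofReal δ * (A y * T y) ≤ 8 *
        ∫⁻ y', {p : ℝ × ℝ | |p.1 - p.2| ≤ δ / 2}.indicator (fun p => A' p.2 * T p.1) (y, y') := by
      calc ENNReal.ofReal δ * (A y * T y)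
          = ∫⁻ _y' in Set.Icc (y - δ / 2) (y + δ / 2), A y * T y := by
            rw [setLIntegral_const, Real.volume_Icc, mul_comm]
            congr 2
            ring
        _ = ∫⁻ y', (Set.Icc (y - δ / 2) (y + δ / 2)).indicator (fun _ => A y * T y) y' := by
            rw [lintegral_indicator measurableSet_Icc]
        _ ≤ ∫⁻ y', 8 * {p : ℝ × ℝ | |p.1 - p.2| ≤ δ / 2}.indicator
              (fun p => A' p.2 * T p.1) (y, y') := by
            apply lintegral_mono
            intro y'
            by_cases hy : y' ∈ Set.Icc (y - δ / 2) (y + δ / 2)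
            · have hy' : |y - y'| ≤ δ / 2 := by
                rw [abs_le]
                constructor <;> linarith [hy.1, hy.2]
              have hm : (y, y') ∈ {p : ℝ × ℝ | |p.1 - p.2| ≤ δ / 2} := hy'
              simp only [Set.indicator_of_mem hy, Set.indicator_of_mem hm]
              calc A y * T y ≤ 8 * A' y' * T y := by gcongr; exact h y y' hy'
                _ = _ := by ring
            · simp only [Set.indicator_of_notMem hy]
              exact zero_le
        _ = _ := by
            rw [lintegral_const_mul]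
            exact mΦ.comp (measurable_const.prodMk measurable_id)
    calc A y * T y = ENNReal.ofReal (1 / δ) * (ENNReal.ofReal δ * (A y * T y)) := by
          rw [← mul_assoc, ← ENNReal.ofReal_mul (by positivity), one_div,
            inv_mul_cancel₀ hδ.ne', ENNReal.ofReal_one, one_mul]
      _ ≤ ENNReal.ofReal (1 / δ) * (8 * ∫⁻ y', {p : ℝ × ℝ | |p.1 - p.2| ≤ δ / 2}.indicator
            (fun p => A' p.2 * T p.1) (y, y')) := by gcongr
      _ = _ := by
          rw [← mul_assoc]
          congr 1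
          rw [show (8 : ℝ) / δ = (1 / δ) * 8 by ring, ENNReal.ofReal_mul (by positivity)]
          norm_num
  calc ∫⁻ y, A y * T y ≤ ∫⁻ y, ENNReal.ofReal (8 / δ) *
        ∫⁻ y', {p : ℝ × ℝ | |p.1 - p.2| ≤ δ / 2}.indicator (fun p => A' p.2 * T p.1) (y, y') :=
        lintegral_mono h1
    _ = ENNReal.ofReal (8 / δ) * ∫⁻ y,
        ∫⁻ y', {p : ℝ × ℝ | |p.1 - p.2| ≤ δ / 2}.indicator (fun p => A' p.2 * T p.1) (y, y') := by
        rw [lintegral_const_mul]
        exact mΦ.lintegral_prod_right'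
    _ = ENNReal.ofReal (8 / δ) * ∫⁻ y',
        ∫⁻ y, {p : ℝ × ℝ | |p.1 - p.2| ≤ δ / 2}.indicator (fun p => A' p.2 * T p.1) (y, y') := by
        congr 1
        exact lintegral_lintegral_swap (f := fun y y' => {p : ℝ × ℝ |
          |p.1 - p.2| ≤ δ / 2}.indicator (fun p => A' p.2 * T p.1) (y, y')) mΦ.aemeasurable
    _ = _ := by
        congr 1
        apply lintegral_congr
        intro y'
        rw [← lintegral_const_mul _ (mT.indicator measurableSet_Icc)]
        apply lintegral_congr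
        intro y
        by_cases hy : y ∈ Set.Icc (y' - δ / 2) (y' + δ / 2)
        · have hm : (y, y') ∈ {p : ℝ × ℝ | |p.1 - p.2| ≤ δ / 2} := by
            show |y - y'| ≤ δ / 2
            rw [abs_le]
            constructor <;> linarith [hy.1, hy.2]
          simp only [Set.indicator_of_mem hy, Set.indicator_of_mem hm]
        · have hm : (y, y') ∉ {p : ℝ × ℝ | |p.1 - p.2| ≤ δ / 2} := by
            intro hm
            have : |y - y'| ≤ δ / 2 := hm
            rw [abs_le] at this
            exact hy ⟨by linarith [this.1], by linarith [this.2]⟩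
          simp only [Set.indicator_of_notMem hy, Set.indicator_of_notMem hm, mul_zero]

/-- the sum over the pairs, with the probability that the level is in the finite set `C` -/
noncomputable def HH (a c : Fin n → ℝ) (δ : ℝ) (C : Finset ℕ) (x y : ℝ) : ℝ≥0∞ :=
  ∑ i, ∑ j, ENNReal.ofReal |a i - a j| * (wE a c δ x y i * wE a c δ x y j *
    ∫⁻ B', ind C (nb a B' {i, j} x y) ∂Measure.pi (fun l => volume.withDensity (lap (c l) δ)))

/-- **the key pointwise estimate** -/
theorem AA_key (a c : Fin n → ℝ) {δ : ℝ} (hδ : 0 < δ) {r : ℝ} (hr : 1 / 2 ≤ r)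
    {B : Fin n → ℝ} {x y y' : ℝ} {m : ℕ} {l0 : Fin n} (hB : ∀ l, |B l - c l| ≤ δ / 2)
    (hy : |y - y'| ≤ δ / 2) (hm : nb a B {l0} x y ∈ cen m)
    [∀ l, IsProbabilityMeasure (volume.withDensity (lap (c l) δ))] :
    AA a c δ r x y' ≤ ∑ k ∈ range (n + 1), ENNReal.ofReal (2 / (8 ^ k * r)) *
      HH a c δ (win n m (3 + 6 * (8 ^ (k + 1) * r))) x y' := by
  classical
  unfold AA
  by_cases h1 : r < WW a c δ x y'
  swap
  · rw [if_neg h1]; exact zero_le
  rw [if_pos h1]
  set W := WW a c δ x y' with hW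
  have hr0 : 0 < r := by linarith
  have hW0 : 0 < W := by linarith
  have hWn : W ≤ n := WW_le a c hδ x y'
  -- the scale
  have hex : ∃ k, W ≤ 8 ^ (k + 1) * r := by
    refine ⟨n, hWn.trans ?_⟩
    have h2 : (n : ℝ) ≤ 8 ^ n := by
      have : n < 8 ^ n := Nat.lt_pow_self (by norm_num)
      exact_mod_cast this.le
    have h3 : (1 : ℝ) ≤ 8 ^ n := one_le_pow₀ (by norm_num)
    rw [pow_succ]
    nlinarith
  obtain ⟨k, hk1, hk2⟩ : ∃ k, W ≤ 8 ^ (k + 1) * r ∧ 8 ^ k * r < W := by
    classical
    refine ⟨Nat.find hex, Nat.find_spec hex, ?_⟩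
    rcases Nat.eq_zero_or_pos (Nat.find hex) with h0 | h0
    · rw [h0, pow_zero, one_mul]; exact h1
    · obtain ⟨k, hk⟩ := Nat.exists_eq_succ_of_ne_zero h0.ne'
      have := Nat.find_min hex (m := k) (by omega)
      push Not at this
      rw [hk]
      exact this
  have hkn : k ∈ range (n + 1) := by
    rw [mem_range]
    by_contra hcon
    push Not at hcon
    have h2 : (n : ℝ) < 8 ^ n := by
      have : n < 8 ^ n := Nat.lt_pow_self (by norm_num)
      exact_mod_cast this
    have h3 : (8 : ℝ) ^ (n + 1) ≤ 8 ^ k := pow_le_pow_right₀ (by norm_num) hcon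
    rw [pow_succ] at h3
    have h4 : (0 : ℝ) < 8 ^ n := by positivity
    nlinarith
  have h8 : (0 : ℝ) < 8 ^ k * r := by positivity
  refine le_trans ?_ (single_le_sum (f := fun k => ENNReal.ofReal (2 / (8 ^ k * r)) *
      HH a c δ (win n m (3 + 6 * (8 ^ (k + 1) * r))) x y') (fun _ _ => zero_le) hkn)
  unfold HH SS
  rw [Finset.sum_mul, Finset.mul_sum]
  apply sum_le_sum; intro i _
  rw [Finset.sum_mul, Finset.mul_sum]
  apply sum_le_sum; intro j _
  have h9 := half a c hδ hB hy hm i j (R := 3 + 6 * (8 ^ (k + 1) * r)) (by linarith)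
  set I := ∫⁻ B', ind (win n m (3 + 6 * (8 ^ (k + 1) * r))) (nb a B' {i, j} x y')
      ∂Measure.pi (fun l => volume.withDensity (lap (c l) δ)) with hI
  have h10 : ENNReal.ofReal (1 / W) ≤ ENNReal.ofReal (2 / (8 ^ k * r)) * I := by
    calc ENNReal.ofReal (1 / W) ≤ ENNReal.ofReal (1 / (8 ^ k * r)) := by
          apply ENNReal.ofReal_le_ofReal
          exact one_div_le_one_div_of_le h8 hk2.le
      _ = ENNReal.ofReal (1 / (8 ^ k * r)) * 1 := by ring
      _ ≤ ENNReal.ofReal (1 / (8 ^ k * r)) * (2 * I) := by gcongr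
      _ = _ := by
          rw [← mul_assoc]
          congr 1
          rw [show (2 : ℝ) / (8 ^ k * r) = 1 / (8 ^ k * r) * 2 by ring,
            ENNReal.ofReal_mul (by positivity)]
          norm_num
  calc ENNReal.ofReal |a i - a j| * (wE a c δ x y' i * wE a c δ x y' j) * ENNReal.ofReal (1 / W)
      ≤ ENNReal.ofReal |a i - a j| * (wE a c δ x y' i * wE a c δ x y' j) *
        (ENNReal.ofReal (2 / (8 ^ k * r)) * I) := by gcongr
    _ = _ := by ring

end Pool.Agent.U999.SH
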