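import Pool.Agent.Y344.KD.Win
import Pool.Agent.Y344.KD.Pert

/-!
# Smoothed analysis of halving lines: the number of crossings with levels in a window
-/

set_option autoImplicit false

namespace Pool.Agent.U999.SH

open Finset Pool.Agent.H189R2.Lev
open Pool.Agent.Results.MP_a08d0a_co.SmoothedLevel (Simple)

variable {n : ℕ}

open Classical in
/-- the number of lines `y = a l * x + B l`, `l ∉ s`, strictly below the point `(x, y)` -/
noncomputable def nb (a B : Fin n → ℝ) (s : Finset (Fin n)) (x y : ℝ) : ℕ :=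
  #{l | l ∉ s ∧ a l * x + B l < y}

lemma nb_lt_of_mem (a B : Fin n → ℝ) (s : Finset (Fin n)) (x y : ℝ) {i : Fin n} (hi : i ∈ s) :
    nb a B s x y < n := by
  classical
  unfold nb
  have h : (univ.filter (fun l => l ∉ s ∧ a l * x + B l < y) : Finset (Fin n)) ⊂ univ := by
    rw [Finset.ssubset_univ_iff]
    intro h
    have := mem_univ i
    rw [← h, mem_filter] at this
    exact this.2.1 hi
  simpa using card_lt_card h

open Classical in
/-- the pairs `(i, j)` with `a j < a i` whose crossing point has a number of lines below in `W` -/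
noncomputable def pairsW (a B : Fin n → ℝ) (W : Finset ℕ) : Finset (Fin n × Fin n) :=
  univ.filter (fun q => a q.2 < a q.1 ∧
    nb a B {q.1, q.2} (cr a B q.1 q.2) (ht a B q.1 (cr a B q.1 q.2)) ∈ W)

/-- **Dey's bound for a window of levels.** -/
theorem dey_window {a B : Fin n → ℝ} (hS : Simple a B) (W : Finset ℕ) :
    (#(pairsW a B W) : ℝ) ≤ 18 * n * ((n : ℝ) ^ (1 / 3 : ℝ) * (#W : ℝ) ^ (2 / 3 : ℝ)) := by
  classical
  obtain ⟨P, hP, hPB⟩ := Pool.Agent.Y344.KD.exists_GP hS
  rcases Nat.eq_zero_or_pos n with h0 | hn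
  · subst h0
    have : pairsW a B W = ∅ := by
      apply eq_empty_of_forall_notMem
      rintro ⟨i, -⟩
      exact i.elim0
    rw [this]
    simp
  have h1 := Pool.Agent.Y344.KD.window hP (W.filter (· < n)) (K := n - 1) (by
    intro k hk
    have := (mem_filter.mp hk).2
    omega)
  have h2 : #(pairsW a B W) ≤ #(Pool.Agent.Y344.KD.EW P (W.filter (· < n))) := by
    apply card_le_card
    intro q hq
    unfold pairsW at hq
    rw [mem_filter] at hq
    obtain ⟨-, hq1, hq2⟩ := hq
    unfold Pool.Agent.Y344.KD.EW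
    rw [mem_filter, Pool.Agent.H189R2.Iid.mem_T]
    obtain ⟨hb1, hb2⟩ := hPB q.1 q.2 hq1
    refine ⟨hb1, ?_⟩
    have hlev : Pool.Agent.H189R2.Iid.lev P q =
        nb a B {q.1, q.2} (cr a B q.1 q.2) (ht a B q.1 (cr a B q.1 q.2)) := by
      unfold Pool.Agent.H189R2.Iid.lev nb
      congr 1
      ext l
      simp only [mem_filter, mem_univ, true_and, mem_insert, mem_singleton, not_or]
      rw [hb2 l]
      constructor
      · intro h
        refine ⟨⟨?_, ?_⟩, h⟩
        · rintro rfl; exact lt_irrefl _ h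
        · rintro rfl
          rw [ht_cr hq1.ne'] at h
          exact lt_irrefl _ h
      · exact fun h => h.2
    rw [hlev, mem_filter]
    exact ⟨hq2, nb_lt_of_mem a B _ _ _ (mem_insert_self _ _)⟩
  have h3 : ((n - 1 : ℕ) : ℝ) + 1 = n := by
    rw [Nat.cast_sub (by omega)]
    push_cast
    ring
  rw [h3] at h1
  have h4 : (#(W.filter (· < n)) : ℝ) ≤ #W := by exact_mod_cast card_filter_le _ _
  calc (#(pairsW a B W) : ℝ) ≤ #(Pool.Agent.Y344.KD.EW P (W.filter (· < n))) := by
        exact_mod_cast h2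
    _ ≤ _ := h1
    _ ≤ _ := by gcongr

end Pool.Agent.U999.SH
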