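import Pool.Agent.U999.SH.Main

/-!
# Smoothed analysis of halving lines: the main inequality
-/

set_option autoImplicit false

namespace Pool.Agent.U999.SH

open Finset MeasureTheory Pool.Agent.H189R2.Lev Filter
open scoped ENNReal

variable {n : ℕ}

lemma measurable_wE (a c : Fin n → ℝ) (δ : ℝ) (l : Fin n) :
    Measurable fun p : ℝ × ℝ => wE a c δ p.1 p.2 l := by
  unfold wE wr
  fun_prop

lemma measurable_wE1 (a c : Fin n → ℝ) (δ x : ℝ) (l : Fin n) :
    Measurable fun y : ℝ => wE a c δ x y l := by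
  unfold wE wr
  fun_prop

lemma measurable_HH (a c : Fin n → ℝ) (δ : ℝ) (C : Finset ℕ)
    [∀ l, IsProbabilityMeasure (volume.withDensity (lap (c l) δ))] :
    Measurable fun p : ℝ × ℝ => HH a c δ C p.1 p.2 := by
  unfold HH
  apply Finset.measurable_sum; intro i _
  apply Finset.measurable_sum; intro j _
  exact (((measurable_wE a c δ i).mul (measurable_wE a c δ j)).mul
    (measurable_pr (fun l => volume.withDensity (lap (c l) δ)) a {i, j} (ind C))).const_mul _

lemma measurable_HH1 (a c : Fin n → ℝ) (δ : ℝ) (C : Finset ℕ)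
    [∀ l, IsProbabilityMeasure (volume.withDensity (lap (c l) δ))] (x : ℝ) :
    Measurable fun y : ℝ => HH a c δ C x y := by
  unfold HH
  apply Finset.measurable_sum; intro i _
  apply Finset.measurable_sum; intro j _
  exact (((measurable_wE1 a c δ x i).mul (measurable_wE1 a c δ x j)).mul
    (measurable_pr1 (fun l => volume.withDensity (lap (c l) δ)) a {i, j} (ind C) x)).const_mul _

lemma measurable_AA1 (a c : Fin n → ℝ) (δ r x : ℝ) : Measurable fun y : ℝ => AA a c δ r x y := by
  have hW : Measurable fun y : ℝ => WW a c δ x y := by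
    unfold WW wr
    fun_prop
  unfold AA
  refine Measurable.ite (measurableSet_lt measurable_const hW) ?_ measurable_const
  refine Measurable.mul ?_ (by fun_prop)
  unfold SS
  apply Finset.measurable_sum; intro i _
  apply Finset.measurable_sum; intro j _
  exact ((measurable_wE1 a c δ x i).mul (measurable_wE1 a c δ x j)).const_mul _

/-- the density of the lines through a point with a given number of lines below -/
noncomputable def TT (D : Fin n → ℝ → ℝ≥0∞) (ν : Fin n → Measure ℝ) (a : Fin n → ℝ) (m : ℕ)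
    (x y : ℝ) : ℝ≥0∞ :=
  ∑ l, D l (y - a l * x) * ∫⁻ B, ind (cen m) (nb a B {l} x y) ∂Measure.pi ν

lemma measurable_TT1 {D : Fin n → ℝ → ℝ≥0∞} (hD : ∀ i, Measurable (D i))
    (ν : Fin n → Measure ℝ) [∀ i, IsProbabilityMeasure (ν i)] (a : Fin n → ℝ) (m : ℕ) (x : ℝ) :
    Measurable fun y => TT D ν a m x y := by
  unfold TT
  apply Finset.measurable_sum; intro l _
  have h1 : Measurable fun y => D l (y - a l * x) := (hD l).comp (by fun_prop)
  exact h1.mul (measurable_pr1 ν a {l} (ind (cen m)) x)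

lemma ind_pq (a B : Fin n → ℝ) (m : ℕ) (i j l : Fin n) (x y : ℝ) :
    ind {m} (nb a B {i, j} x y) ≤ ind (cen m) (nb a B {l} x y) := by
  classical
  unfold ind
  by_cases h : nb a B {i, j} x y = m
  · have h0 : dif a B B x y y = 0 := by
      unfold dif
      simp
    have h1 := nb_le_nb a B B {i, j} {l} x y y
    have h2 := nb_le_nb' a B B {i, j} {l} x y y
    rw [h0, card_singleton] at h1
    have h3 : #({i, j} : Finset (Fin n)) ≤ 2 := card_le_two
    have h4 : nb a B {l} x y ∈ cen m := by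
      unfold cen
      rw [mem_filter, mem_range]
      omega
    rw [if_pos h4]
    split_ifs <;> simp
  · rw [if_neg (by simpa using h)]
    exact zero_le

/-- pointwise bound of the density of the crossing points -/
lemma point (a c : Fin n → ℝ) (ha : ∀ i j, |a i - a j| ≤ 1) {δ κ : ℝ} (hδ : 0 < δ)
    {D : Fin n → ℝ → ℝ≥0∞} (ν : Fin n → Measure ℝ)
    (hDκ : ∀ i s, D i s ≤ if |s - c i| ≤ δ / 2 then ENNReal.ofReal (κ / δ) else 0) (m : ℕ)
    (r x y : ℝ) :
    ∑ i, ∑ j, ENNReal.ofReal |a i - a j| * (D i (y - a i * x) * D j (y - a j * x) *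
      ∫⁻ B, ind {m} (nb a B {i, j} x y) ∂Measure.pi ν) ≤
    2 * ENNReal.ofReal (2 * κ / δ) * (ENNReal.ofReal r + AA a c δ r x y) * TT D ν a m x y := by
  classical
  rcases Nat.eq_zero_or_pos n with h0 | hn
  · subst h0
    simp
  set g : Fin n → ℝ≥0∞ := fun i => D i (y - a i * x) with hg
  set W := WW a c δ x y with hW
  have hW0 : 0 < W := by
    rw [hW]
    unfold WW
    exact sum_pos (fun l _ => wr_pos a c δ l x y) ⟨⟨0, hn⟩, mem_univ _⟩
  have hgtop : ∀ i, g i ≠ ∞ := by
    intro i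
    refine ne_top_of_le_ne_top ?_ (hDκ i _)
    split_ifs <;> simp
  have hgw : ∀ i, g i ≤ ENNReal.ofReal (2 * κ / δ) * wE a c δ x y i := by
    intro i
    refine (hDκ i _).trans ?_
    split_ifs with h
    · rcases le_or_gt 0 κ with hκ | hκ
      · unfold wE wr
        rw [← ENNReal.ofReal_mul (by positivity)]
        apply ENNReal.ofReal_le_ofReal
        have h1 : -(1 / 2) ≤ -|y - a i * x - c i| / δ := by
          rw [le_div_iff₀ hδ]
          linarith
        have h2 := Real.exp_le_exp.mpr h1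
        have h3 : 1 / 2 ≤ Real.exp (-(1 / 2)) := by
          have h4 := exp_half_le
          have h5 : Real.exp (-(1 / 2)) * Real.exp (1 / 2) = 1 := by
            rw [← Real.exp_add]; norm_num
          have h6 := Real.exp_pos (-(1 / 2))
          nlinarith
        have h7 : 0 ≤ κ / δ := by positivity
        calc κ / δ = 2 * (κ / δ) * (1 / 2) := by ring
          _ ≤ 2 * (κ / δ) * Real.exp (-|y - a i * x - c i| / δ) := by
              gcongr
              exact h3.trans h2
          _ = _ := by ring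
      · rw [ENNReal.ofReal_of_nonpos (by
          apply div_nonpos_of_nonpos_of_nonneg hκ.le hδ.le)]
        exact zero_le
    · exact zero_le
  have hPQ : ∀ i j l : Fin n, ∫⁻ B, ind {m} (nb a B {i, j} x y) ∂Measure.pi ν ≤
      ∫⁻ B, ind (cen m) (nb a B {l} x y) ∂Measure.pi ν := fun i j l =>
    lintegral_mono fun B => ind_pq a B m i j l x y
  have h1 := alg a g (wE a c δ x y) (ENNReal.ofReal (2 * κ / δ)) hgw hgtop
    (fun i j => ∫⁻ B, ind {m} (nb a B {i, j} x y) ∂Measure.pi ν)
    (fun l => ∫⁻ B, ind (cen m) (nb a B {l} x y) ∂Measure.pi ν) hPQ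
  rw [sum_wE, ← hW] at h1
  set V := ∑ i, ∑ j, ENNReal.ofReal |a i - a j| * (g i * g j *
      ∫⁻ B, ind {m} (nb a B {i, j} x y) ∂Measure.pi ν) with hV
  have hT : ∑ l, g l * ∫⁻ B, ind (cen m) (nb a B {l} x y) ∂Measure.pi ν = TT D ν a m x y := rfl
  rw [hT] at h1
  have h2 : ENNReal.ofReal W * ENNReal.ofReal (1 / W) = 1 := by
    rw [← ENNReal.ofReal_mul hW0.le, mul_one_div_cancel hW0.ne', ENNReal.ofReal_one]
  have h3 : SS a (wE a c δ x y) * ENNReal.ofReal (1 / W) ≤
      ENNReal.ofReal r + AA a c δ r x y := by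
    by_cases h4 : r < W
    · unfold AA
      rw [if_pos h4]
      exact le_add_self
    · refine le_trans ?_ le_self_add
      calc SS a (wE a c δ x y) * ENNReal.ofReal (1 / W)
          ≤ ((∑ i, wE a c δ x y i) * ∑ i, wE a c δ x y i) * ENNReal.ofReal (1 / W) := by
            gcongr
            exact SS_le a ha _
        _ = ENNReal.ofReal W * (ENNReal.ofReal W * ENNReal.ofReal (1 / W)) := by
            rw [sum_wE]
            ring
        _ = ENNReal.ofReal W := by rw [h2, mul_one]
        _ ≤ _ := ENNReal.ofReal_le_ofReal (not_lt.mp h4)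
  calc V = (V * ENNReal.ofReal W) * ENNReal.ofReal (1 / W) := by
        rw [mul_assoc, h2, mul_one]
    _ ≤ (2 * ENNReal.ofReal (2 * κ / δ) * SS a (wE a c δ x y) * TT D ν a m x y) *
        ENNReal.ofReal (1 / W) := by gcongr
    _ = 2 * ENNReal.ofReal (2 * κ / δ) * (SS a (wE a c δ x y) * ENNReal.ofReal (1 / W)) *
        TT D ν a m x y := by ring
    _ ≤ _ := by gcongr

/-- almost surely the intercepts are within `δ / 2` of the centres -/
lemma ae_near (c : Fin n → ℝ) {δ κ : ℝ} {D : Fin n → ℝ → ℝ≥0∞} (ν : Fin n → Measure ℝ)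
    [∀ i, IsProbabilityMeasure (ν i)] (hν : ∀ i, ν i = volume.withDensity (D i))
    (hDκ : ∀ i s, D i s ≤ if |s - c i| ≤ δ / 2 then ENNReal.ofReal (κ / δ) else 0) :
    ∀ᵐ B ∂Measure.pi ν, ∀ l, |B l - c l| ≤ δ / 2 := by
  rw [ae_all_iff]
  intro l
  have h1 : ∀ᵐ b ∂ν l, |b - c l| ≤ δ / 2 := by
    rw [ae_iff, hν l]
    have mS : MeasurableSet {b : ℝ | ¬ |b - c l| ≤ δ / 2} :=
      (measurableSet_le (f := fun b : ℝ => |b - c l|) (g := fun _ => δ / 2)
        (by fun_prop) measurable_const).compl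
    rw [withDensity_apply _ mS]
    rw [← lintegral_indicator mS]
    have : ∀ b, {b : ℝ | ¬ |b - c l| ≤ δ / 2}.indicator (D l) b = 0 := by
      intro b
      by_cases hb : |b - c l| ≤ δ / 2
      · exact Set.indicator_of_notMem
          (show b ∉ {b : ℝ | ¬ |b - c l| ≤ δ / 2} from fun h => h hb) _
      · rw [Set.indicator_of_mem (show b ∈ {b : ℝ | ¬ |b - c l| ≤ δ / 2} from hb)]
        have := hDκ l b
        rw [if_neg hb] at this
        exact le_antisymm this zero_le
    rw [lintegral_congr this, lintegral_zero]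
  exact (measurePreserving_eval ν l).quasiMeasurePreserving.ae h1

theorem TT_int {D : Fin n → ℝ → ℝ≥0∞} (hD : ∀ i, Measurable (D i)) (ν : Fin n → Measure ℝ)
    [∀ i, IsProbabilityMeasure (ν i)] (hν : ∀ i, ν i = volume.withDensity (D i)) {K : ℝ}
    (hK0 : 0 ≤ K) (hK : ∀ i s, D i s ≤ ENNReal.ofReal K) (a : Fin n → ℝ) (m : ℕ) (x : ℝ) :
    ∫⁻ y, TT D ν a m x y ≤ 4 := by
  refine (rank_bound hD ν hν hK0 hK a x (cen m)).trans ?_
  exact_mod_cast card_cen m

/-- **the inequality above a fixed abscissa** -/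
theorem above (a c : Fin n → ℝ) (ha : ∀ i j, |a i - a j| ≤ 1) {δ κ : ℝ} (hδ : 0 < δ)
    (hκ : 0 ≤ κ) {D : Fin n → ℝ → ℝ≥0∞} (hD : ∀ i, Measurable (D i)) (ν : Fin n → Measure ℝ)
    [∀ i, IsProbabilityMeasure (ν i)] (hν : ∀ i, ν i = volume.withDensity (D i))
    (hDκ : ∀ i s, D i s ≤ if |s - c i| ≤ δ / 2 then ENNReal.ofReal (κ / δ) else 0) (m : ℕ)
    {r : ℝ} (hr : 1 / 2 ≤ r) (x : ℝ)
    [∀ l, IsProbabilityMeasure (volume.withDensity (lap (c l) δ))] :
    ∫⁻ y, ∑ i, ∑ j, ENNReal.ofReal |a i - a j| * (D i (y - a i * x) * D j (y - a j * x) *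
      ∫⁻ B, ind {m} (nb a B {i, j} x y) ∂Measure.pi ν) ≤
    2 * ENNReal.ofReal (2 * κ / δ) * (ENNReal.ofReal (2 * r) * 4 +
      ENNReal.ofReal (8 / δ) * (4 * ∑ k ∈ range (n + 1), ENNReal.ofReal (2 / (8 ^ k * r)) *
        ∫⁻ y, HH a c δ (win n m (3 + 6 * (8 ^ (k + 1) * r))) x y)) := by
  classical
  have hr0 : 0 ≤ r := by linarith
  have hK : ∀ i s, D i s ≤ ENNReal.ofReal (κ / δ) := by
    intro i s
    refine (hDκ i s).trans ?_
    split_ifs
    · exact le_rfl
    · exact zero_le
  have hT4 : ∫⁻ y, TT D ν a m x y ≤ 4 := TT_int hD ν hν (by positivity) hK a m x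
  have mT := measurable_TT1 hD ν a m x
  have h1 : ∫⁻ y, AA a c δ (2 * r) x y * TT D ν a m x y ≤ ENNReal.ofReal (8 / δ) *
      ∫⁻ y', AA a c δ r x y' *
        ∫⁻ y, (Set.Icc (y' - δ / 2) (y' + δ / 2)).indicator (fun y => TT D ν a m x y) y :=
    conv hδ (measurable_AA1 a c δ r x) mT (fun y y' h => AA_smooth a c hδ hr0 x h)
  have h2 : ∀ y', AA a c δ r x y' *
        ∫⁻ y, (Set.Icc (y' - δ / 2) (y' + δ / 2)).indicator (fun y => TT D ν a m x y) y ≤
      4 * ∑ k ∈ range (n + 1), ENNReal.ofReal (2 / (8 ^ k * r)) *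
        HH a c δ (win n m (3 + 6 * (8 ^ (k + 1) * r))) x y' := by
    intro y'
    set τ := ∫⁻ y, (Set.Icc (y' - δ / 2) (y' + δ / 2)).indicator
      (fun y => TT D ν a m x y) y with hτ
    by_cases hτ0 : τ = 0
    · rw [hτ0, mul_zero]
      exact zero_le
    · have hτ4 : τ ≤ 4 := by
        refine le_trans (lintegral_mono fun y => ?_) hT4
        exact Set.indicator_le_self _ _ y
      obtain ⟨y, hy, hTy⟩ : ∃ y ∈ Set.Icc (y' - δ / 2) (y' + δ / 2), TT D ν a m x y ≠ 0 := by
        by_contra hcon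
        push Not at hcon
        apply hτ0
        rw [hτ]
        have : ∀ y, (Set.Icc (y' - δ / 2) (y' + δ / 2)).indicator
            (fun y => TT D ν a m x y) y = 0 := by
          intro y
          by_cases hy : y ∈ Set.Icc (y' - δ / 2) (y' + δ / 2)
          · rw [Set.indicator_of_mem hy]
            exact hcon y hy
          · exact Set.indicator_of_notMem hy _
        simp [this]
      have hyy : |y - y'| ≤ δ / 2 := by
        rw [abs_le]
        constructor <;> linarith [hy.1, hy.2]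
      obtain ⟨l0, -, hl0⟩ : ∃ l ∈ (univ : Finset (Fin n)), D l (y - a l * x) *
          ∫⁻ B, ind (cen m) (nb a B {l} x y) ∂Measure.pi ν ≠ 0 := by
        by_contra hcon
        push Not at hcon
        exact hTy (Finset.sum_eq_zero hcon)
      have hint : ∫⁻ B, ind (cen m) (nb a B {l0} x y) ∂Measure.pi ν ≠ 0 :=
        right_ne_zero_of_mul hl0
      obtain ⟨B, hB1, hB2⟩ : ∃ B : Fin n → ℝ, (∀ l, |B l - c l| ≤ δ / 2) ∧
          nb a B {l0} x y ∈ cen m := by
        by_contra hcon
        push Not at hcon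
        apply hint
        have hz : ∀ᵐ B ∂Measure.pi ν, ind (cen m) (nb a B {l0} x y) = 0 := by
          filter_upwards [ae_near c ν hν hDκ] with B hB
          unfold ind
          rw [if_neg (hcon B hB)]
        rw [lintegral_congr_ae hz]
        simp
      have h3 := AA_key a c hδ hr hB1 hyy hB2
      calc AA a c δ r x y' * τ ≤ (∑ k ∈ range (n + 1), ENNReal.ofReal (2 / (8 ^ k * r)) *
            HH a c δ (win n m (3 + 6 * (8 ^ (k + 1) * r))) x y') * 4 := mul_le_mul' h3 hτ4
        _ = _ := mul_comm _ _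
  have h3 : ∫⁻ y', AA a c δ r x y' *
        ∫⁻ y, (Set.Icc (y' - δ / 2) (y' + δ / 2)).indicator (fun y => TT D ν a m x y) y ≤
      4 * ∑ k ∈ range (n + 1), ENNReal.ofReal (2 / (8 ^ k * r)) *
        ∫⁻ y, HH a c δ (win n m (3 + 6 * (8 ^ (k + 1) * r))) x y := by
    refine (lintegral_mono h2).trans (le_of_eq ?_)
    have mH : ∀ k, Measurable fun y => ENNReal.ofReal (2 / (8 ^ k * r)) *
        HH a c δ (win n m (3 + 6 * (8 ^ (k + 1) * r))) x y := fun k =>
      (measurable_HH1 a c δ _ x).const_mul _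
    rw [lintegral_const_mul _ (Finset.measurable_sum _ (fun k _ => mH k)),
      lintegral_finsetSum _ (fun k _ => mH k)]
    congr 1
    apply sum_congr rfl
    intro k _
    rw [lintegral_const_mul _ (measurable_HH1 a c δ _ x)]
  calc _ ≤ ∫⁻ y, 2 * ENNReal.ofReal (2 * κ / δ) * (ENNReal.ofReal (2 * r) * TT D ν a m x y +
          AA a c δ (2 * r) x y * TT D ν a m x y) := by
        apply lintegral_mono
        intro y
        refine (point a c ha hδ ν hDκ m (2 * r) x y).trans (le_of_eq ?_)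
        ring
    _ = 2 * ENNReal.ofReal (2 * κ / δ) * (ENNReal.ofReal (2 * r) * (∫⁻ y, TT D ν a m x y) +
          ∫⁻ y, AA a c δ (2 * r) x y * TT D ν a m x y) := by
        have mm : Measurable fun y => ENNReal.ofReal (2 * r) * TT D ν a m x y +
            AA a c δ (2 * r) x y * TT D ν a m x y :=
          (mT.const_mul _).add ((measurable_AA1 a c δ _ x).mul mT)
        rw [lintegral_const_mul _ mm, lintegral_add_left (mT.const_mul _),
          lintegral_const_mul _ mT]
    _ ≤ _ := by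
        refine mul_le_mul' le_rfl (add_le_add (mul_le_mul' le_rfl hT4) (h1.trans ?_))
        exact mul_le_mul' le_rfl h3

/-- **the main inequality** -/
theorem main (a c : Fin n → ℝ) (ha : ∀ i j, |a i - a j| ≤ 1) {δ κ : ℝ} (hδ : 0 < δ)
    (hκ : 0 ≤ κ) {D : Fin n → ℝ → ℝ≥0∞} (hD : ∀ i, Measurable (D i)) (ν : Fin n → Measure ℝ)
    [∀ i, IsProbabilityMeasure (ν i)] (hν : ∀ i, ν i = volume.withDensity (D i))
    (hDκ : ∀ i s, D i s ≤ if |s - c i| ≤ δ / 2 then ENNReal.ofReal (κ / δ) else 0) (m : ℕ)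
    {r : ℝ} (hr : 1 / 2 ≤ r) :
    ∫⁻ B, ∑ i, ∑ j, ff a B {m} i j ∂Measure.pi ν ≤
    2 * ENNReal.ofReal (2 * κ / δ) * (ENNReal.ofReal (2 * r) * 8 +
      ENNReal.ofReal (8 / δ) * (4 * ∑ k ∈ range (n + 1), ENNReal.ofReal (2 / (8 ^ k * r)) *
        (ENNReal.ofReal (4 * δ ^ 2) *
          (2 * dey n (win n m (3 + 6 * (8 ^ (k + 1) * r))))))) := by
  classical
  have : ∀ l, IsProbabilityMeasure (volume.withDensity (lap (c l) δ)) := by
    intro l
    have : Fact (0 < δ) := ⟨hδ⟩
    infer_instance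
  rw [sum_vtx hD ν hν a {m}]
  set K' := 2 * ENNReal.ofReal (2 * κ / δ) with hK'
  set S : ℝ → ℝ≥0∞ := fun x => ∑ k ∈ range (n + 1), ENNReal.ofReal (2 / (8 ^ k * r)) *
        ∫⁻ y, HH a c δ (win n m (3 + 6 * (8 ^ (k + 1) * r))) x y with hS
  have mI : ∀ k, Measurable fun x => ENNReal.ofReal (2 / (8 ^ k * r)) *
        ∫⁻ y, HH a c δ (win n m (3 + 6 * (8 ^ (k + 1) * r))) x y := fun k =>
    (Measurable.lintegral_prod_right' (measurable_HH a c δ _)).const_mul _
  have mS : Measurable S := Finset.measurable_sum _ (fun k _ => mI k)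
  calc _ ≤ ∫⁻ x in Set.Icc (-1 : ℝ) 1, K' * (ENNReal.ofReal (2 * r) * 4 +
          ENNReal.ofReal (8 / δ) * (4 * S x)) := by
        apply lintegral_mono
        intro x
        exact above a c ha hδ hκ hD ν hν hDκ m hr x
    _ = K' * (ENNReal.ofReal (2 * r) * 8 + ENNReal.ofReal (8 / δ) * (4 *
          ∫⁻ x in Set.Icc (-1 : ℝ) 1, S x)) := by
        have mm : Measurable fun x => ENNReal.ofReal (2 * r) * 4 +
            ENNReal.ofReal (8 / δ) * (4 * S x) :=
          measurable_const.add ((mS.const_mul _).const_mul _)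
        rw [lintegral_const_mul _ mm,
          lintegral_add_left measurable_const, lintegral_const_mul _ (mS.const_mul _),
          lintegral_const_mul _ mS, setLIntegral_const, Real.volume_Icc]
        congr 2
        rw [mul_assoc]
        congr 1
        norm_num
    _ ≤ _ := by
        refine mul_le_mul' le_rfl (add_le_add le_rfl (mul_le_mul' le_rfl
          (mul_le_mul' le_rfl ?_)))
        rw [hS, lintegral_finsetSum _ (fun k _ => mI k)]
        apply sum_le_sum
        intro k _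
        rw [lintegral_const_mul _ (Measurable.lintegral_prod_right' (measurable_HH a c δ _))]
        exact mul_le_mul' le_rfl (HH_int a c hδ _)

end Pool.Agent.U999.SH
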