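import Pool.Agent.U999.SH.Fin

/-!
# Smoothed analysis of a single level: few scales and general bounds for windows of levels
-/

set_option autoImplicit false

namespace Pool.Agent.U999.SH

open Finset MeasureTheory Pool.Agent.H189R2.Lev Filter
open scoped ENNReal
open Pool.Agent.Results.MP_a08d0a_co.SmoothedLevel (Simple ae_simple)

variable {n : ℕ}

/-- the pointwise estimate, with `s` scales -/
theorem AA_key2 (a c : Fin n → ℝ) {δ : ℝ} (hδ : 0 < δ) {r : ℝ} (hr : 1 / 2 ≤ r) {s : ℕ}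
    (hs : (n : ℝ) ≤ 8 ^ s * r)
    {B : Fin n → ℝ} {x y y' : ℝ} {m : ℕ} {l0 : Fin n} (hB : ∀ l, |B l - c l| ≤ δ / 2)
    (hy : |y - y'| ≤ δ / 2) (hm : nb a B {l0} x y ∈ cen m)
    [∀ l, IsProbabilityMeasure (volume.withDensity (lap (c l) δ))] :
    AA a c δ r x y' ≤ ∑ k ∈ range s, ENNReal.ofReal (2 / (8 ^ k * r)) *
      HH a c δ (win n m (3 + 6 * (8 ^ (k + 1) * r))) x y' := by
  classical
  unfold AA
  by_cases h1 : r < WW a c δ x y'
  swap
  · rw [if_neg h1]; exact zero_le
  rw [if_pos h1]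
  set W := WW a c δ x y' with hW
  have hr0 : 0 < r := by linarith
  have hW0 : 0 < W := by linarith
  have hWn : W ≤ n := WW_le a c hδ x y'
  -- the scale
  have hex : ∃ k, W ≤ 8 ^ (k + 1) * r := by
    refine ⟨s, hWn.trans (hs.trans ?_)⟩
    gcongr
    · norm_num
    · omega
  obtain ⟨k, hk1, hk2⟩ : ∃ k, W ≤ 8 ^ (k + 1) * r ∧ 8 ^ k * r < W := by
    classical
    refine ⟨Nat.find hex, Nat.find_spec hex, ?_⟩
    rcases Nat.eq_zero_or_pos (Nat.find hex) with h0 | h0
    · rw [h0, pow_zero, one_mul]; exact h1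
    · obtain ⟨k, hk⟩ := Nat.exists_eq_succ_of_ne_zero h0.ne'
      have := Nat.find_min hex (m := k) (by omega)
      push Not at this
      rw [hk]
      exact this
  have hkn : k ∈ range s := by
    rw [mem_range]
    by_contra hcon
    push Not at hcon
    have h3 : (8 : ℝ) ^ s * r ≤ 8 ^ k * r := by
      gcongr
      norm_num
    linarith
  have h8 : (0 : ℝ) < 8 ^ k * r := by positivity
  refine le_trans ?_ (single_le_sum (f := fun k => ENNReal.ofReal (2 / (8 ^ k * r)) *
      HH a c δ (win n m (3 + 6 * (8 ^ (k + 1) * r))) x y') (fun _ _ => zero_le) hkn)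
  unfold HH SS
  rw [Finset.sum_mul, Finset.mul_sum]
  apply sum_le_sum; intro i _
  rw [Finset.sum_mul, Finset.mul_sum]
  apply sum_le_sum; intro j _
  have h9 := half a c hδ hB hy hm i j (R := 3 + 6 * (8 ^ (k + 1) * r)) (by linarith)
  set I := ∫⁻ B', ind (win n m (3 + 6 * (8 ^ (k + 1) * r))) (nb a B' {i, j} x y')
      ∂Measure.pi (fun l => volume.withDensity (lap (c l) δ)) with hI
  have h10 : ENNReal.ofReal (1 / W) ≤ ENNReal.ofReal (2 / (8 ^ k * r)) * I := by
    calc ENNReal.ofReal (1 / W) ≤ ENNReal.ofReal (1 / (8 ^ k * r)) := by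
          apply ENNReal.ofReal_le_ofReal
          exact one_div_le_one_div_of_le h8 hk2.le
      _ = ENNReal.ofReal (1 / (8 ^ k * r)) * 1 := by ring
      _ ≤ ENNReal.ofReal (1 / (8 ^ k * r)) * (2 * I) := by gcongr
      _ = _ := by
          rw [← mul_assoc]
          congr 1
          rw [show (2 : ℝ) / (8 ^ k * r) = 1 / (8 ^ k * r) * 2 by ring,
            ENNReal.ofReal_mul (by positivity)]
          norm_num
  calc ENNReal.ofReal |a i - a j| * (wE a c δ x y' i * wE a c δ x y' j) * ENNReal.ofReal (1 / W)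
      ≤ ENNReal.ofReal |a i - a j| * (wE a c δ x y' i * wE a c δ x y' j) *
        (ENNReal.ofReal (2 / (8 ^ k * r)) * I) := by gcongr
    _ = _ := by ring

/-- the inequality above a fixed abscissa, with `s` scales -/
theorem above2 (a c : Fin n → ℝ) (ha : ∀ i j, |a i - a j| ≤ 1) {δ κ : ℝ} (hδ : 0 < δ)
    (hκ : 0 ≤ κ) {D : Fin n → ℝ → ℝ≥0∞} (hD : ∀ i, Measurable (D i)) (ν : Fin n → Measure ℝ)
    [∀ i, IsProbabilityMeasure (ν i)] (hν : ∀ i, ν i = volume.withDensity (D i))
    (hDκ : ∀ i s, D i s ≤ if |s - c i| ≤ δ / 2 then ENNReal.ofReal (κ / δ) else 0) (m : ℕ)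
    {r : ℝ} (hr : 1 / 2 ≤ r) {s : ℕ} (hs : (n : ℝ) ≤ 8 ^ s * r) (x : ℝ)
    [∀ l, IsProbabilityMeasure (volume.withDensity (lap (c l) δ))] :
    ∫⁻ y, ∑ i, ∑ j, ENNReal.ofReal |a i - a j| * (D i (y - a i * x) * D j (y - a j * x) *
      ∫⁻ B, ind {m} (nb a B {i, j} x y) ∂Measure.pi ν) ≤
    2 * ENNReal.ofReal (2 * κ / δ) * (ENNReal.ofReal (2 * r) * 4 +
      ENNReal.ofReal (8 / δ) * (4 * ∑ k ∈ range s, ENNReal.ofReal (2 / (8 ^ k * r)) *
        ∫⁻ y, HH a c δ (win n m (3 + 6 * (8 ^ (k + 1) * r))) x y)) := by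
  classical
  have hr0 : 0 ≤ r := by linarith
  have hK : ∀ i s, D i s ≤ ENNReal.ofReal (κ / δ) := by
    intro i s
    refine (hDκ i s).trans ?_
    split_ifs
    · exact le_rfl
    · exact zero_le
  have hT4 : ∫⁻ y, TT D ν a m x y ≤ 4 := TT_int hD ν hν (by positivity) hK a m x
  have mT := measurable_TT1 hD ν a m x
  have h1 : ∫⁻ y, AA a c δ (2 * r) x y * TT D ν a m x y ≤ ENNReal.ofReal (8 / δ) *
      ∫⁻ y', AA a c δ r x y' *
        ∫⁻ y, (Set.Icc (y' - δ / 2) (y' + δ / 2)).indicator (fun y => TT D ν a m x y) y :=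
    conv hδ (measurable_AA1 a c δ r x) mT (fun y y' h => AA_smooth a c hδ hr0 x h)
  have h2 : ∀ y', AA a c δ r x y' *
        ∫⁻ y, (Set.Icc (y' - δ / 2) (y' + δ / 2)).indicator (fun y => TT D ν a m x y) y ≤
      4 * ∑ k ∈ range s, ENNReal.ofReal (2 / (8 ^ k * r)) *
        HH a c δ (win n m (3 + 6 * (8 ^ (k + 1) * r))) x y' := by
    intro y'
    set τ := ∫⁻ y, (Set.Icc (y' - δ / 2) (y' + δ / 2)).indicator
      (fun y => TT D ν a m x y) y with hτ
    by_cases hτ0 : τ = 0
    · rw [hτ0, mul_zero]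
      exact zero_le
    · have hτ4 : τ ≤ 4 := by
        refine le_trans (lintegral_mono fun y => ?_) hT4
        exact Set.indicator_le_self _ _ y
      obtain ⟨y, hy, hTy⟩ : ∃ y ∈ Set.Icc (y' - δ / 2) (y' + δ / 2), TT D ν a m x y ≠ 0 := by
        by_contra hcon
        push Not at hcon
        apply hτ0
        rw [hτ]
        have : ∀ y, (Set.Icc (y' - δ / 2) (y' + δ / 2)).indicator
            (fun y => TT D ν a m x y) y = 0 := by
          intro y
          by_cases hy : y ∈ Set.Icc (y' - δ / 2) (y' + δ / 2)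
          · rw [Set.indicator_of_mem hy]
            exact hcon y hy
          · exact Set.indicator_of_notMem hy _
        simp [this]
      have hyy : |y - y'| ≤ δ / 2 := by
        rw [abs_le]
        constructor <;> linarith [hy.1, hy.2]
      obtain ⟨l0, -, hl0⟩ : ∃ l ∈ (univ : Finset (Fin n)), D l (y - a l * x) *
          ∫⁻ B, ind (cen m) (nb a B {l} x y) ∂Measure.pi ν ≠ 0 := by
        by_contra hcon
        push Not at hcon
        exact hTy (Finset.sum_eq_zero hcon)
      have hint : ∫⁻ B, ind (cen m) (nb a B {l0} x y) ∂Measure.pi ν ≠ 0 :=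
        right_ne_zero_of_mul hl0
      obtain ⟨B, hB1, hB2⟩ : ∃ B : Fin n → ℝ, (∀ l, |B l - c l| ≤ δ / 2) ∧
          nb a B {l0} x y ∈ cen m := by
        by_contra hcon
        push Not at hcon
        apply hint
        have hz : ∀ᵐ B ∂Measure.pi ν, ind (cen m) (nb a B {l0} x y) = 0 := by
          filter_upwards [ae_near c ν hν hDκ] with B hB
          unfold ind
          rw [if_neg (hcon B hB)]
        rw [lintegral_congr_ae hz]
        simp
      have h3 := AA_key2 a c hδ hr hs hB1 hyy hB2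
      calc AA a c δ r x y' * τ ≤ (∑ k ∈ range s, ENNReal.ofReal (2 / (8 ^ k * r)) *
            HH a c δ (win n m (3 + 6 * (8 ^ (k + 1) * r))) x y') * 4 := mul_le_mul' h3 hτ4
        _ = _ := mul_comm _ _
  have h3 : ∫⁻ y', AA a c δ r x y' *
        ∫⁻ y, (Set.Icc (y' - δ / 2) (y' + δ / 2)).indicator (fun y => TT D ν a m x y) y ≤
      4 * ∑ k ∈ range s, ENNReal.ofReal (2 / (8 ^ k * r)) *
        ∫⁻ y, HH a c δ (win n m (3 + 6 * (8 ^ (k + 1) * r))) x y := by
    refine (lintegral_mono h2).trans (le_of_eq ?_)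
    have mH : ∀ k, Measurable fun y => ENNReal.ofReal (2 / (8 ^ k * r)) *
        HH a c δ (win n m (3 + 6 * (8 ^ (k + 1) * r))) x y := fun k =>
      (measurable_HH1 a c δ _ x).const_mul _
    rw [lintegral_const_mul _ (Finset.measurable_sum _ (fun k _ => mH k)),
      lintegral_finsetSum _ (fun k _ => mH k)]
    congr 1
    apply sum_congr rfl
    intro k _
    rw [lintegral_const_mul _ (measurable_HH1 a c δ _ x)]
  calc _ ≤ ∫⁻ y, 2 * ENNReal.ofReal (2 * κ / δ) * (ENNReal.ofReal (2 * r) * TT D ν a m x y +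
          AA a c δ (2 * r) x y * TT D ν a m x y) := by
        apply lintegral_mono
        intro y
        refine (point a c ha hδ ν hDκ m (2 * r) x y).trans (le_of_eq ?_)
        ring
    _ = 2 * ENNReal.ofReal (2 * κ / δ) * (ENNReal.ofReal (2 * r) * (∫⁻ y, TT D ν a m x y) +
          ∫⁻ y, AA a c δ (2 * r) x y * TT D ν a m x y) := by
        have mm : Measurable fun y => ENNReal.ofReal (2 * r) * TT D ν a m x y +
            AA a c δ (2 * r) x y * TT D ν a m x y :=
          (mT.const_mul _).add ((measurable_AA1 a c δ _ x).mul mT)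
        rw [lintegral_const_mul _ mm, lintegral_add_left (mT.const_mul _),
          lintegral_const_mul _ mT]
    _ ≤ _ := by
        refine mul_le_mul' le_rfl (add_le_add (mul_le_mul' le_rfl hT4) (h1.trans ?_))
        exact mul_le_mul' le_rfl h3

/-- the exponential arrangement, with a general bound for the window -/
theorem HH_int2 (a c : Fin n → ℝ) {δ : ℝ} (hδ : 0 < δ) (C : Finset ℕ) (bd : ℝ≥0∞)
    (hbd : ∀ B : Fin n → ℝ, Simple a B → ∑ i, ∑ j, ff a B C i j ≤ 2 * bd)
    [∀ l, IsProbabilityMeasure (volume.withDensity (lap (c l) δ))] :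
    ∫⁻ x in Set.Icc (-1) 1, ∫⁻ y, HH a c δ C x y ≤
      ENNReal.ofReal (4 * δ ^ 2) * (2 * bd) := by
  classical
  set νh : Fin n → Measure ℝ := fun l => volume.withDensity (lap (c l) δ) with hνh
  have e1 : ∀ x y, HH a c δ C x y = ENNReal.ofReal (4 * δ ^ 2) * ∑ i, ∑ j,
      ENNReal.ofReal |a i - a j| * (lap (c i) δ (y - a i * x) *
      lap (c j) δ (y - a j * x) * ∫⁻ B, ind C (nb a B {i, j} x y) ∂Measure.pi νh) := by
    intro x y
    unfold HH
    rw [mul_sum]
    apply sum_congr rfl; intro i _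
    rw [mul_sum]
    apply sum_congr rfl; intro j _
    rw [lap_wr a c hδ, lap_wr a c hδ]
    have h1 : ENNReal.ofReal (4 * δ ^ 2) * (ENNReal.ofReal (1 / (2 * δ)) *
        ENNReal.ofReal (1 / (2 * δ))) = 1 := by
      rw [← ENNReal.ofReal_mul (by positivity), ← ENNReal.ofReal_mul (by positivity)]
      rw [show 4 * δ ^ 2 * (1 / (2 * δ) * (1 / (2 * δ))) = 1 by field_simp; norm_num]
      simp
    unfold wE
    set X := ∫⁻ B, ind C (nb a B {i, j} x y) ∂Measure.pi νh
    set u := ENNReal.ofReal (wr a c δ i x y)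
    set v := ENNReal.ofReal (wr a c δ j x y)
    set d := ENNReal.ofReal |a i - a j|
    set q := ENNReal.ofReal (1 / (2 * δ))
    calc d * (u * v * X) = (ENNReal.ofReal (4 * δ ^ 2) * (q * q)) * (d * (u * v * X)) := by
          rw [h1, one_mul]
      _ = _ := by ring
  have m0 : ∀ i, Measurable (lap (c i) δ) := fun i => measurable_lap _ _
  have m1 : Measurable fun p : ℝ × ℝ => ∑ i, ∑ j,
      ENNReal.ofReal |a i - a j| * (lap (c i) δ (p.2 - a i * p.1) *
      lap (c j) δ (p.2 - a j * p.1) *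
        ∫⁻ B, ind C (nb a B {i, j} p.1 p.2) ∂Measure.pi νh) := by
    apply Finset.measurable_sum; intro i _
    apply Finset.measurable_sum; intro j _
    exact (meas_term (D := fun i => lap (c i) δ) m0 νh a i j C).const_mul _
  have m2 : ∀ x, Measurable fun y : ℝ => ∑ i, ∑ j,
      ENNReal.ofReal |a i - a j| * (lap (c i) δ (y - a i * x) *
      lap (c j) δ (y - a j * x) * ∫⁻ B, ind C (nb a B {i, j} x y) ∂Measure.pi νh) := by
    intro x
    apply Finset.measurable_sum; intro i _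
    apply Finset.measurable_sum; intro j _
    have h1 : Measurable fun y : ℝ => lap (c i) δ (y - a i * x) := (m0 i).comp (by fun_prop)
    have h2 : Measurable fun y : ℝ => lap (c j) δ (y - a j * x) := (m0 j).comp (by fun_prop)
    exact ((h1.mul h2).mul (measurable_pr1 νh a {i, j} (ind C) x)).const_mul _
  simp_rw [e1]
  have e2 : ∀ x, ∫⁻ y, ENNReal.ofReal (4 * δ ^ 2) * ∑ i, ∑ j,
      ENNReal.ofReal |a i - a j| * (lap (c i) δ (y - a i * x) *
      lap (c j) δ (y - a j * x) * ∫⁻ B, ind C (nb a B {i, j} x y) ∂Measure.pi νh) =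
      ENNReal.ofReal (4 * δ ^ 2) * ∫⁻ y, ∑ i, ∑ j,
      ENNReal.ofReal |a i - a j| * (lap (c i) δ (y - a i * x) *
      lap (c j) δ (y - a j * x) * ∫⁻ B, ind C (nb a B {i, j} x y) ∂Measure.pi νh) :=
    fun x => lintegral_const_mul _ (m2 x)
  simp_rw [e2]
  rw [lintegral_const_mul _ (Measurable.lintegral_prod_right' m1)]
  gcongr
  rw [← sum_vtx (D := fun i => lap (c i) δ) m0 νh (fun i => rfl) a C]
  have hK : ∀ i s, lap (c i) δ s ≤ ENNReal.ofReal (1 / (2 * δ)) := by
    intro i s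
    unfold lap
    apply ENNReal.ofReal_le_ofReal
    apply div_le_div_of_nonneg_right _ (by positivity)
    rw [Real.exp_le_one_iff]
    apply div_nonpos_of_nonpos_of_nonneg _ hδ.le
    linarith [abs_nonneg (s - c i)]
  have hae := ae_simple (icc_le (D := fun i => lap (c i) δ) νh (fun i => rfl)
    (K := 1 / (2 * δ)) (by positivity) hK) a
  calc ∫⁻ B, ∑ i, ∑ j, ff a B C i j ∂Measure.pi νh ≤ ∫⁻ _B, 2 * bd ∂Measure.pi νh := by
        apply lintegral_mono_ae
        filter_upwards [hae] with B hB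
        exact hbd B hB
    _ = _ := by simp

/-- **the main inequality**, with `s` scales and general bounds for the windows -/
theorem main2 (a c : Fin n → ℝ) (ha : ∀ i j, |a i - a j| ≤ 1) {δ κ : ℝ} (hδ : 0 < δ)
    (hκ : 0 ≤ κ) {D : Fin n → ℝ → ℝ≥0∞} (hD : ∀ i, Measurable (D i)) (ν : Fin n → Measure ℝ)
    [∀ i, IsProbabilityMeasure (ν i)] (hν : ∀ i, ν i = volume.withDensity (D i))
    (hDκ : ∀ i s, D i s ≤ if |s - c i| ≤ δ / 2 then ENNReal.ofReal (κ / δ) else 0) (m : ℕ)
    {r : ℝ} (hr : 1 / 2 ≤ r) {s : ℕ} (hs : (n : ℝ) ≤ 8 ^ s * r) (bd : ℕ → ℝ≥0∞)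
    (hbd : ∀ k, ∀ B : Fin n → ℝ, Simple a B →
      ∑ i, ∑ j, ff a B (win n m (3 + 6 * (8 ^ (k + 1) * r))) i j ≤ 2 * bd k) :
    ∫⁻ B, ∑ i, ∑ j, ff a B {m} i j ∂Measure.pi ν ≤
    2 * ENNReal.ofReal (2 * κ / δ) * (ENNReal.ofReal (2 * r) * 8 +
      ENNReal.ofReal (8 / δ) * (4 * ∑ k ∈ range s, ENNReal.ofReal (2 / (8 ^ k * r)) *
        (ENNReal.ofReal (4 * δ ^ 2) * (2 * bd k)))) := by
  classical
  have : ∀ l, IsProbabilityMeasure (volume.withDensity (lap (c l) δ)) := by
    intro l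
    have : Fact (0 < δ) := ⟨hδ⟩
    infer_instance
  rw [sum_vtx hD ν hν a {m}]
  set K' := 2 * ENNReal.ofReal (2 * κ / δ) with hK'
  set S : ℝ → ℝ≥0∞ := fun x => ∑ k ∈ range s, ENNReal.ofReal (2 / (8 ^ k * r)) *
        ∫⁻ y, HH a c δ (win n m (3 + 6 * (8 ^ (k + 1) * r))) x y with hS
  have mI : ∀ k, Measurable fun x => ENNReal.ofReal (2 / (8 ^ k * r)) *
        ∫⁻ y, HH a c δ (win n m (3 + 6 * (8 ^ (k + 1) * r))) x y := fun k =>
    (Measurable.lintegral_prod_right' (measurable_HH a c δ _)).const_mul _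
  have mS : Measurable S := Finset.measurable_sum _ (fun k _ => mI k)
  calc _ ≤ ∫⁻ x in Set.Icc (-1 : ℝ) 1, K' * (ENNReal.ofReal (2 * r) * 4 +
          ENNReal.ofReal (8 / δ) * (4 * S x)) := by
        apply lintegral_mono
        intro x
        exact above2 a c ha hδ hκ hD ν hν hDκ m hr hs x
    _ = K' * (ENNReal.ofReal (2 * r) * 8 + ENNReal.ofReal (8 / δ) * (4 *
          ∫⁻ x in Set.Icc (-1 : ℝ) 1, S x)) := by
        have mm : Measurable fun x => ENNReal.ofReal (2 * r) * 4 +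
            ENNReal.ofReal (8 / δ) * (4 * S x) :=
          measurable_const.add ((mS.const_mul _).const_mul _)
        rw [lintegral_const_mul _ mm,
          lintegral_add_left measurable_const, lintegral_const_mul _ (mS.const_mul _),
          lintegral_const_mul _ mS, setLIntegral_const, Real.volume_Icc]
        congr 2
        rw [mul_assoc]
        congr 1
        norm_num
    _ ≤ _ := by
        refine mul_le_mul' le_rfl (add_le_add le_rfl (mul_le_mul' le_rfl
          (mul_le_mul' le_rfl ?_)))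
        rw [hS, lintegral_finsetSum _ (fun k _ => mI k)]
        apply sum_le_sum
        intro k _
        rw [lintegral_const_mul _ (Measurable.lintegral_prod_right' (measurable_HH a c δ _))]
        exact mul_le_mul' le_rfl (HH_int2 a c hδ _ (bd k) (hbd k))

end Pool.Agent.U999.SH
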