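import Pool.Agent.U999.SH.Fin

/-!
# Smoothed analysis of halving lines: the numerical bound
-/

set_option autoImplicit false

namespace Pool.Agent.U999.SH

open Finset MeasureTheory Pool.Agent.H189R2.Lev Filter
open scoped ENNReal
open Pool.Agent.Results.MP_a08d0a_co.SmoothedLevel (Simple ae_simple)

variable {n : ℕ}

lemma rpow_two_thirds_le {x y : ℝ} (hx : 0 ≤ x) (hy : 0 ≤ y) (h : x ^ 2 ≤ y ^ 3) :
    x ^ (2 / 3 : ℝ) ≤ y := by
  have e1 : x ^ (2 / 3 : ℝ) = (x ^ 2) ^ (1 / 3 : ℝ) := by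
    rw [← Real.rpow_natCast x 2, ← Real.rpow_mul hx]
    norm_num
  have e2 : (y ^ 3) ^ (1 / 3 : ℝ) = y := by
    rw [← Real.rpow_natCast y 3, ← Real.rpow_mul hy]
    norm_num
  rw [e1, ← e2]
  gcongr

/-- the sum over the scales -/
lemma scales (m : ℕ) {δ s z : ℝ} (hz : 1 / 2 ≤ z ^ 3) (hz0 : 0 < z) (hs : 0 ≤ s)
    (hsn : (n : ℝ) ^ (1 / 3 : ℝ) = s) :
    ∑ k ∈ range (n + 1), ENNReal.ofReal (2 / (8 ^ k * z ^ 3)) *
        (ENNReal.ofReal (4 * δ ^ 2) *
          (2 * dey n (win n m (3 + 6 * (8 ^ (k + 1) * z ^ 3))))) ≤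
      ENNReal.ofReal (13248 * δ ^ 2 * n * s / z) := by
  have hterm : ∀ k ∈ range (n + 1), ENNReal.ofReal (2 / (8 ^ k * z ^ 3)) *
        (ENNReal.ofReal (4 * δ ^ 2) *
          (2 * dey n (win n m (3 + 6 * (8 ^ (k + 1) * z ^ 3))))) ≤
      ENNReal.ofReal (6624 * δ ^ 2 * n * s / z * (1 / 2) ^ k) := by
    intro k _
    have h8 : (1 : ℝ) ≤ 8 ^ k := one_le_pow₀ (by norm_num)
    have hc : (#(win n m (3 + 6 * (8 ^ (k + 1) * z ^ 3))) : ℝ) ≤ 110 * 8 ^ k * z ^ 3 := by
      refine (card_win n m (by positivity)).trans ?_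
      rw [pow_succ]
      nlinarith [mul_le_mul h8 hz (by norm_num) (by positivity)]
    have hc2 : (#(win n m (3 + 6 * (8 ^ (k + 1) * z ^ 3))) : ℝ) ^ (2 / 3 : ℝ) ≤
        23 * 4 ^ k * z ^ 2 := by
      refine (Real.rpow_le_rpow (Nat.cast_nonneg _) hc (by norm_num)).trans ?_
      apply rpow_two_thirds_le (by positivity) (by positivity)
      have e3 : ((8 : ℝ) ^ k) ^ 2 = ((4 : ℝ) ^ k) ^ 3 := by
        rw [← pow_mul, ← pow_mul, mul_comm k 2, mul_comm k 3, pow_mul, pow_mul]
        norm_num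
      have e4 : (110 * 8 ^ k * z ^ 3) ^ 2 = 12100 * ((4 : ℝ) ^ k) ^ 3 * z ^ 6 := by
        rw [← e3]; ring
      have e5 : (23 * 4 ^ k * z ^ 2) ^ 3 = 12167 * ((4 : ℝ) ^ k) ^ 3 * z ^ 6 := by ring
      rw [e4, e5]
      gcongr
      norm_num
    have hdey : dey n (win n m (3 + 6 * (8 ^ (k + 1) * z ^ 3))) ≤
        ENNReal.ofReal (18 * n * (s * (23 * 4 ^ k * z ^ 2))) := by
      unfold dey
      rw [hsn]
      apply ENNReal.ofReal_le_ofReal
      gcongr
    calc ENNReal.ofReal (2 / (8 ^ k * z ^ 3)) * (ENNReal.ofReal (4 * δ ^ 2) *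
          (2 * dey n (win n m (3 + 6 * (8 ^ (k + 1) * z ^ 3)))))
        ≤ ENNReal.ofReal (2 / (8 ^ k * z ^ 3)) * (ENNReal.ofReal (4 * δ ^ 2) *
          (2 * ENNReal.ofReal (18 * n * (s * (23 * 4 ^ k * z ^ 2))))) := by gcongr
      _ = ENNReal.ofReal (2 / (8 ^ k * z ^ 3) * (4 * δ ^ 2 *
          (2 * (18 * n * (s * (23 * 4 ^ k * z ^ 2)))))) := by
          rw [ENNReal.ofReal_mul (p := 2 / (8 ^ k * z ^ 3)) (by positivity),
            ENNReal.ofReal_mul (p := 4 * δ ^ 2) (by positivity),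
            ENNReal.ofReal_mul (p := 2) (by norm_num)]
          norm_num
      _ = _ := by
          congr 1
          have e6 : (8 : ℝ) ^ k = 4 ^ k * 2 ^ k := by rw [← mul_pow]; norm_num
          rw [e6, one_div, inv_pow]
          field_simp
          ring
  refine (sum_le_sum hterm).trans ?_
  rw [← ENNReal.ofReal_sum_of_nonneg (fun k _ => by positivity)]
  apply ENNReal.ofReal_le_ofReal
  rw [← mul_sum]
  have h2 := sum_geometric_two_le (n + 1)
  calc 6624 * δ ^ 2 * n * s / z * ∑ i ∈ range (n + 1), (1 / 2 : ℝ) ^ i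
      ≤ 6624 * δ ^ 2 * n * s / z * 2 := by gcongr
    _ = _ := by ring

/-- **random intercepts**: the expected number of crossings with exactly `m` lines below -/
theorem lines_bound (a c : Fin n → ℝ) (ha : ∀ i j, |a i - a j| ≤ 1) {δ κ : ℝ} (hδ : 0 < δ)
    {D : Fin n → ℝ → ℝ≥0∞} (hD : ∀ i, Measurable (D i)) (ν : Fin n → Measure ℝ)
    [∀ i, IsProbabilityMeasure (ν i)] (hν : ∀ i, ν i = volume.withDensity (D i))
    (hDκ : ∀ i s, D i s ≤ if |s - c i| ≤ δ / 2 then ENNReal.ofReal (κ / δ) else 0) (m : ℕ) :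
    ∫⁻ B, ∑ i, ∑ j, ff a B {m} i j ∂Measure.pi ν ≤
      ENNReal.ofReal (240000 * κ * n * δ ^ (-(1 / 4) : ℝ)) := by
  classical
  rcases Nat.eq_zero_or_pos n with h0 | hn
  · subst h0
    simp
  have hn0 : (0 : ℝ) < n := by exact_mod_cast hn
  -- `1 ≤ κ`
  have hκ : 1 ≤ κ := by
    have i : Fin n := ⟨0, hn⟩
    have h1 : ν i Set.univ = 1 := measure_univ
    rw [hν i, withDensity_apply _ MeasurableSet.univ, Measure.restrict_univ] at h1
    have h2 : ∫⁻ s, D i s ≤ ENNReal.ofReal (κ / δ) * ENNReal.ofReal δ := by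
      calc ∫⁻ s, D i s ≤ ∫⁻ s, (Set.Icc (c i - δ / 2) (c i + δ / 2)).indicator
            (fun _ => ENNReal.ofReal (κ / δ)) s := by
            apply lintegral_mono
            intro s
            refine (hDκ i s).trans ?_
            split_ifs with h
            · rw [abs_le] at h
              rw [Set.indicator_of_mem]
              constructor <;> linarith [h.1, h.2]
            · exact zero_le
        _ = _ := by
            rw [lintegral_indicator measurableSet_Icc, setLIntegral_const, Real.volume_Icc]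
            congr 2
            ring
    rw [h1] at h2
    by_contra hcon
    push Not at hcon
    rcases le_or_gt 0 κ with hk | hk
    · rw [← ENNReal.ofReal_mul (by positivity), div_mul_cancel₀ _ hδ.ne'] at h2
      rw [ENNReal.one_le_ofReal] at h2
      linarith
    · rw [ENNReal.ofReal_of_nonpos (div_nonpos_of_nonpos_of_nonneg hk.le hδ.le), zero_mul] at h2
      simp at h2
  have hκ0 : 0 ≤ κ := by linarith
  set t : ℝ := δ ^ (1 / 4 : ℝ) with ht
  have ht0 : 0 < t := Real.rpow_pos_of_pos hδ _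
  have ht4 : t ^ 4 = δ := by
    rw [ht, ← Real.rpow_natCast, ← Real.rpow_mul hδ.le]
    norm_num
  have htinv : δ ^ (-(1 / 4) : ℝ) = 1 / t := by
    rw [Real.rpow_neg hδ.le, ← ht, one_div]
  rw [htinv]
  set s : ℝ := (n : ℝ) ^ (1 / 3 : ℝ) with hs
  have hs0 : 0 < s := Real.rpow_pos_of_pos hn0 _
  have hs3 : s ^ 3 = n := by
    rw [hs, ← Real.rpow_natCast, ← Real.rpow_mul hn0.le]
    norm_num
  rcases lt_or_ge (s * t) 1 with hst | hst
  · -- `n ^ (1 / 3) ≤ δ ^ (-1 / 4)`: Dey's bound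
    have hK : ∀ i s, D i s ≤ ENNReal.ofReal (κ / δ) := by
      intro i s
      refine (hDκ i s).trans ?_
      split_ifs
      · exact le_rfl
      · exact zero_le
    calc ∫⁻ B, ∑ i, ∑ j, ff a B {m} i j ∂Measure.pi ν
        ≤ ∫⁻ _B, 2 * dey n {m} ∂Measure.pi ν := by
          apply lintegral_mono_ae
          filter_upwards [ae_simple (icc_le ν hν (by positivity) hK) a] with B hB
          exact sum_ff_dey hB {m}
      _ = 2 * dey n {m} := by simp
      _ = ENNReal.ofReal (36 * n * s) := by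
          unfold dey
          rw [card_singleton, ← hs]
          have : (2 : ℝ≥0∞) = ENNReal.ofReal 2 := by simp
          rw [this, ← ENNReal.ofReal_mul (by norm_num)]
          congr 1
          simp
          ring
      _ ≤ _ := by
          apply ENNReal.ofReal_le_ofReal
          have h1 : s ≤ 1 / t := by
            rw [le_div_iff₀ ht0]
            exact hst.le
          calc 36 * n * s ≤ 36 * n * (1 / t) := by gcongr
            _ ≤ 240000 * κ * n * (1 / t) := by
              gcongr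
              linarith
  · have hst0 : 0 < s * t := by positivity
    have hz3 : (1 : ℝ) / 2 ≤ (10 * (s * t)) ^ 3 := by
      have : (1 : ℝ) ≤ (10 * (s * t)) ^ 3 := one_le_pow₀ (by linarith)
      linarith
    have h1 := main a c ha hδ hκ0 hD ν hν hDκ m hz3
    have h2 := scales (n := n) m (δ := δ) hz3 (by positivity) hs0.le hs.symm
    refine h1.trans ?_
    set Y : ℝ := 13248 * δ ^ 2 * n * s / (10 * (s * t)) with hY
    have hY0 : 0 ≤ Y := by positivity
    calc 2 * ENNReal.ofReal (2 * κ / δ) * (ENNReal.ofReal (2 * (10 * (s * t)) ^ 3) * 8 +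
          ENNReal.ofReal (8 / δ) * (4 * ∑ k ∈ range (n + 1),
            ENNReal.ofReal (2 / (8 ^ k * (10 * (s * t)) ^ 3)) * (ENNReal.ofReal (4 * δ ^ 2) *
            (2 * dey n (win n m (3 + 6 * (8 ^ (k + 1) * (10 * (s * t)) ^ 3)))))))
        ≤ 2 * ENNReal.ofReal (2 * κ / δ) * (ENNReal.ofReal (2 * (10 * (s * t)) ^ 3) * 8 +
          ENNReal.ofReal (8 / δ) * (4 * ENNReal.ofReal Y)) := by
          exact mul_le_mul' le_rfl (add_le_add le_rfl (mul_le_mul' le_rfl
            (mul_le_mul' le_rfl h2)))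
      _ = ENNReal.ofReal (2 * (2 * κ / δ) * (2 * (10 * (s * t)) ^ 3 * 8 +
          8 / δ * (4 * Y))) := by
          rw [ENNReal.ofReal_mul (p := 2 * (2 * κ / δ)) (by positivity),
            ENNReal.ofReal_mul (p := 2) (q := 2 * κ / δ) (by norm_num),
            ENNReal.ofReal_add (by positivity) (by positivity),
            ENNReal.ofReal_mul (p := 2 * (10 * (s * t)) ^ 3) (by positivity),
            ENNReal.ofReal_mul (p := 8 / δ) (by positivity),
            ENNReal.ofReal_mul (p := 4) (q := Y) (by norm_num)]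
          norm_num
      _ ≤ _ := by
          apply ENNReal.ofReal_le_ofReal
          have e1 : 2 * (2 * κ / δ) * (2 * (10 * (s * t)) ^ 3 * 8 + 8 / δ * (4 * Y)) =
              (64000 + 169574.4) * κ * n * (1 / t) := by
            rw [hY, ← ht4, ← hs3]
            field_simp
            ring
          rw [e1]
          gcongr
          norm_num

end Pool.Agent.U999.SH
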