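import Pool.Agent.U999.SH.KMain
import Pool.Agent.U999.SH.Num

/-!
# Smoothed analysis of a single level: the bound in terms of the level
-/

set_option autoImplicit false

namespace Pool.Agent.U999.SH

open Finset MeasureTheory Pool.Agent.H189R2.Lev Filter
open scoped ENNReal
open Pool.Agent.Results.MP_a08d0a_co.SmoothedLevel (Simple ae_simple)

variable {n : ℕ}

/-- windows of levels at most `K` -/
theorem dey_window2 {a B : Fin n → ℝ} (hS : Simple a B) (W : Finset ℕ) {K : ℕ}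
    (hW : ∀ k ∈ W, k ≤ K) :
    (#(pairsW a B W) : ℝ) ≤ 18 * n * (((K : ℝ) + 1) ^ (1 / 3 : ℝ) * (#W : ℝ) ^ (2 / 3 : ℝ)) ∧
    (#(pairsW a B W) : ℝ) ≤ 3 * n * (K + 1) := by
  classical
  obtain ⟨P, hP, hPB⟩ := Pool.Agent.Y344.KD.exists_GP hS
  have h1 := Pool.Agent.Y344.KD.window hP W hW
  have h1' := Pool.Agent.H189R2.Iid.low_le hP K
  have h2 : #(pairsW a B W) ≤ #(Pool.Agent.Y344.KD.EW P W) := by
    apply card_le_card
    intro q hq
    unfold pairsW at hq
    rw [mem_filter] at hq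
    obtain ⟨-, hq1, hq2⟩ := hq
    unfold Pool.Agent.Y344.KD.EW
    rw [mem_filter, Pool.Agent.H189R2.Iid.mem_T]
    obtain ⟨hb1, hb2⟩ := hPB q.1 q.2 hq1
    refine ⟨hb1, ?_⟩
    have hlev : Pool.Agent.H189R2.Iid.lev P q =
        nb a B {q.1, q.2} (cr a B q.1 q.2) (ht a B q.1 (cr a B q.1 q.2)) := by
      unfold Pool.Agent.H189R2.Iid.lev nb
      congr 1
      ext l
      simp only [mem_filter, mem_univ, true_and, mem_insert, mem_singleton, not_or]
      rw [hb2 l]
      constructor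
      · intro h
        refine ⟨⟨?_, ?_⟩, h⟩
        · rintro rfl; exact lt_irrefl _ h
        · rintro rfl
          rw [ht_cr hq1.ne'] at h
          exact lt_irrefl _ h
      · exact fun h => h.2
    rw [hlev]
    exact hq2
  have h3 : #(Pool.Agent.Y344.KD.EW P W) ≤
      #((Pool.Agent.H189R2.Iid.T P).filter (fun q => Pool.Agent.H189R2.Iid.lev P q ≤ K)) := by
    apply card_le_card
    intro q hq
    unfold Pool.Agent.Y344.KD.EW at hq
    rw [mem_filter] at hq ⊢
    exact ⟨hq.1, hW _ hq.2⟩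
  constructor
  · calc (#(pairsW a B W) : ℝ) ≤ #(Pool.Agent.Y344.KD.EW P W) := by exact_mod_cast h2
      _ ≤ _ := h1
  · calc (#(pairsW a B W) : ℝ) ≤ #((Pool.Agent.H189R2.Iid.T P).filter
          (fun q => Pool.Agent.H189R2.Iid.lev P q ≤ K)) := by exact_mod_cast h2.trans h3
      _ ≤ _ := h1'

lemma pairs_win {a B : Fin n → ℝ} (hS : Simple a B) (m : ℕ) {R : ℝ} (hR : 0 ≤ R) :
    (#(pairsW a B (win n m R)) : ℝ) ≤
      18 * n * (((m : ℝ) + 1 + R) ^ (1 / 3 : ℝ) * (2 * R + 1) ^ (2 / 3 : ℝ)) ∧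
    (#(pairsW a B (win n m R)) : ℝ) ≤ 3 * n * (m + 1 + R) := by
  have h := dey_window2 hS (win n m R) (K := ⌊(m : ℝ) + R⌋₊) (by
    intro k hk
    unfold win at hk
    rw [mem_filter, abs_le] at hk
    exact Nat.le_floor (by linarith [hk.2.2]))
  have hK : (⌊(m : ℝ) + R⌋₊ : ℝ) ≤ m + R := Nat.floor_le (by positivity)
  have hc := card_win n m hR
  constructor
  · refine h.1.trans ?_
    have e1 : ((⌊(m : ℝ) + R⌋₊ : ℝ) + 1) ^ (1 / 3 : ℝ) ≤ ((m : ℝ) + 1 + R) ^ (1 / 3 : ℝ) :=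
      Real.rpow_le_rpow (by positivity) (by linarith) (by norm_num)
    have e2 : (#(win n m R) : ℝ) ^ (2 / 3 : ℝ) ≤ (2 * R + 1) ^ (2 / 3 : ℝ) :=
      Real.rpow_le_rpow (by positivity) hc (by norm_num)
    exact mul_le_mul_of_nonneg_left (mul_le_mul e1 e2 (by positivity) (by positivity))
      (by positivity)
  · refine h.2.trans ?_
    gcongr ?_ * ?_
    linarith

lemma rpow_third_le {x y : ℝ} (hx : 0 ≤ x) (hy : 0 ≤ y) (h : x ≤ y ^ 3) :
    x ^ (1 / 3 : ℝ) ≤ y := by
  have e2 : (y ^ 3) ^ (1 / 3 : ℝ) = y := by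
    rw [← Real.rpow_natCast y 3, ← Real.rpow_mul hy]
    norm_num
  rw [← e2]
  gcongr

/-- the bound for the `k`-th scale -/
noncomputable def bdk (n : ℕ) (u z : ℝ) (k : ℕ) : ℝ :=
  1578 * n * u * 4 ^ k * z ^ 2 + 165 * n * 8 ^ k * z ^ 3

lemma bdk_spec {a B : Fin n → ℝ} (hS : Simple a B) (m : ℕ) {u z : ℝ} (hu : 0 < u)
    (hu3 : u ^ 3 = m + 1) (hz0 : 0 < z) (hz : 1 / 2 ≤ z ^ 3) (k : ℕ) :
    ∑ i, ∑ j, ff a B (win n m (3 + 6 * (8 ^ (k + 1) * z ^ 3))) i j ≤
      2 * ENNReal.ofReal (bdk n u z k) := by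
  refine (sum_ff_le a B _).trans ?_
  gcongr
  rw [← ENNReal.ofReal_natCast]
  apply ENNReal.ofReal_le_ofReal
  have h8 : (1 : ℝ) ≤ 8 ^ k := one_le_pow₀ (by norm_num)
  have hq : 1 / 2 ≤ 8 ^ k * z ^ 3 := by nlinarith
  have hR : 3 + 6 * (8 ^ (k + 1) * z ^ 3) ≤ 54 * (8 ^ k * z ^ 3) := by
    rw [pow_succ]
    nlinarith
  have hR0 : 0 ≤ 3 + 6 * (8 ^ (k + 1) * z ^ 3) := by positivity
  obtain ⟨h1, h2⟩ := pairs_win hS m hR0
  have hn : (0 : ℝ) ≤ n := Nat.cast_nonneg n
  unfold bdk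
  rcases le_or_gt (8 ^ k * z ^ 3) ((m : ℝ) + 1) with hc | hc
  · have e1 : ((m : ℝ) + 1 + (3 + 6 * (8 ^ (k + 1) * z ^ 3))) ^ (1 / 3 : ℝ) ≤ 3.81 * u := by
      apply rpow_third_le (by positivity) (by positivity)
      rw [mul_pow, hu3]
      nlinarith
    have e2 : (2 * (3 + 6 * (8 ^ (k + 1) * z ^ 3)) + 1) ^ (2 / 3 : ℝ) ≤ 23 * 4 ^ k * z ^ 2 := by
      apply rpow_two_thirds_le (by positivity) (by positivity)
      have e3 : ((8 : ℝ) ^ k) ^ 2 = ((4 : ℝ) ^ k) ^ 3 := by
        rw [← pow_mul, ← pow_mul, mul_comm k 2, mul_comm k 3, pow_mul, pow_mul]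
        norm_num
      have e4 : 2 * (3 + 6 * (8 ^ (k + 1) * z ^ 3)) + 1 ≤ 110 * 8 ^ k * z ^ 3 := by
        nlinarith
      have e5 : (110 * 8 ^ k * z ^ 3) ^ 2 = 12100 * ((4 : ℝ) ^ k) ^ 3 * z ^ 6 := by
        rw [← e3]; ring
      have e6 : (23 * 4 ^ k * z ^ 2) ^ 3 = 12167 * ((4 : ℝ) ^ k) ^ 3 * z ^ 6 := by ring
      calc (2 * (3 + 6 * (8 ^ (k + 1) * z ^ 3)) + 1) ^ 2 ≤ (110 * 8 ^ k * z ^ 3) ^ 2 := by
            gcongr
        _ = 12100 * ((4 : ℝ) ^ k) ^ 3 * z ^ 6 := e5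
        _ ≤ 12167 * ((4 : ℝ) ^ k) ^ 3 * z ^ 6 := by
            gcongr
            norm_num
        _ = _ := e6.symm
    refine h1.trans ?_
    calc 18 * (n : ℝ) * (((m : ℝ) + 1 + (3 + 6 * (8 ^ (k + 1) * z ^ 3))) ^ (1 / 3 : ℝ) *
          (2 * (3 + 6 * (8 ^ (k + 1) * z ^ 3)) + 1) ^ (2 / 3 : ℝ))
        ≤ 18 * n * ((3.81 * u) * (23 * 4 ^ k * z ^ 2)) := by gcongr
      _ = 1577.34 * (n * u * 4 ^ k * z ^ 2) := by ring
      _ ≤ 1578 * (n * u * 4 ^ k * z ^ 2) := by
          gcongr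
          norm_num
      _ ≤ _ := by
          have : 0 ≤ 165 * (n : ℝ) * 8 ^ k * z ^ 3 := by positivity
          linarith
  · refine h2.trans ?_
    have h3 : (m : ℝ) + 1 + (3 + 6 * (8 ^ (k + 1) * z ^ 3)) ≤ 55 * (8 ^ k * z ^ 3) := by
      linarith
    calc 3 * (n : ℝ) * (m + 1 + (3 + 6 * (8 ^ (k + 1) * z ^ 3)))
        ≤ 3 * n * (55 * (8 ^ k * z ^ 3)) := by gcongr
      _ = 165 * n * 8 ^ k * z ^ 3 := by ring
      _ ≤ _ := by
          have : 0 ≤ 1578 * (n : ℝ) * u * 4 ^ k * z ^ 2 := by positivity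
          linarith

lemma scales2 (n : ℕ) {δ u z : ℝ} (hu : 0 < u) (hz0 : 0 < z) (s : ℕ) :
    ∑ k ∈ range s, ENNReal.ofReal (2 / (8 ^ k * z ^ 3)) *
        (ENNReal.ofReal (4 * δ ^ 2) * (2 * ENNReal.ofReal (bdk n u z k))) ≤
      ENNReal.ofReal (16 * δ ^ 2 * (3156 * n * u / z + 165 * n * s)) := by
  have hterm : ∀ k ∈ range s, ENNReal.ofReal (2 / (8 ^ k * z ^ 3)) *
        (ENNReal.ofReal (4 * δ ^ 2) * (2 * ENNReal.ofReal (bdk n u z k))) =
      ENNReal.ofReal (16 * δ ^ 2 * (1578 * n * u / z * (1 / 2) ^ k + 165 * n)) := by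
    intro k _
    unfold bdk
    calc ENNReal.ofReal (2 / (8 ^ k * z ^ 3)) * (ENNReal.ofReal (4 * δ ^ 2) *
          (2 * ENNReal.ofReal (1578 * n * u * 4 ^ k * z ^ 2 + 165 * n * 8 ^ k * z ^ 3)))
        = ENNReal.ofReal (2 / (8 ^ k * z ^ 3) * (4 * δ ^ 2 *
          (2 * (1578 * n * u * 4 ^ k * z ^ 2 + 165 * n * 8 ^ k * z ^ 3)))) := by
          rw [ENNReal.ofReal_mul (p := 2 / (8 ^ k * z ^ 3)) (by positivity),
            ENNReal.ofReal_mul (p := 4 * δ ^ 2) (by positivity),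
            ENNReal.ofReal_mul (p := 2) (by norm_num)]
          norm_num
      _ = _ := by
          congr 1
          have e6 : (8 : ℝ) ^ k = 4 ^ k * 2 ^ k := by rw [← mul_pow]; norm_num
          rw [e6, one_div, inv_pow]
          field_simp
          ring
  rw [sum_congr rfl hterm, ← ENNReal.ofReal_sum_of_nonneg (fun k _ => by positivity)]
  apply ENNReal.ofReal_le_ofReal
  rw [← mul_sum, sum_add_distrib, ← mul_sum, sum_const, card_range, nsmul_eq_mul]
  have h2 := sum_geometric_two_le s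
  gcongr ?_ * ?_
  have h3 : 1578 * n * u / z * ∑ i ∈ range s, (1 / 2 : ℝ) ^ i ≤ 1578 * n * u / z * 2 := by
    gcongr
  have h4 : 1578 * n * u / z * 2 = 3156 * n * u / z := by ring
  linarith

lemma one_le_kappa {δ κ : ℝ} (hδ : 0 < δ) {c : Fin n → ℝ} {D : Fin n → ℝ → ℝ≥0∞}
    (ν : Fin n → Measure ℝ) [∀ i, IsProbabilityMeasure (ν i)]
    (hν : ∀ i, ν i = volume.withDensity (D i))
    (hDκ : ∀ i s, D i s ≤ if |s - c i| ≤ δ / 2 then ENNReal.ofReal (κ / δ) else 0)
    (hn : 0 < n) : 1 ≤ κ := by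
  have i : Fin n := ⟨0, hn⟩
  have h1 : ν i Set.univ = 1 := measure_univ
  rw [hν i, withDensity_apply _ MeasurableSet.univ, Measure.restrict_univ] at h1
  have h2 : ∫⁻ s, D i s ≤ ENNReal.ofReal (κ / δ) * ENNReal.ofReal δ := by
    calc ∫⁻ s, D i s ≤ ∫⁻ s, (Set.Icc (c i - δ / 2) (c i + δ / 2)).indicator
          (fun _ => ENNReal.ofReal (κ / δ)) s := by
          apply lintegral_mono
          intro s
          refine (hDκ i s).trans ?_
          split_ifs with h
          · rw [abs_le] at h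
            rw [Set.indicator_of_mem]
            constructor <;> linarith [h.1, h.2]
          · exact zero_le
      _ = _ := by
          rw [lintegral_indicator measurableSet_Icc, setLIntegral_const, Real.volume_Icc]
          congr 2
          ring
  rw [h1] at h2
  by_contra hcon
  push Not at hcon
  rcases le_or_gt 0 κ with hk | hk
  · rw [← ENNReal.ofReal_mul (by positivity), div_mul_cancel₀ _ hδ.ne'] at h2
    rw [ENNReal.one_le_ofReal] at h2
    linarith
  · rw [ENNReal.ofReal_of_nonpos (div_nonpos_of_nonpos_of_nonneg hk.le hδ.le), zero_mul] at h2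
    simp at h2

/-- **random intercepts**: the expected number of crossings with exactly `m` lines below, in terms
of `m` -/
theorem lines_bound_k (a c : Fin n → ℝ) (ha : ∀ i j, |a i - a j| ≤ 1) {δ κ : ℝ} (hδ : 0 < δ)
    {D : Fin n → ℝ → ℝ≥0∞} (hD : ∀ i, Measurable (D i)) (ν : Fin n → Measure ℝ)
    [∀ i, IsProbabilityMeasure (ν i)] (hν : ∀ i, ν i = volume.withDensity (D i))
    (hDκ : ∀ i s, D i s ≤ if |s - c i| ≤ δ / 2 then ENNReal.ofReal (κ / δ) else 0) (m : ℕ) :
    ∫⁻ B, ∑ i, ∑ j, ff a B {m} i j ∂Measure.pi ν ≤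
      ENNReal.ofReal (830000 * κ * ((n : ℝ) ^ (3 / 4 : ℝ) * ((m : ℝ) + 1) ^ (1 / 4 : ℝ) *
        δ ^ (-(1 / 4) : ℝ) + n * Real.log (2 + 1 / δ))) := by
  classical
  rcases Nat.eq_zero_or_pos n with h0 | hn
  · subst h0
    simp
  have hn0 : (0 : ℝ) < n := by exact_mod_cast hn
  have hm0 : (0 : ℝ) < (m : ℝ) + 1 := by positivity
  have hκ : 1 ≤ κ := one_le_kappa hδ ν hν hDκ hn
  have hκ0 : 0 ≤ κ := by linarith
  set t : ℝ := δ ^ (1 / 4 : ℝ) with ht
  have ht0 : 0 < t := Real.rpow_pos_of_pos hδ _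
  have ht4 : t ^ 4 = δ := by
    rw [ht, ← Real.rpow_natCast, ← Real.rpow_mul hδ.le]
    norm_num
  have htinv : δ ^ (-(1 / 4) : ℝ) = 1 / t := by
    rw [Real.rpow_neg hδ.le, ← ht, one_div]
  set p : ℝ := (n : ℝ) ^ (1 / 4 : ℝ) with hp
  have hp0 : 0 < p := Real.rpow_pos_of_pos hn0 _
  have hp4 : p ^ 4 = n := by
    rw [hp, ← Real.rpow_natCast, ← Real.rpow_mul hn0.le]
    norm_num
  have hp3 : (n : ℝ) ^ (3 / 4 : ℝ) = p ^ 3 := by
    rw [hp, ← Real.rpow_natCast, ← Real.rpow_mul hn0.le]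
    norm_num
  set v : ℝ := ((m : ℝ) + 1) ^ (1 / 12 : ℝ) with hv
  have hv0 : 0 < v := Real.rpow_pos_of_pos hm0 _
  have hv3 : ((m : ℝ) + 1) ^ (1 / 4 : ℝ) = v ^ 3 := by
    rw [hv, ← Real.rpow_natCast, ← Real.rpow_mul hm0.le]
    norm_num
  have hv12 : (v ^ 4) ^ 3 = (m : ℝ) + 1 := by
    rw [← pow_mul, hv, ← Real.rpow_natCast, ← Real.rpow_mul hm0.le]
    norm_num
  have hv4 : ((m : ℝ) + 1) ^ (1 / 3 : ℝ) = v ^ 4 := by
    rw [hv, ← Real.rpow_natCast, ← Real.rpow_mul hm0.le]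
    norm_num
  rw [htinv, hp3, hv3]
  set L : ℝ := Real.log (2 + 1 / δ) with hL
  have hδi : 0 < 1 / δ := by positivity
  have hL2 : 0.693 ≤ L := by
    have h1 := Real.log_two_gt_d9
    have h2 : Real.log 2 ≤ L := Real.log_le_log (by norm_num) (by linarith)
    linarith
  have hL0 : 0 ≤ L := by linarith
  rcases lt_or_ge (p * v * t) (1 / 10) with hst | hst
  · -- Dey's bound
    have hK : ∀ i s, D i s ≤ ENNReal.ofReal (κ / δ) := by
      intro i s
      refine (hDκ i s).trans ?_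
      split_ifs
      · exact le_rfl
      · exact zero_le
    calc ∫⁻ B, ∑ i, ∑ j, ff a B {m} i j ∂Measure.pi ν
        ≤ ∫⁻ _B, 2 * ENNReal.ofReal (18 * n * v ^ 4) ∂Measure.pi ν := by
          apply lintegral_mono_ae
          filter_upwards [ae_simple (icc_le ν hν (by positivity) hK) a] with B hB
          refine (sum_ff_le a B _).trans ?_
          gcongr
          rw [← ENNReal.ofReal_natCast]
          apply ENNReal.ofReal_le_ofReal
          have h1 := (dey_window2 hB {m} (K := m) (by simp)).1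
          rw [hv4, card_singleton] at h1
          simpa using h1
      _ = 2 * ENNReal.ofReal (18 * n * v ^ 4) := by simp
      _ = ENNReal.ofReal (2 * (18 * n * v ^ 4)) := by
          rw [ENNReal.ofReal_mul (p := 2) (by norm_num)]
          norm_num
      _ ≤ _ := by
          apply ENNReal.ofReal_le_ofReal
          have h1 : 2 * (18 * n * v ^ 4) ≤ 36 * (p ^ 3 * v ^ 3 * (1 / t)) := by
            rw [← hp4]
            have h2 : p ^ 4 * v ^ 4 = (p ^ 3 * v ^ 3 * (1 / t)) * (p * v * t) := by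
              field_simp
            have h3 : 0 < p ^ 3 * v ^ 3 * (1 / t) := by positivity
            nlinarith
          have h4 : 0 ≤ p ^ 3 * v ^ 3 * (1 / t) + n * L := by positivity
          calc 2 * (18 * n * v ^ 4) ≤ 36 * (p ^ 3 * v ^ 3 * (1 / t)) := h1
            _ ≤ 36 * (p ^ 3 * v ^ 3 * (1 / t) + n * L) := by
                have : 0 ≤ n * L := by positivity
                linarith
            _ ≤ 830000 * κ * (p ^ 3 * v ^ 3 * (1 / t) + n * L) := by
                gcongr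
                linarith
  · set z : ℝ := max (10 * (p * v * t)) ((n * δ) ^ (1 / 3 : ℝ)) with hz
    have hz1 : 10 * (p * v * t) ≤ z := le_max_left _ _
    have hz10 : 0 < 10 * (p * v * t) := by positivity
    have hz0 : 0 < z := lt_of_lt_of_le hz10 hz1
    have hnδ : ((n * δ) ^ (1 / 3 : ℝ)) ^ 3 = n * δ := by
      rw [← Real.rpow_natCast, ← Real.rpow_mul (by positivity)]
      norm_num
    have hz2 : n * δ ≤ z ^ 3 := by
      rw [← hnδ]
      exact pow_le_pow_left₀ (by positivity) (le_max_right _ _) 3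
    have hz3 : z ^ 3 ≤ (10 * (p * v * t)) ^ 3 + n * δ := by
      rw [hz]
      rcases max_choice (10 * (p * v * t)) ((n * δ) ^ (1 / 3 : ℝ)) with h | h
      · rw [h]
        have : 0 ≤ n * δ := by positivity
        linarith
      · rw [h, hnδ]
        have : 0 ≤ (10 * (p * v * t)) ^ 3 := by positivity
        linarith
    have hzh : (1 : ℝ) / 2 ≤ z ^ 3 := by
      have : (1 : ℝ) ≤ z ^ 3 := one_le_pow₀ (by linarith)
      linarith
    set s : ℕ := ⌊L⌋₊ + 1 with hs
    have hsL : (s : ℝ) ≤ L + 1 := by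
      rw [hs]
      push_cast
      linarith [Nat.floor_le hL0]
    have h8s : 1 / δ ≤ 8 ^ s := by
      have h1 : L ≤ s := by
        rw [hs]
        push_cast
        exact (Nat.lt_floor_add_one L).le
      have h2 : Real.exp s ≤ 8 ^ s := by
        have h3 : Real.exp (s : ℝ) = Real.exp 1 ^ s := by
          rw [← Real.exp_nat_mul, mul_one]
        rw [h3]
        have h4 := Real.exp_one_lt_d9
        exact pow_le_pow_left₀ (Real.exp_pos 1).le (by linarith) s
      calc 1 / δ ≤ 2 + 1 / δ := by linarith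
        _ = Real.exp L := (Real.exp_log (by positivity)).symm
        _ ≤ Real.exp s := Real.exp_le_exp.mpr h1
        _ ≤ _ := h2
    have hn8 : (n : ℝ) ≤ 8 ^ s * z ^ 3 := by
      calc (n : ℝ) = 1 / δ * (n * δ) := by field_simp
        _ ≤ 8 ^ s * z ^ 3 := by gcongr
    have h1 := main2 a c ha hδ hκ0 hD ν hν hDκ m hzh hn8
      (fun k => ENNReal.ofReal (bdk n (v ^ 4) z k))
      (fun k B hB => bdk_spec hB m (by positivity) hv12 hz0 hzh k)
    refine h1.trans ?_
    have h2 := scales2 n (δ := δ) (u := v ^ 4) (by positivity) hz0 s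
    set Y : ℝ := 16 * δ ^ 2 * (3156 * n * v ^ 4 / z + 165 * n * s) with hY
    have hY0 : 0 ≤ Y := by positivity
    calc _ ≤ 2 * ENNReal.ofReal (2 * κ / δ) * (ENNReal.ofReal (2 * z ^ 3) * 8 +
          ENNReal.ofReal (8 / δ) * (4 * ENNReal.ofReal Y)) := by
          exact mul_le_mul' le_rfl (add_le_add le_rfl (mul_le_mul' le_rfl
            (mul_le_mul' le_rfl h2)))
      _ = ENNReal.ofReal (2 * (2 * κ / δ) * (2 * z ^ 3 * 8 + 8 / δ * (4 * Y))) := by
          rw [ENNReal.ofReal_mul (p := 2 * (2 * κ / δ)) (by positivity),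
            ENNReal.ofReal_mul (p := 2) (q := 2 * κ / δ) (by norm_num),
            ENNReal.ofReal_add (by positivity) (by positivity),
            ENNReal.ofReal_mul (p := 2 * z ^ 3) (by positivity),
            ENNReal.ofReal_mul (p := 8 / δ) (by positivity),
            ENNReal.ofReal_mul (p := 4) (q := Y) (by norm_num)]
          norm_num
      _ ≤ _ := by
          apply ENNReal.ofReal_le_ofReal
          have e1 : 2 * (2 * κ / δ) * (2 * z ^ 3 * 8 + 8 / δ * (4 * Y)) =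
              64 * κ * (z ^ 3 / δ) + 2048 * κ * (3156 * n * v ^ 4 / z + 165 * n * s) := by
            rw [hY]
            field_simp
            ring
          have e2 : z ^ 3 / δ ≤ 1000 * (p ^ 3 * v ^ 3 * (1 / t)) + n := by
            rw [div_le_iff₀ hδ]
            calc z ^ 3 ≤ (10 * (p * v * t)) ^ 3 + n * δ := hz3
              _ = _ := by
                rw [← ht4]
                field_simp
                ring
          have e3 : 3156 * n * v ^ 4 / z ≤ 315.6 * (p ^ 3 * v ^ 3 * (1 / t)) := by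
            calc 3156 * n * v ^ 4 / z ≤ 3156 * n * v ^ 4 / (10 * (p * v * t)) := by gcongr
              _ = _ := by
                rw [← hp4]
                field_simp
                ring
          rw [e1]
          set Q : ℝ := p ^ 3 * v ^ 3 * (1 / t) with hQ
          have hQ0 : 0 ≤ Q := by positivity
          calc 64 * κ * (z ^ 3 / δ) + 2048 * κ * (3156 * n * v ^ 4 / z + 165 * n * s)
              ≤ 64 * κ * (1000 * Q + n) + 2048 * κ * (315.6 * Q + 165 * n * (L + 1)) := by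
                gcongr
            _ = κ * (710348.8 * Q + n * (64 + 337920 * (L + 1))) := by ring
            _ ≤ κ * (830000 * Q + n * (830000 * L)) := by
                gcongr
                · norm_num
                · linarith
            _ = _ := by ring

end Pool.Agent.U999.SH
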