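import Pool.Agent.U999.SH.KNum

/-!
# Smoothed analysis of a single level: scaling, and the vertices of a level above an interval
-/

set_option autoImplicit false

namespace Pool.Agent.U999.SH

open Finset MeasureTheory Pool.Agent.H189R2.Lev Filter
open scoped ENNReal Topology
open Pool.Agent.Results.MP_a08d0a_co.SmoothedLevel (Simple ae_simple crossings level count3
  level_eq exists_level)

/-- `μ` has a density that vanishes outside an interval of length `δ` and is nowhere larger than
`κ / δ`. -/
def NoiseLaw (δ κ : ℝ) (μ : Measure ℝ) : Prop :=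
  ∃ (D : ℝ → ℝ≥0∞) (b : ℝ), Measurable D ∧ μ = volume.withDensity D ∧
    ∀ s, D s ≤ (Set.Icc b (b + δ)).indicator (fun _ => ENNReal.ofReal (κ / δ)) s

lemma map_affine {D : ℝ → ℝ≥0∞} (hD : Measurable D) (t : ℝ) {c : ℝ} (hc : 0 < c) :
    (volume.withDensity D).map (fun b => (t + b) / c) =
      volume.withDensity (fun s => ENNReal.ofReal c * D (-t + c * s)) := by
  ext E hE
  have mφ : Measurable fun b : ℝ => (t + b) / c := by fun_prop
  rw [Measure.map_apply mφ hE, withDensity_apply _ (mφ hE), withDensity_apply _ hE,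
    ← lintegral_indicator (mφ hE), ← lintegral_indicator hE,
    lintegral_affine (hD.indicator (mφ hE)) (-t) hc.ne', abs_of_pos hc,
    ← lintegral_const_mul]
  · apply lintegral_congr
    intro x
    have h1 : (t + (-t + c * x)) / c = x := by field_simp; ring
    by_cases hx : x ∈ E
    · rw [Set.indicator_of_mem hx, Set.indicator_of_mem]
      rw [Set.mem_preimage, h1]
      exact hx
    · rw [Set.indicator_of_notMem hx, Set.indicator_of_notMem, mul_zero]
      rw [Set.mem_preimage, h1]
      exact hx
  · exact (hD.indicator (mφ hE)).comp (by fun_prop)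

variable {n : ℕ}

/-- crossings of level `k` above `[x₀ - X, x₀ + X]` -/
def crossOn (a B : Fin n → ℝ) (k : ℕ) (x₀ X : ℝ) : Set (Fin n × Fin n) :=
  {q | q ∈ crossings a B k ∧ |cr a B q.1 q.2 - x₀| ≤ X}

/-- the number of abscissae in `[x₀ - X, x₀ + X]` near which the `k`-level does not follow a single
line, i.e. the number of vertices of the `k`-level there -/
noncomputable def psiOn (a B : Fin n → ℝ) (k : ℕ) (x₀ X : ℝ) : ℕ∞ :=
  {x : ℝ | |x - x₀| ≤ X ∧ ¬ ∃ l, level a B k =ᶠ[𝓝 x] ht a B l}.encard

theorem psiOn_le {a B : Fin n → ℝ} (hS : Simple a B) {k : ℕ} (hk : k < n) (x₀ X : ℝ) :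
    psiOn a B k x₀ X ≤ ((crossOn a B k x₀ X).ncard +
      (if k = 0 then 0 else (crossOn a B (k - 1) x₀ X).ncard) : ℕ) := by
  classical
  set C' : Set (Fin n × Fin n) := if k = 0 then ∅ else crossOn a B (k - 1) x₀ X with hC'
  have hC'n : C'.ncard = if k = 0 then 0 else (crossOn a B (k - 1) x₀ X).ncard := by
    rw [hC']
    split_ifs <;> simp
  have hsub : {x : ℝ | |x - x₀| ≤ X ∧ ¬ ∃ l, level a B k =ᶠ[𝓝 x] ht a B l} ⊆
      (fun q : Fin n × Fin n => cr a B q.1 q.2) '' (crossOn a B k x₀ X ∪ C') := by
    rintro x ⟨hxX, hx⟩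
    obtain ⟨i, hi1, hi2⟩ := exists_level a B hk x
    have hcont : ∀ l, Continuous (ht a B l) := by
      intro l; unfold ht; fun_prop
    -- another line passes through the point
    have hex : ∃ j, j ≠ i ∧ ht a B j x = ht a B i x := by
      by_contra hcon
      push Not at hcon
      apply hx
      refine ⟨i, ?_⟩
      have hev : ∀ᶠ x' in 𝓝 x, ∀ l ∈ (univ : Finset (Fin n)),
          (ht a B l x < ht a B i x → ht a B l x' < ht a B i x') ∧
          (ht a B i x < ht a B l x → ht a B i x' < ht a B l x') := by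
        rw [Filter.eventually_all_finset]
        intro l _
        rw [Filter.eventually_and]
        constructor
        · by_cases h : ht a B l x < ht a B i x
          · filter_upwards [((hcont l).tendsto x).eventually_lt ((hcont i).tendsto x) h]
              with x' hx' _
            exact hx'
          · exact Eventually.of_forall (fun _ h' => absurd h' h)
        · by_cases h : ht a B i x < ht a B l x
          · filter_upwards [((hcont i).tendsto x).eventually_lt ((hcont l).tendsto x) h]
              with x' hx' _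
            exact hx'
          · exact Eventually.of_forall (fun _ h' => absurd h' h)
      filter_upwards [hev] with x' hx'
      apply level_eq
      · refine le_trans (Set.ncard_le_ncard ?_ (Set.toFinite _)) hi1
        intro l hl
        rw [Set.mem_ofPred_eq] at hl ⊢
        by_contra h
        push Not at h
        rcases h.lt_or_eq with h | h
        · have := (hx' l (mem_univ l)).2 h
          linarith
        · by_cases hli : l = i
          · subst hli; exact lt_irrefl _ hl
          · exact hcon l hli h.symm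
      · refine lt_of_lt_of_le hi2 (Set.ncard_le_ncard ?_ (Set.toFinite _))
        intro l hl
        rw [Set.mem_ofPred_eq] at hl ⊢
        rcases hl.lt_or_eq with h | h
        · exact ((hx' l (mem_univ l)).1 h).le
        · by_cases hli : l = i
          · subst hli; exact le_rfl
          · exact absurd h (hcon l hli)
    obtain ⟨j, hji, hj⟩ := hex
    have haij : a i ≠ a j := by
      intro h
      apply hS.1 i j (Ne.symm hji) h
      unfold ht at hj
      rw [h] at hj
      linarith
    have hcrx : x = cr a B i j := by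
      unfold cr
      rw [eq_div_iff (sub_ne_zero.mpr haij)]
      unfold ht at hj
      linarith
    have hc3 := count3 hS (Ne.symm hji) hj.symm
    have hle : {l | ht a B l x ≤ ht a B i x}.ncard = {l | ht a B l x < ht a B i x}.ncard + 2 := by
      have e : {l | ht a B l x ≤ ht a B i x} = {l | ht a B i x < ht a B l x}ᶜ := by
        ext l
        simp
      have e' := Set.ncard_compl ({l | ht a B i x < ht a B l x}) (Set.toFinite _)
      rw [← e] at e'
      simp only [Nat.card_eq_fintype_card, Fintype.card_fin] at e'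
      omega
    have hkk : {l | ht a B l x < ht a B i x}.ncard = k ∨
        (k ≠ 0 ∧ {l | ht a B l x < ht a B i x}.ncard = k - 1) := by omega
    have hmem : ∀ q : Fin n × Fin n, q.1 < q.2 → a q.1 ≠ a q.2 → x = cr a B q.1 q.2 →
        ht a B q.1 x = ht a B i x → q ∈ crossOn a B k x₀ X ∪ C' := by
      intro q h1 h2 h3 h4
      rcases hkk with h | ⟨h0, h⟩
      · left
        refine ⟨⟨h1, h2, ?_⟩, ?_⟩
        · rw [← h3, h4]
          exact h
        · rw [← h3]; exact hxX
      · right
        rw [hC', if_neg h0]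
        refine ⟨⟨h1, h2, ?_⟩, ?_⟩
        · rw [← h3, h4]
          exact h
        · rw [← h3]; exact hxX
    rcases lt_or_gt_of_ne hji with h | h
    · refine ⟨(j, i), hmem (j, i) h haij.symm ?_ hj, ?_⟩
      · rw [hcrx]; exact cr_symm _ _ _ _
      · rw [hcrx]; exact cr_symm _ _ _ _
    · exact ⟨(i, j), hmem (i, j) h haij hcrx rfl, hcrx.symm⟩
  calc psiOn a B k x₀ X ≤
      ((fun q : Fin n × Fin n => cr a B q.1 q.2) '' (crossOn a B k x₀ X ∪ C')).encard :=
        Set.encard_le_encard hsub
    _ ≤ (crossOn a B k x₀ X ∪ C').encard := Set.encard_image_le _ _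
    _ ≤ (crossOn a B k x₀ X).encard + C'.encard := Set.encard_union_le _ _
    _ = _ := by
        rw [← (Set.toFinite (crossOn a B k x₀ X)).cast_ncard_eq,
          ← (Set.toFinite C').cast_ncard_eq, hC'n]
        push_cast
        rfl

/-- a crossing gives two ordered pairs of the scaled arrangement -/
lemma crossOn_le (a B : Fin n → ℝ) (k : ℕ) {A X : ℝ} (hA : 0 < A) (hX : 0 < X) (x₀ : ℝ) :
    (2 : ℝ≥0∞) * ((crossOn a B k x₀ X).ncard : ℝ≥0∞) ≤
      ∑ i, ∑ j, ff (fun l => a l / A) (fun l => (a l * x₀ + B l) / (A * X)) {k} i j := by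
  classical
  set a' : Fin n → ℝ := fun l => a l / A with ha'
  set B' : Fin n → ℝ := fun l => (a l * x₀ + B l) / (A * X) with hB'
  have hcr : ∀ i j, a i ≠ a j → cr a' B' i j = (cr a B i j - x₀) / X := by
    intro i j hij
    have h1 : a i - a j ≠ 0 := sub_ne_zero.mpr hij
    have h2 : a i / A - a j / A ≠ 0 := by
      rw [← sub_div]
      exact div_ne_zero h1 hA.ne'
    simp only [cr, ha', hB']
    rw [div_eq_div_iff h2 hX.ne']
    field_simp
    ring
  have hht : ∀ l x, ht a' B' l ((x - x₀) / X) = ht a B l x / (A * X) := by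
    intro l x
    simp only [ht, ha', hB']
    field_simp
    ring
  have hAX : 0 < A * X := by positivity
  have hval : ∀ q ∈ crossOn a B k x₀ X, 1 ≤ ff a' B' {k} q.1 q.2 ∧ q.1 < q.2 := by
    rintro q ⟨⟨h1, h2, h3⟩, h4⟩
    refine ⟨?_, h1⟩
    have h2' : a' q.1 ≠ a' q.2 := by
      simp only [ha']
      intro h
      apply h2
      field_simp at h
      exact h
    unfold ff
    rw [if_pos h2', hcr _ _ h2]
    have h5 : |(cr a B q.1 q.2 - x₀) / X| ≤ 1 := by
      rw [abs_div, abs_of_pos hX, div_le_one hX]
      exact h4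
    rw [if_pos h5]
    unfold ind
    have h6 : nb a' B' {q.1, q.2} ((cr a B q.1 q.2 - x₀) / X)
        (ht a' B' q.1 ((cr a B q.1 q.2 - x₀) / X)) = k := by
      rw [← h3]
      unfold nb
      rw [← Set.ncard_coe_finset]
      congr 1
      ext l
      simp only [coe_filter, mem_univ, true_and, Set.mem_ofPred_eq, mem_insert, mem_singleton,
        not_or]
      have e1 : a' l * ((cr a B q.1 q.2 - x₀) / X) + B' l = ht a B l (cr a B q.1 q.2) / (A * X) :=
        hht l _
      rw [e1, hht, div_lt_div_iff_of_pos_right hAX]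
      constructor
      · exact fun h => h.2
      · intro h
        refine ⟨⟨?_, ?_⟩, h⟩
        · rintro rfl; exact lt_irrefl _ h
        · rintro rfl
          rw [ht_cr h2] at h
          exact lt_irrefl _ h
    rw [if_pos (by rw [mem_singleton]; exact h6)]
  set C : Finset (Fin n × Fin n) := (Set.toFinite (crossOn a B k x₀ X)).toFinset with hC
  have hCm : ∀ q, q ∈ C ↔ q ∈ crossOn a B k x₀ X := fun q => Set.Finite.mem_toFinset _
  have hCc : (crossOn a B k x₀ X).ncard = #C := Set.ncard_eq_toFinset_card _ _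
  have hdis : Disjoint C (C.image Prod.swap) := by
    rw [disjoint_left]
    intro q hq hq'
    rw [mem_image] at hq'
    obtain ⟨q', hq', rfl⟩ := hq'
    have h1 := (hval _ ((hCm _).mp hq)).2
    have h2 := (hval _ ((hCm _).mp hq')).2
    simp only [Prod.fst_swap, Prod.snd_swap] at h1
    exact lt_asymm h1 h2
  have hcard : #(C ∪ C.image Prod.swap) = 2 * #C := by
    rw [card_union_of_disjoint hdis, card_image_of_injective _ Prod.swap_injective]
    ring
  calc (2 : ℝ≥0∞) * ((crossOn a B k x₀ X).ncard : ℝ≥0∞) =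
        ((#(C ∪ C.image Prod.swap) : ℕ) : ℝ≥0∞) := by
        rw [hcard, hCc]
        push_cast
        rfl
    _ = ∑ q ∈ C ∪ C.image Prod.swap, (1 : ℝ≥0∞) := by simp
    _ ≤ ∑ q ∈ C ∪ C.image Prod.swap, ff a' B' {k} q.1 q.2 := by
        apply sum_le_sum
        intro q hq
        rw [mem_union, mem_image] at hq
        rcases hq with hq | ⟨q', hq', rfl⟩
        · exact (hval _ ((hCm _).mp hq)).1
        · rw [Prod.fst_swap, Prod.snd_swap, ff_symm]
          exact (hval _ ((hCm _).mp hq')).1
    _ ≤ ∑ q : Fin n × Fin n, ff a' B' {k} q.1 q.2 := sum_le_sum_of_subset (subset_univ _)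
    _ = _ := by rw [Fintype.sum_prod_type]

section

variable {δ κ : ℝ} {ν : Fin n → Measure ℝ} [∀ i, IsProbabilityMeasure (ν i)]

lemma noise_icc (hδ : 0 < δ) (hν : ∀ i, NoiseLaw δ κ (ν i)) :
    ∃ K : ℝ, ∀ i, ∀ s t : ℝ, s ≤ t → ν i (Set.Icc s t) ≤ ENNReal.ofReal (K * (t - s)) := by
  choose D b h1 h2 h3 using hν
  refine ⟨|κ| / δ, icc_le ν h2 (by positivity) ?_⟩
  intro i s
  refine (h3 i s).trans ?_
  by_cases hs : s ∈ Set.Icc (b i) (b i + δ)
  · rw [Set.indicator_of_mem hs]
    apply ENNReal.ofReal_le_ofReal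
    gcongr
    exact le_abs_self κ
  · rw [Set.indicator_of_notMem hs]
    exact zero_le

/-- the scaled arrangement -/
theorem transfer (a : Fin n → ℝ) {A X : ℝ} (hA : 0 < A) (hX : 0 < X) (x₀ : ℝ) (hδ : 0 < δ)
    (hν : ∀ i, NoiseLaw δ κ (ν i)) (k : ℕ) (E : ℝ≥0∞)
    (hE : ∀ (c : Fin n → ℝ) (D : Fin n → ℝ → ℝ≥0∞), (∀ i, Measurable (D i)) →
      ∀ (ν' : Fin n → Measure ℝ), (∀ i, IsProbabilityMeasure (ν' i)) →
      (∀ i, ν' i = volume.withDensity (D i)) →
      (∀ i s, D i s ≤ if |s - c i| ≤ (δ / (A * X)) / 2 then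
        ENNReal.ofReal (κ / (δ / (A * X))) else 0) →
      ∫⁻ B, ∑ i, ∑ j, ff (fun l => a l / A) B {k} i j ∂Measure.pi ν' ≤ E) :
    ∫⁻ B, ((crossOn a B k x₀ X).ncard : ℝ≥0∞) ∂Measure.pi ν ≤ 2⁻¹ * E := by
  classical
  choose D b h1 h2 h3 using hν
  have hAX : 0 < A * X := by positivity
  set φ : Fin n → ℝ → ℝ := fun l b => (a l * x₀ + b) / (A * X) with hφ
  have mφ : ∀ l, Measurable (φ l) := by
    intro l
    rw [hφ]
    fun_prop
  set ν' : Fin n → Measure ℝ := fun l => (ν l).map (φ l) with hν'
  have hprob : ∀ l, IsProbabilityMeasure (ν' l) := fun l =>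
    Measure.isProbabilityMeasure_map (mφ l).aemeasurable
  set D' : Fin n → ℝ → ℝ≥0∞ := fun l s =>
    ENNReal.ofReal (A * X) * D l (-(a l * x₀) + (A * X) * s) with hD'
  have hpi : (Measure.pi ν).map (fun B l => φ l (B l)) = Measure.pi ν' :=
    Measure.pi_map_pi (fun l => (mφ l).aemeasurable)
  have hd : ∀ l, ν' l = volume.withDensity (D' l) := by
    intro l
    simp only [hν']
    rw [h2 l]
    exact map_affine (h1 l) (a l * x₀) hAX
  have h4 := hE (fun l => (a l * x₀ + (b l + δ / 2)) / (A * X)) D' (fun l =>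
    ((h1 l).comp (by fun_prop)).const_mul _) ν' hprob hd (by
      intro l s
      simp only [hD']
      by_cases hs : -(a l * x₀) + (A * X) * s ∈ Set.Icc (b l) (b l + δ)
      · rw [if_pos]
        · calc ENNReal.ofReal (A * X) * D l (-(a l * x₀) + (A * X) * s)
              ≤ ENNReal.ofReal (A * X) * ENNReal.ofReal (κ / δ) := by
                gcongr
                have := h3 l (-(a l * x₀) + (A * X) * s)
                rwa [Set.indicator_of_mem hs] at this
            _ = _ := by
                rw [← ENNReal.ofReal_mul hAX.le]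
                congr 1
                field_simp
        · have e1 : s - (a l * x₀ + (b l + δ / 2)) / (A * X) =
              (-(a l * x₀) + (A * X) * s - (b l + δ / 2)) / (A * X) := by
            field_simp
            ring
          have e2 : δ / (A * X) / 2 * (A * X) = δ / 2 := by field_simp
          rw [e1, abs_div, abs_of_pos hAX, div_le_iff₀ hAX, e2, abs_le]
          constructor <;> linarith [hs.1, hs.2]
      · have := h3 l (-(a l * x₀) + (A * X) * s)
        rw [Set.indicator_of_notMem hs] at this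
        rw [le_antisymm this zero_le, mul_zero]
        exact zero_le)
  have mff : Measurable fun B : Fin n → ℝ => ∑ i, ∑ j, ff (fun l => a l / A) B {k} i j :=
    Finset.measurable_sum _ fun i _ => Finset.measurable_sum _ fun j _ => measurable_ff _ _ i j
  have mΦ : Measurable fun (B : Fin n → ℝ) l => φ l (B l) :=
    measurable_pi_iff.mpr fun l => (mφ l).comp (measurable_pi_apply l)
  rw [← hpi, lintegral_map mff mΦ] at h4
  calc ∫⁻ B, ((crossOn a B k x₀ X).ncard : ℝ≥0∞) ∂Measure.pi ν
      ≤ ∫⁻ B, 2⁻¹ * ∑ i, ∑ j, ff (fun l => a l / A) (fun l => φ l (B l)) {k} i j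
          ∂Measure.pi ν := by
        apply lintegral_mono
        intro B
        beta_reduce
        calc ((crossOn a B k x₀ X).ncard : ℝ≥0∞)
            = 2⁻¹ * (2 * ((crossOn a B k x₀ X).ncard : ℝ≥0∞)) := by
              rw [← mul_assoc, ENNReal.inv_mul_cancel (by norm_num) (by norm_num), one_mul]
          _ ≤ _ := by
              gcongr
              exact crossOn_le a B k hA hX x₀
    _ = 2⁻¹ * ∫⁻ B, ∑ i, ∑ j, ff (fun l => a l / A) (fun l => φ l (B l)) {k} i j
          ∂Measure.pi ν := by
        rw [lintegral_const_mul]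
        exact mff.comp mΦ
    _ ≤ 2⁻¹ * E := by gcongr

end

end Pool.Agent.U999.SH
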