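import Mathlib

/-!
# Smoothed analysis of halving lines: the two-sided exponential law
-/

set_option autoImplicit false

namespace Pool.Agent.U999.SH

open MeasureTheory Set
open scoped ENNReal

/-- density of the two-sided exponential law with centre `c` and scale `δ` -/
noncomputable def lap (c δ s : ℝ) : ℝ≥0∞ := ENNReal.ofReal (Real.exp (-|s - c| / δ) / (2 * δ))

lemma measurable_lap (c δ : ℝ) : Measurable (lap c δ) := by
  unfold lap
  fun_prop

lemma integral_exp_abs : ∫ x : ℝ, Real.exp (-|x|) = 2 := by
  have h := integral_comp_abs (f := fun x : ℝ => Real.exp (-x))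
  rw [h, integral_exp_neg_Ioi_zero]
  norm_num

lemma integrable_exp_abs : Integrable fun x : ℝ => Real.exp (-|x|) := by
  by_contra h
  have := integral_undef h
  rw [integral_exp_abs] at this
  norm_num at this

lemma lintegral_lap (c : ℝ) {δ : ℝ} (hδ : 0 < δ) : ∫⁻ s, lap c δ s = 1 := by
  unfold lap
  have h1 : ∫ s : ℝ, Real.exp (-|s - c| / δ) / (2 * δ) = 1 := by
    rw [integral_div]
    have h2 : ∫ s : ℝ, Real.exp (-|s - c| / δ) = ∫ s : ℝ, Real.exp (-|s| / δ) :=
      integral_sub_right_eq_self (fun s => Real.exp (-|s| / δ)) c
    have h3 : ∫ s : ℝ, Real.exp (-|s| / δ) = δ * 2 := by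
      have h4 := Measure.integral_comp_div (fun s : ℝ => Real.exp (-|s|)) δ
      rw [integral_exp_abs, abs_of_pos hδ, smul_eq_mul] at h4
      rw [← h4]
      congr 1
      ext s
      rw [abs_div, abs_of_pos hδ, neg_div]
    rw [h2, h3]
    field_simp
  have h5 : Integrable fun s : ℝ => Real.exp (-|s - c| / δ) / (2 * δ) := by
    by_contra h
    have := integral_undef h
    rw [h1] at this
    exact one_ne_zero this
  rw [← ofReal_integral_eq_lintegral_ofReal h5
    (Filter.Eventually.of_forall fun s => by positivity), h1]
  simp

instance lap_prob (c δ : ℝ) [hδ : Fact (0 < δ)] :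
    IsProbabilityMeasure (volume.withDensity (lap c δ)) := by
  constructor
  rw [withDensity_apply _ MeasurableSet.univ, Measure.restrict_univ]
  exact lintegral_lap c hδ.out

lemma lap_left (c : ℝ) {δ : ℝ} (hδ : 0 < δ) {t : ℝ} (ht : 0 ≤ t) :
    volume.withDensity (lap c δ) (Iio (c - t)) ≤ ENNReal.ofReal (Real.exp (-t / δ)) := by
  rw [withDensity_apply _ measurableSet_Iio, ← lintegral_indicator measurableSet_Iio]
  calc ∫⁻ s, (Iio (c - t)).indicator (lap c δ) s
      ≤ ∫⁻ s, ENNReal.ofReal (Real.exp (-t / δ)) * lap c δ (s + t) := by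
        apply lintegral_mono
        intro s
        by_cases hs : s ∈ Iio (c - t)
        · rw [indicator_of_mem hs]
          unfold lap; beta_reduce
          rw [← ENNReal.ofReal_mul (Real.exp_pos _).le]
          apply ENNReal.ofReal_le_ofReal
          have h1 : s < c - t := hs
          rw [abs_of_neg (by linarith : s - c < 0), abs_of_neg (by linarith : s + t - c < 0),
            ← mul_div_assoc, ← Real.exp_add]
          apply le_of_eq
          congr 2
          field_simp
          ring
        · rw [indicator_of_notMem hs]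
          exact zero_le
    _ = ENNReal.ofReal (Real.exp (-t / δ)) * ∫⁻ s, lap c δ (s + t) := by
        rw [lintegral_const_mul]
        exact (measurable_lap c δ).comp (by fun_prop)
    _ = _ := by
        rw [lintegral_add_right_eq_self (lap c δ) t, lintegral_lap c hδ, mul_one]

lemma lap_right (c : ℝ) {δ : ℝ} (hδ : 0 < δ) {t : ℝ} (ht : 0 ≤ t) :
    volume.withDensity (lap c δ) (Ici (c + t)) ≤ ENNReal.ofReal (Real.exp (-t / δ)) := by
  rw [withDensity_apply _ measurableSet_Ici, ← lintegral_indicator measurableSet_Ici]
  calc ∫⁻ s, (Ici (c + t)).indicator (lap c δ) s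
      ≤ ∫⁻ s, ENNReal.ofReal (Real.exp (-t / δ)) * lap c δ (s - t) := by
        apply lintegral_mono
        intro s
        by_cases hs : s ∈ Ici (c + t)
        · rw [indicator_of_mem hs]
          unfold lap; beta_reduce
          rw [← ENNReal.ofReal_mul (Real.exp_pos _).le]
          apply ENNReal.ofReal_le_ofReal
          have h1 : c + t ≤ s := hs
          rw [abs_of_nonneg (by linarith : 0 ≤ s - c), abs_of_nonneg (by linarith : 0 ≤ s - t - c),
            ← mul_div_assoc, ← Real.exp_add]
          apply le_of_eq
          congr 2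
          field_simp
          ring
        · rw [indicator_of_notMem hs]
          exact zero_le
    _ = ENNReal.ofReal (Real.exp (-t / δ)) * ∫⁻ s, lap c δ (s - t) := by
        rw [lintegral_const_mul]
        exact (measurable_lap c δ).comp (by fun_prop)
    _ = _ := by
        rw [lintegral_sub_right_eq_self (lap c δ) t, lintegral_lap c hδ, mul_one]

end Pool.Agent.U999.SH
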