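import Pool.Agent.U999.SH.Pts

/-!
# Smoothed analysis of halving lines: random points
-/

set_option autoImplicit false

namespace Pool.Agent.U999.SH

open Finset MeasureTheory Pool.Agent.H189R2.Lev Filter
open scoped ENNReal
open Pool.Agent.Results.MP_a08d0a_co.SmoothedLevel (Simple null_coord)
open Pool.Agent.R117.KR (Line IsBisector IsKLine)
open KLev.Halving (GeneralPosition)

/-- `μ` has a density that vanishes outside an interval of length `δ` contained in `[0, 1]` and is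
nowhere larger than `κ / δ`. -/
def NoisyLaw (δ κ : ℝ) (μ : Measure ℝ) : Prop :=
  ∃ (D : ℝ → ℝ≥0∞) (b : ℝ), Measurable D ∧ μ = volume.withDensity D ∧ 0 ≤ b ∧ b + δ ≤ 1 ∧
    ∀ s, D s ≤ (Set.Icc b (b + δ)).indicator (fun _ => ENNReal.ofReal (κ / δ)) s

variable {n : ℕ}

lemma measurable_nb2 {Ω : Type*} [MeasurableSpace Ω] (s : Finset (Fin n))
    {a B : Ω → Fin n → ℝ} {x y : Ω → ℝ} (ha : ∀ l, Measurable fun ω => a ω l)
    (hB : ∀ l, Measurable fun ω => B ω l) (hx : Measurable x)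
    (hy : Measurable y) : Measurable (fun ω => nb (a ω) (B ω) s (x ω) (y ω)) := by
  classical
  unfold nb
  simp_rw [card_filter]
  refine Finset.measurable_sum _ (fun l _ => Measurable.ite ?_ measurable_const measurable_const)
  exact (MeasurableSet.const _).inter (measurableSet_lt (((ha l).mul hx).add (hB l)) hy)

lemma measurable_ff2 {Ω : Type*} [MeasurableSpace Ω] {a B : Ω → Fin n → ℝ}
    (ha : ∀ l, Measurable fun ω => a ω l) (hB : ∀ l, Measurable fun ω => B ω l) (C : Finset ℕ)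
    (i j : Fin n) : Measurable fun ω => ff (a ω) (B ω) C i j := by
  classical
  unfold ff
  have mcr : Measurable fun ω => cr (a ω) (B ω) i j := by
    unfold cr
    exact ((hB j).sub (hB i)).div ((ha i).sub (ha j))
  have m1 : MeasurableSet {ω | a ω i ≠ a ω j} := (measurableSet_eq_fun (ha i) (ha j)).compl
  refine Measurable.ite m1 ?_ measurable_const
  refine Measurable.ite (measurableSet_le mcr.abs measurable_const) ?_ measurable_const
  refine (measurable_of_countable (ind C)).comp (measurable_nb2 _ ha hB mcr ?_)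
  unfold ht
  exact ((ha i).mul mcr).add (hB i)

section

variable {δ κ : ℝ} {μ : Fin n → Measure ℝ} [∀ i, IsProbabilityMeasure (μ i)]

lemma noisy_unpack (hμ : ∀ i, NoisyLaw δ κ (μ i)) : ∃ (D : Fin n → ℝ → ℝ≥0∞) (c : Fin n → ℝ),
    (∀ i, Measurable (D i)) ∧ (∀ i, μ i = volume.withDensity (D i)) ∧
    (∀ i s, D i s ≤ if |s - c i| ≤ δ / 2 then ENNReal.ofReal (κ / δ) else 0) ∧
    ∀ i, δ / 2 ≤ c i ∧ c i ≤ 1 - δ / 2 := by
  choose D b h1 h2 h3 h4 h5 using hμ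
  refine ⟨D, fun i => b i + δ / 2, h1, h2, ?_, ?_⟩
  · intro i s
    refine (h5 i s).trans ?_
    by_cases hs : s ∈ Set.Icc (b i) (b i + δ)
    · rw [Set.indicator_of_mem hs, if_pos]
      rw [abs_le]
      constructor <;> linarith [hs.1, hs.2]
    · rw [Set.indicator_of_notMem hs]
      exact zero_le
  · intro i
    constructor
    · linarith [h3 i]
    · linarith [h4 i]

lemma ae_unit (hμ : ∀ i, NoisyLaw δ κ (μ i)) :
    ∀ᵐ U ∂Measure.pi μ, ∀ i j, |U i - U j| ≤ 1 := by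
  obtain ⟨D, c, hD, hμD, hDκ, hc⟩ := noisy_unpack hμ
  filter_upwards [ae_near c μ hμD hDκ] with U hU i j
  obtain ⟨h1, h2⟩ := abs_le.mp (hU i)
  obtain ⟨h3, h4⟩ := abs_le.mp (hU j)
  rw [abs_le]
  constructor <;> linarith [(hc i).1, (hc i).2, (hc j).1, (hc j).2]

lemma noisy_bound (hδ : 0 < δ) (hμ : ∀ i, NoisyLaw δ κ (μ i)) {a : Fin n → ℝ}
    (ha : ∀ i j, |a i - a j| ≤ 1) (m : ℕ) :
    ∫⁻ B, ∑ i, ∑ j, ff a B {m} i j ∂Measure.pi μ ≤
      ENNReal.ofReal (240000 * κ * n * δ ^ (-(1 / 4) : ℝ)) := by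
  obtain ⟨D, c, hD, hμD, hDκ, -⟩ := noisy_unpack hμ
  exact lines_bound a c ha hδ hD μ hμD hDκ m

/-- a nonnegative constant bounding the densities -/
lemma noisy_icc (hδ : 0 < δ) (hμ : ∀ i, NoisyLaw δ κ (μ i)) :
    ∃ K : ℝ, ∀ i, ∀ s t : ℝ, s ≤ t → μ i (Set.Icc s t) ≤ ENNReal.ofReal (K * (t - s)) := by
  obtain ⟨D, c, hD, hμD, hDκ, -⟩ := noisy_unpack hμ
  refine ⟨|κ| / δ, icc_le μ hμD (by positivity) ?_⟩
  intro i s
  refine (hDκ i s).trans ?_
  split_ifs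
  · apply ENNReal.ofReal_le_ofReal
    gcongr
    exact le_abs_self κ
  · exact zero_le

lemma ae_inj (hδ : 0 < δ) (hμ : ∀ i, NoisyLaw δ κ (μ i)) :
    ∀ᵐ U ∂Measure.pi μ, ∀ i j, i ≠ j → U i ≠ U j := by
  obtain ⟨K, hK⟩ := noisy_icc hδ hμ
  rw [ae_all_iff]; intro i
  rw [ae_all_iff]; intro j
  by_cases hij : i = j
  · exact Eventually.of_forall (fun _ h => absurd hij h)
  · filter_upwards [null_coord hK i (fun B => B j) (measurable_pi_apply j)
      (fun B b => Function.update_of_ne (Ne.symm hij) _ _)] with B hB _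
    exact hB

lemma ae_det (hδ : 0 < δ) (hμ : ∀ i, NoisyLaw δ κ (μ i)) {U : Fin n → ℝ}
    (hU : ∀ i j, i ≠ j → U i ≠ U j) (i j l : Fin n) (hij : i ≠ j) (hil : i ≠ l) (hjl : j ≠ l) :
    ∀ᵐ V ∂Measure.pi μ, (U j - U i) * (V l - V i) - (U l - U i) * (V j - V i) ≠ 0 := by
  obtain ⟨K, hK⟩ := noisy_icc hδ hμ
  have h0 : U j - U i ≠ 0 := sub_ne_zero.mpr (hU j i (Ne.symm hij))
  filter_upwards [null_coord hK l (fun V => (U l - U i) * (V j - V i) / (U j - U i) + V i)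
    (by fun_prop) (fun V b => by
      rw [Function.update_of_ne hil, Function.update_of_ne hjl])] with V hV h
  apply hV
  have h1 : V l - V i = (U l - U i) * (V j - V i) / (U j - U i) := by
    rw [eq_div_iff h0]
    linarith
  linarith

end

variable {δ κ : ℝ} {μ ν : Fin n → Measure ℝ} [∀ i, IsProbabilityMeasure (μ i)]
  [∀ i, IsProbabilityMeasure (ν i)]

theorem ae_good (hδ : 0 < δ) (hμ : ∀ i, NoisyLaw δ κ (μ i)) (hν : ∀ i, NoisyLaw δ κ (ν i)) :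
    ∀ᵐ ω ∂(Measure.pi μ).prod (Measure.pi ν), Good ω.1 ω.2 := by
  have h1 : ∀ᵐ ω ∂(Measure.pi μ).prod (Measure.pi ν), ∀ i j, i ≠ j → ω.1 i ≠ ω.1 j :=
    Measure.quasiMeasurePreserving_fst.ae (ae_inj hδ hμ)
  have h2 : ∀ᵐ ω ∂(Measure.pi μ).prod (Measure.pi ν), ∀ i j, i ≠ j → ω.2 i ≠ ω.2 j :=
    Measure.quasiMeasurePreserving_snd.ae (ae_inj hδ hν)
  have h3 : ∀ᵐ ω ∂(Measure.pi μ).prod (Measure.pi ν), ∀ i j l, i ≠ j → i ≠ l → j ≠ l →
      (ω.1 j - ω.1 i) * (ω.2 l - ω.2 i) - (ω.1 l - ω.1 i) * (ω.2 j - ω.2 i) ≠ 0 := by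
    rw [ae_all_iff]; intro i
    rw [ae_all_iff]; intro j
    rw [ae_all_iff]; intro l
    by_cases hij : i = j
    · exact Eventually.of_forall (fun _ h => absurd hij h)
    by_cases hil : i = l
    · exact Eventually.of_forall (fun _ _ h => absurd hil h)
    by_cases hjl : j = l
    · exact Eventually.of_forall (fun _ _ _ h => absurd hjl h)
    have hm : MeasurableSet {ω : (Fin n → ℝ) × (Fin n → ℝ) |
        (ω.1 j - ω.1 i) * (ω.2 l - ω.2 i) - (ω.1 l - ω.1 i) * (ω.2 j - ω.2 i) ≠ 0} :=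
      (measurableSet_eq_fun (by fun_prop) measurable_const).compl
    have h4 : ∀ᵐ ω ∂(Measure.pi μ).prod (Measure.pi ν),
        (ω.1 j - ω.1 i) * (ω.2 l - ω.2 i) - (ω.1 l - ω.1 i) * (ω.2 j - ω.2 i) ≠ 0 := by
      rw [Measure.ae_prod_iff_ae_ae hm]
      filter_upwards [ae_inj hδ hμ] with U hU
      exact ae_det hδ hν hU i j l hij hil hjl
    filter_upwards [h4] with ω hω _ _ _
    exact hω
  filter_upwards [h1, h2, h3] with ω a1 a2 a3
  exact ⟨a1, a2, a3⟩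

theorem expect (hδ : 0 < δ) (hμ : ∀ i, NoisyLaw δ κ (μ i)) (hν : ∀ i, NoisyLaw δ κ (ν i))
    (M : Finset ℕ) (S : (Fin n → ℝ) × (Fin n → ℝ) → ℕ)
    (hS : ∀ᵐ ω ∂(Measure.pi μ).prod (Measure.pi ν),
      2 * S ω ≤ ∑ m ∈ M, (#(Tm ω.1 ω.2 m) + #(Tm ω.2 ω.1 m))) :
    ∫⁻ ω, (S ω : ℝ≥0∞) ∂(Measure.pi μ).prod (Measure.pi ν) ≤
      #M * ENNReal.ofReal (240000 * κ * n * δ ^ (-(1 / 4) : ℝ)) := by
  classical
  set E := ENNReal.ofReal (240000 * κ * n * δ ^ (-(1 / 4) : ℝ)) with hE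
  have mU : ∀ l, Measurable fun ω : (Fin n → ℝ) × (Fin n → ℝ) => ω.1 l := fun l => by fun_prop
  have mV : ∀ l, Measurable fun ω : (Fin n → ℝ) × (Fin n → ℝ) => ω.2 l := fun l => by fun_prop
  have m1 : ∀ m : ℕ, Measurable fun ω : (Fin n → ℝ) × (Fin n → ℝ) =>
      ∑ i, ∑ j, ff ω.1 ω.2 {m} i j := fun m => Finset.measurable_sum _ fun i _ =>
        Finset.measurable_sum _ fun j _ => measurable_ff2 mU mV {m} i j
  have m2 : ∀ m : ℕ, Measurable fun ω : (Fin n → ℝ) × (Fin n → ℝ) =>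
      ∑ i, ∑ j, ff ω.2 ω.1 {m} i j := fun m => Finset.measurable_sum _ fun i _ =>
        Finset.measurable_sum _ fun j _ => measurable_ff2 mV mU {m} i j
  have e1 : ∀ m : ℕ, ∫⁻ ω, ∑ i, ∑ j, ff ω.1 ω.2 {m} i j ∂(Measure.pi μ).prod (Measure.pi ν) ≤
      E := by
    intro m
    rw [lintegral_prod _ (m1 m).aemeasurable]
    calc _ ≤ ∫⁻ _U, E ∂Measure.pi μ := by
          apply lintegral_mono_ae
          filter_upwards [ae_unit hμ] with U hU
          exact noisy_bound hδ hν hU m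
      _ = E := by simp
  have e2 : ∀ m : ℕ, ∫⁻ ω, ∑ i, ∑ j, ff ω.2 ω.1 {m} i j ∂(Measure.pi μ).prod (Measure.pi ν) ≤
      E := by
    intro m
    rw [lintegral_prod_symm _ (m2 m).aemeasurable]
    calc _ ≤ ∫⁻ _V, E ∂Measure.pi ν := by
          apply lintegral_mono_ae
          filter_upwards [ae_unit hν] with V hV
          exact noisy_bound hδ hμ hV m
      _ = E := by simp
  have h1 : ∀ᵐ ω ∂(Measure.pi μ).prod (Measure.pi ν), (S ω : ℝ≥0∞) ≤
      2⁻¹ * ∑ m ∈ M, ((∑ i, ∑ j, ff ω.1 ω.2 {m} i j) + ∑ i, ∑ j, ff ω.2 ω.1 {m} i j) := by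
    filter_upwards [hS] with ω hω
    have h2 : (2 : ℝ≥0∞) * (S ω : ℝ≥0∞) ≤
        ∑ m ∈ M, ((∑ i, ∑ j, ff ω.1 ω.2 {m} i j) + ∑ i, ∑ j, ff ω.2 ω.1 {m} i j) := by
      simp_rw [← card_Tm]
      exact_mod_cast hω
    calc (S ω : ℝ≥0∞) = 2⁻¹ * (2 * (S ω : ℝ≥0∞)) := by
          rw [← mul_assoc, ENNReal.inv_mul_cancel (by norm_num) (by norm_num), one_mul]
      _ ≤ _ := by gcongr
  calc ∫⁻ ω, (S ω : ℝ≥0∞) ∂(Measure.pi μ).prod (Measure.pi ν)
      ≤ ∫⁻ ω, 2⁻¹ * ∑ m ∈ M, ((∑ i, ∑ j, ff ω.1 ω.2 {m} i j) +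
          ∑ i, ∑ j, ff ω.2 ω.1 {m} i j) ∂(Measure.pi μ).prod (Measure.pi ν) :=
        lintegral_mono_ae h1
    _ = 2⁻¹ * ∑ m ∈ M, ((∫⁻ ω, ∑ i, ∑ j, ff ω.1 ω.2 {m} i j
          ∂(Measure.pi μ).prod (Measure.pi ν)) +
          ∫⁻ ω, ∑ i, ∑ j, ff ω.2 ω.1 {m} i j ∂(Measure.pi μ).prod (Measure.pi ν)) := by
        have m3 : ∀ m : ℕ, Measurable fun ω : (Fin n → ℝ) × (Fin n → ℝ) =>
            (∑ i, ∑ j, ff ω.1 ω.2 {m} i j) + ∑ i, ∑ j, ff ω.2 ω.1 {m} i j :=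
          fun m => (m1 m).add (m2 m)
        rw [lintegral_const_mul _ (Finset.measurable_sum _ fun m _ => m3 m),
          lintegral_finsetSum _ fun m _ => m3 m]
        congr 1
        apply sum_congr rfl
        intro m _
        rw [lintegral_add_left (m1 m)]
    _ ≤ 2⁻¹ * ∑ m ∈ M, (E + E) := by
        gcongr with m _
        · exact e1 m
        · exact e2 m
    _ = _ := by
        rw [sum_const, nsmul_eq_mul, ← two_mul, ← mul_assoc, ← mul_assoc]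
        congr 1
        rw [mul_comm (2⁻¹ : ℝ≥0∞), mul_assoc, ENNReal.inv_mul_cancel (by norm_num) (by norm_num),
          mul_one]

end Pool.Agent.U999.SH
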