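import Pool.Agent.U999.SH.Conv

/-!
# Smoothed analysis of halving lines: the bound for non-vertical lines
-/

set_option autoImplicit false

namespace Pool.Agent.U999.SH

open Finset MeasureTheory Pool.Agent.H189R2.Lev Filter
open scoped ENNReal
open Pool.Agent.Results.MP_a08d0a_co.SmoothedLevel (Simple ae_simple)

variable {n : ℕ}

open Classical in
/-- symmetric summand -/
noncomputable def ff (a B : Fin n → ℝ) (C : Finset ℕ) (i j : Fin n) : ℝ≥0∞ :=
  if a i ≠ a j then (if |cr a B i j| ≤ 1 then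
    ind C (nb a B {i, j} (cr a B i j) (ht a B i (cr a B i j))) else 0) else 0

lemma ff_symm (a B : Fin n → ℝ) (C : Finset ℕ) (i j : Fin n) : ff a B C i j = ff a B C j i := by
  unfold ff
  by_cases h : a i = a j
  · rw [if_neg (by simpa using h), if_neg (by simpa using h.symm)]
  · rw [if_pos h, if_pos (fun h' => h h'.symm), cr_symm a B i j]
    have h1 := ht_cr (B := B) (fun h' => h h' : a i ≠ a j)
    rw [cr_symm] at h1
    rw [← h1, pair_comm]

lemma sum_ff_le (a B : Fin n → ℝ) (C : Finset ℕ) :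
    ∑ i, ∑ j, ff a B C i j ≤ 2 * (#(pairsW a B C) : ℝ≥0∞) := by
  classical
  have h1 : ∀ i j, ff a B C i j ≤ (if a j < a i then ff a B C i j else 0) +
      (if a i < a j then ff a B C i j else 0) := by
    intro i j
    rcases lt_trichotomy (a i) (a j) with h | h | h
    · rw [if_pos h, if_neg (not_lt.mpr h.le)]
      simp
    · unfold ff
      rw [if_neg (by simpa using h)]
      exact zero_le
    · rw [if_pos h, if_neg (not_lt.mpr h.le)]
      simp
  have h2 : ∑ i, ∑ j, (if a j < a i then ff a B C i j else 0) ≤ (#(pairsW a B C) : ℝ≥0∞) := by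
    unfold pairsW
    rw [card_filter]
    push_cast
    rw [Fintype.sum_prod_type]
    apply sum_le_sum; intro i _
    apply sum_le_sum; intro j _
    by_cases h : a j < a i
    · rw [if_pos h]
      unfold ff ind
      rw [if_pos h.ne']
      split_ifs with g1 g2 g3 g4
      · exact le_rfl
      · exact absurd ⟨h, g2⟩ g3
      · exact zero_le
      · exact zero_le
      · exact zero_le
      · exact zero_le
    · rw [if_neg h]
      exact zero_le
  have h3 : ∑ i, ∑ j, (if a i < a j then ff a B C i j else 0) =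
      ∑ i, ∑ j, (if a j < a i then ff a B C i j else 0) := by
    rw [sum_comm]
    apply sum_congr rfl; intro i _
    apply sum_congr rfl; intro j _
    rw [ff_symm]
  calc ∑ i, ∑ j, ff a B C i j ≤ ∑ i, ∑ j, ((if a j < a i then ff a B C i j else 0) +
      (if a i < a j then ff a B C i j else 0)) := by
        apply sum_le_sum; intro i _
        apply sum_le_sum; intro j _
        exact h1 i j
    _ = ∑ i, ∑ j, (if a j < a i then ff a B C i j else 0) +
        ∑ i, ∑ j, (if a i < a j then ff a B C i j else 0) := by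
        simp_rw [sum_add_distrib]
    _ ≤ (#(pairsW a B C) : ℝ≥0∞) + #(pairsW a B C) := by
        rw [h3]
        exact add_le_add h2 h2
    _ = _ := by ring

lemma measurable_ff (a : Fin n → ℝ) (C : Finset ℕ) (i j : Fin n) :
    Measurable fun B : Fin n → ℝ => ff a B C i j := by
  classical
  unfold ff
  by_cases h : a i ≠ a j
  · simp only [if_pos h]
    have mcr : Measurable fun B : Fin n → ℝ => cr a B i j := by unfold cr; fun_prop
    refine Measurable.ite (measurableSet_le mcr.abs measurable_const) ?_ measurable_const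
    refine (measurable_of_countable (ind C)).comp (measurable_nb a _
      (fun l => measurable_pi_apply l) mcr ?_)
    unfold ht
    exact (mcr.const_mul _).add (measurable_pi_apply i)
  · simp only [if_neg h]
    exact measurable_const

/-- the density formula for all pairs -/
lemma vtx' {D : Fin n → ℝ → ℝ≥0∞} (hD : ∀ i, Measurable (D i)) (ν : Fin n → Measure ℝ)
    [∀ i, IsProbabilityMeasure (ν i)] (hν : ∀ i, ν i = volume.withDensity (D i)) (a : Fin n → ℝ)
    (i j : Fin n) (C : Finset ℕ) :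
    ∫⁻ B, ff a B C i j ∂Measure.pi ν =
    ENNReal.ofReal |a i - a j| * ∫⁻ x in Set.Icc (-1) 1, ∫⁻ y, D i (y - a i * x) *
      D j (y - a j * x) * ∫⁻ B, ind C (nb a B {i, j} x y) ∂Measure.pi ν := by
  classical
  by_cases h : a i = a j
  · unfold ff
    simp [h]
  · rw [← vtx hD ν hν a h (ind C)]
    unfold ff
    simp only [ne_eq, h, not_false_eq_true, if_true]

lemma meas_term {D : Fin n → ℝ → ℝ≥0∞} (hD : ∀ i, Measurable (D i)) (ν : Fin n → Measure ℝ)
    [∀ i, IsProbabilityMeasure (ν i)] (a : Fin n → ℝ) (i j : Fin n) (C : Finset ℕ) :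
    Measurable fun p : ℝ × ℝ => D i (p.2 - a i * p.1) * D j (p.2 - a j * p.1) *
      ∫⁻ B, ind C (nb a B {i, j} p.1 p.2) ∂Measure.pi ν := by
  have h1 : Measurable fun p : ℝ × ℝ => D i (p.2 - a i * p.1) := (hD i).comp (by fun_prop)
  have h2 : Measurable fun p : ℝ × ℝ => D j (p.2 - a j * p.1) := (hD j).comp (by fun_prop)
  exact (h1.mul h2).mul (measurable_pr ν a {i, j} (ind C))

/-- the sum over all pairs of the density formula -/
lemma sum_vtx {D : Fin n → ℝ → ℝ≥0∞} (hD : ∀ i, Measurable (D i)) (ν : Fin n → Measure ℝ)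
    [∀ i, IsProbabilityMeasure (ν i)] (hν : ∀ i, ν i = volume.withDensity (D i)) (a : Fin n → ℝ)
    (C : Finset ℕ) :
    ∫⁻ B, ∑ i, ∑ j, ff a B C i j ∂Measure.pi ν = ∫⁻ x in Set.Icc (-1) 1, ∫⁻ y, ∑ i, ∑ j,
      ENNReal.ofReal |a i - a j| * (D i (y - a i * x) *
      D j (y - a j * x) * ∫⁻ B, ind C (nb a B {i, j} x y) ∂Measure.pi ν) := by
  have m1 : ∀ i j, Measurable fun p : ℝ × ℝ => D i (p.2 - a i * p.1) * D j (p.2 - a j * p.1) *
      ∫⁻ B, ind C (nb a B {i, j} p.1 p.2) ∂Measure.pi ν := fun i j => meas_term hD ν a i j C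
  have m2 : ∀ i j x, Measurable fun y : ℝ => D i (y - a i * x) * D j (y - a j * x) *
      ∫⁻ B, ind C (nb a B {i, j} x y) ∂Measure.pi ν := by
    intro i j x
    have h1 : Measurable fun y : ℝ => D i (y - a i * x) := (hD i).comp (by fun_prop)
    have h2 : Measurable fun y : ℝ => D j (y - a j * x) := (hD j).comp (by fun_prop)
    exact (h1.mul h2).mul (measurable_pr1 ν a {i, j} (ind C) x)
  have e1 : ∀ x, ∫⁻ y, ∑ i, ∑ j, ENNReal.ofReal |a i - a j| * (D i (y - a i * x) *
      D j (y - a j * x) * ∫⁻ B, ind C (nb a B {i, j} x y) ∂Measure.pi ν) =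
      ∑ i, ∑ j, ENNReal.ofReal |a i - a j| * ∫⁻ y, (D i (y - a i * x) *
      D j (y - a j * x) * ∫⁻ B, ind C (nb a B {i, j} x y) ∂Measure.pi ν) := by
    intro x
    rw [lintegral_finsetSum _ (fun i _ => Finset.measurable_sum _
      (fun j _ => (m2 i j x).const_mul _))]
    apply sum_congr rfl; intro i _
    rw [lintegral_finsetSum _ (fun j _ => (m2 i j x).const_mul _)]
    apply sum_congr rfl; intro j _
    rw [lintegral_const_mul _ (m2 i j x)]
  simp_rw [e1]
  have m3 : ∀ i j, Measurable fun x : ℝ => ENNReal.ofReal |a i - a j| *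
      ∫⁻ y, (D i (y - a i * x) * D j (y - a j * x) *
        ∫⁻ B, ind C (nb a B {i, j} x y) ∂Measure.pi ν) := fun i j =>
    (Measurable.lintegral_prod_right' (m1 i j)).const_mul _
  rw [lintegral_finsetSum _ (fun i _ => Finset.measurable_sum _ (fun j _ => m3 i j)),
    lintegral_finsetSum _ (fun i _ => Finset.measurable_sum _
      (fun j _ => measurable_ff a C i j))]
  apply sum_congr rfl; intro i _
  rw [lintegral_finsetSum _ (fun j _ => m3 i j),
    lintegral_finsetSum _ (fun j _ => measurable_ff a C i j)]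
  apply sum_congr rfl; intro j _
  rw [vtx' hD ν hν a i j C, lintegral_const_mul]
  exact Measurable.lintegral_prod_right' (m1 i j)

/-- Dey's bound as an extended real -/
noncomputable def dey (n : ℕ) (C : Finset ℕ) : ℝ≥0∞ :=
  ENNReal.ofReal (18 * n * ((n : ℝ) ^ (1 / 3 : ℝ) * (#C : ℝ) ^ (2 / 3 : ℝ)))

lemma sum_ff_dey {a B : Fin n → ℝ} (hS : Simple a B) (C : Finset ℕ) :
    ∑ i, ∑ j, ff a B C i j ≤ 2 * dey n C := by
  refine (sum_ff_le a B C).trans ?_
  have h := dey_window hS C
  unfold dey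
  gcongr
  rw [← ENNReal.ofReal_natCast]
  exact ENNReal.ofReal_le_ofReal h

/-- the exponential arrangement -/
theorem HH_int (a c : Fin n → ℝ) {δ : ℝ} (hδ : 0 < δ) (C : Finset ℕ)
    [∀ l, IsProbabilityMeasure (volume.withDensity (lap (c l) δ))] :
    ∫⁻ x in Set.Icc (-1) 1, ∫⁻ y, HH a c δ C x y ≤
      ENNReal.ofReal (4 * δ ^ 2) * (2 * dey n C) := by
  classical
  set νh : Fin n → Measure ℝ := fun l => volume.withDensity (lap (c l) δ) with hνh
  have e1 : ∀ x y, HH a c δ C x y = ENNReal.ofReal (4 * δ ^ 2) * ∑ i, ∑ j,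
      ENNReal.ofReal |a i - a j| * (lap (c i) δ (y - a i * x) *
      lap (c j) δ (y - a j * x) * ∫⁻ B, ind C (nb a B {i, j} x y) ∂Measure.pi νh) := by
    intro x y
    unfold HH
    rw [mul_sum]
    apply sum_congr rfl; intro i _
    rw [mul_sum]
    apply sum_congr rfl; intro j _
    rw [lap_wr a c hδ, lap_wr a c hδ]
    have h1 : ENNReal.ofReal (4 * δ ^ 2) * (ENNReal.ofReal (1 / (2 * δ)) *
        ENNReal.ofReal (1 / (2 * δ))) = 1 := by
      rw [← ENNReal.ofReal_mul (by positivity), ← ENNReal.ofReal_mul (by positivity)]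
      rw [show 4 * δ ^ 2 * (1 / (2 * δ) * (1 / (2 * δ))) = 1 by field_simp; norm_num]
      simp
    unfold wE
    set X := ∫⁻ B, ind C (nb a B {i, j} x y) ∂Measure.pi νh
    set u := ENNReal.ofReal (wr a c δ i x y)
    set v := ENNReal.ofReal (wr a c δ j x y)
    set d := ENNReal.ofReal |a i - a j|
    set q := ENNReal.ofReal (1 / (2 * δ))
    calc d * (u * v * X) = (ENNReal.ofReal (4 * δ ^ 2) * (q * q)) * (d * (u * v * X)) := by
          rw [h1, one_mul]
      _ = _ := by ring
  have m0 : ∀ i, Measurable (lap (c i) δ) := fun i => measurable_lap _ _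
  have m1 : Measurable fun p : ℝ × ℝ => ∑ i, ∑ j,
      ENNReal.ofReal |a i - a j| * (lap (c i) δ (p.2 - a i * p.1) *
      lap (c j) δ (p.2 - a j * p.1) *
        ∫⁻ B, ind C (nb a B {i, j} p.1 p.2) ∂Measure.pi νh) := by
    apply Finset.measurable_sum; intro i _
    apply Finset.measurable_sum; intro j _
    exact (meas_term (D := fun i => lap (c i) δ) m0 νh a i j C).const_mul _
  have m2 : ∀ x, Measurable fun y : ℝ => ∑ i, ∑ j,
      ENNReal.ofReal |a i - a j| * (lap (c i) δ (y - a i * x) *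
      lap (c j) δ (y - a j * x) * ∫⁻ B, ind C (nb a B {i, j} x y) ∂Measure.pi νh) := by
    intro x
    apply Finset.measurable_sum; intro i _
    apply Finset.measurable_sum; intro j _
    have h1 : Measurable fun y : ℝ => lap (c i) δ (y - a i * x) := (m0 i).comp (by fun_prop)
    have h2 : Measurable fun y : ℝ => lap (c j) δ (y - a j * x) := (m0 j).comp (by fun_prop)
    exact ((h1.mul h2).mul (measurable_pr1 νh a {i, j} (ind C) x)).const_mul _
  simp_rw [e1]
  have e2 : ∀ x, ∫⁻ y, ENNReal.ofReal (4 * δ ^ 2) * ∑ i, ∑ j,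
      ENNReal.ofReal |a i - a j| * (lap (c i) δ (y - a i * x) *
      lap (c j) δ (y - a j * x) * ∫⁻ B, ind C (nb a B {i, j} x y) ∂Measure.pi νh) =
      ENNReal.ofReal (4 * δ ^ 2) * ∫⁻ y, ∑ i, ∑ j,
      ENNReal.ofReal |a i - a j| * (lap (c i) δ (y - a i * x) *
      lap (c j) δ (y - a j * x) * ∫⁻ B, ind C (nb a B {i, j} x y) ∂Measure.pi νh) :=
    fun x => lintegral_const_mul _ (m2 x)
  simp_rw [e2]
  rw [lintegral_const_mul _ (Measurable.lintegral_prod_right' m1)]
  gcongr
  rw [← sum_vtx (D := fun i => lap (c i) δ) m0 νh (fun i => rfl) a C]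
  have hK : ∀ i s, lap (c i) δ s ≤ ENNReal.ofReal (1 / (2 * δ)) := by
    intro i s
    unfold lap
    apply ENNReal.ofReal_le_ofReal
    apply div_le_div_of_nonneg_right _ (by positivity)
    rw [Real.exp_le_one_iff]
    apply div_nonpos_of_nonpos_of_nonneg _ hδ.le
    linarith [abs_nonneg (s - c i)]
  have hae := ae_simple (icc_le (D := fun i => lap (c i) δ) νh (fun i => rfl)
    (K := 1 / (2 * δ)) (by positivity) hK) a
  calc ∫⁻ B, ∑ i, ∑ j, ff a B C i j ∂Measure.pi νh ≤ ∫⁻ _B, 2 * dey n C ∂Measure.pi νh := by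
        apply lintegral_mono_ae
        filter_upwards [hae] with B hB
        exact sum_ff_dey hB C
    _ = _ := by simp

end Pool.Agent.U999.SH
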