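import Pool.Agent.U999.SH.Num
import Pool.Agent.R117.KR.Lines
import Pool.Agent.KLev.Halving

/-!
# Smoothed analysis of halving lines: from points to lines
-/

set_option autoImplicit false

namespace Pool.Agent.U999.SH

open Finset MeasureTheory Pool.Agent.H189R2.Lev Filter
open scoped ENNReal
open Pool.Agent.Results.MP_a08d0a_co.SmoothedLevel (Simple count3)
open Pool.Agent.R117.KR (Line IsBisector IsKLine line_unique two_mul_le)
open KLev.Halving (GeneralPosition)

variable {n : ℕ}

/-- the set of the points `(U i, V i)` -/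
noncomputable def pts (U V : Fin n → ℝ) : Finset (ℝ × ℝ) := univ.image (fun i => (U i, V i))

/-- general position: distinct abscissae, distinct ordinates, no three points on a line -/
def Good (U V : Fin n → ℝ) : Prop :=
  (∀ i j, i ≠ j → U i ≠ U j) ∧ (∀ i j, i ≠ j → V i ≠ V j) ∧
    ∀ i j l, i ≠ j → i ≠ l → j ≠ l →
      (U j - U i) * (V l - V i) - (U l - U i) * (V j - V i) ≠ 0

lemma Good.swap {U V : Fin n → ℝ} (h : Good U V) : Good V U := by
  refine ⟨h.2.1, h.1, fun i j l hij hil hjl h0 => h.2.2 i j l hij hil hjl ?_⟩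
  linarith

lemma Good.simple {a B : Fin n → ℝ} (h : Good a B) : Simple a B := by
  refine ⟨fun i j hij _ => h.2.1 i j hij, ?_⟩
  rintro i j l hij hil hjl ⟨x, h1, h2⟩
  apply h.2.2 i j l hij hil hjl
  unfold ht at h1 h2
  have e1 : B j - B i = -(a j - a i) * x := by linarith
  have e2 : B l - B i = -(a l - a i) * x := by linarith
  rw [e1, e2]
  ring

lemma pts_inj {U V : Fin n → ℝ} (h : Good U V) : Function.Injective fun i => (U i, V i) := by
  intro i j hij
  by_contra hne
  exact h.1 i j hne (congrArg Prod.fst hij)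

lemma card_pts {U V : Fin n → ℝ} (h : Good U V) : (pts U V).card = n := by
  unfold pts
  rw [card_image_of_injective _ (pts_inj h)]
  simp

lemma gp_pts {U V : Fin n → ℝ} (h : Good U V) : GeneralPosition (pts U V) := by
  rintro a b c hab p hp q hq r hr hpq hpr hqr ⟨h1, h2, h3⟩
  unfold pts at hp hq hr
  rw [mem_image] at hp hq hr
  obtain ⟨i, -, rfl⟩ := hp
  obtain ⟨j, -, rfl⟩ := hq
  obtain ⟨l, -, rfl⟩ := hr
  simp only [KLev.Halving.Line, Set.mem_ofPred_eq] at h1 h2 h3
  have hd := h.2.2 i j l (fun h => hpq (by rw [h])) (fun h => hpr (by rw [h]))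
    (fun h => hqr (by rw [h]))
  have e1 : a * (U j - U i) + b * (V j - V i) = 0 := by linarith
  have e2 : a * (U l - U i) + b * (V l - V i) = 0 := by linarith
  rcases hab with ha | hb
  · apply hd
    have : a * ((U j - U i) * (V l - V i) - (U l - U i) * (V j - V i)) = 0 := by
      linear_combination (V l - V i) * e1 - (V j - V i) * e2
    exact (mul_eq_zero.mp this).resolve_left ha
  · apply hd
    have : b * ((U j - U i) * (V l - V i) - (U l - U i) * (V j - V i)) = 0 := by
      linear_combination (U j - U i) * e2 - (U l - U i) * e1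
    exact (mul_eq_zero.mp this).resolve_left hb

open Classical in
/-- ordered pairs of lines crossing above `[-1, 1]` with exactly `m` lines below -/
noncomputable def Tm (a B : Fin n → ℝ) (m : ℕ) : Finset (Fin n × Fin n) :=
  univ.filter (fun q => a q.1 ≠ a q.2 ∧ |cr a B q.1 q.2| ≤ 1 ∧
    nb a B {q.1, q.2} (cr a B q.1 q.2) (ht a B q.1 (cr a B q.1 q.2)) = m)

lemma card_Tm (a B : Fin n → ℝ) (m : ℕ) :
    (#(Tm a B m) : ℝ≥0∞) = ∑ i, ∑ j, ff a B {m} i j := by
  classical
  unfold Tm
  rw [card_filter]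
  push_cast
  rw [Fintype.sum_prod_type]
  apply sum_congr rfl; intro i _
  apply sum_congr rfl; intro j _
  unfold ff ind
  simp only [mem_singleton]
  by_cases h1 : a i ≠ a j
  · by_cases h2 : |cr a B i j| ≤ 1
    · by_cases h3 : nb a B {i, j} (cr a B i j) (ht a B i (cr a B i j)) = m
      · simp [h1, h2, h3]
      · simp [h1, h2, h3]
    · simp [h1, h2]
  · simp [h1]

lemma swap_mem_Tm {a B : Fin n → ℝ} {m : ℕ} {q : Fin n × Fin n} (h : q ∈ Tm a B m) :
    q.swap ∈ Tm a B m := by
  classical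
  unfold Tm at *
  rw [mem_filter] at *
  obtain ⟨-, h1, h2, h3⟩ := h
  have h4 := ht_cr (B := B) h1
  rw [cr_symm] at h2 h3 h4
  refine ⟨mem_univ _, Ne.symm h1, h2, ?_⟩
  simp only [Prod.fst_swap, Prod.snd_swap]
  rw [pair_comm, h4]
  exact h3

/-- a line through two points, in the chart in which its slope is at most one -/
lemma chart {a B : Fin n → ℝ} (hS : Simple a B) {α β γ : ℝ} (hβ : β ≠ 0) (hαβ : |α| ≤ |β|)
    {i j : Fin n} (hij : i ≠ j) (hi : α * a i + β * B i = γ) (hj : α * a j + β * B j = γ) :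
    (((i, j) ∈ Tm a B {l | α * a l + β * B l < γ}.ncard) ∨
      (i, j) ∈ Tm a B {l | γ < α * a l + β * B l}.ncard) ∧
    {l | α * a l + β * B l < γ}.ncard + {l | γ < α * a l + β * B l}.ncard + 2 = n := by
  classical
  have ha : a i ≠ a j := by
    intro h
    apply hS.1 i j hij h
    rw [h] at hi
    have : β * (B i - B j) = 0 := by linarith
    have := (mul_eq_zero.mp this).resolve_left hβ
    linarith
  have ha' : a i - a j ≠ 0 := sub_ne_zero.mpr ha
  set x := cr a B i j with hx
  have hαx : α = β * x := by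
    rw [hx]
    unfold cr
    rw [mul_div_assoc', eq_div_iff ha']
    linarith
  have hx1 : |x| ≤ 1 := by
    have hb : 0 < |β| := abs_pos.mpr hβ
    rw [hαx, abs_mul] at hαβ
    by_contra hcon
    push Not at hcon
    nlinarith
  have hγ : γ = β * ht a B i x := by
    rw [← hi, hαx]
    unfold ht
    ring
  have hform : ∀ l, α * a l + β * B l = β * ht a B l x := by
    intro l
    rw [hαx]
    unfold ht
    ring
  have hnb : nb a B {i, j} x (ht a B i x) = {l | ht a B l x < ht a B i x}.ncard := by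
    unfold nb
    rw [← Set.ncard_coe_finset]
    congr 1
    ext l
    simp only [coe_filter, mem_univ, true_and, Set.mem_ofPred_eq, mem_insert, mem_singleton,
      not_or]
    constructor
    · exact fun h => h.2
    · intro h
      refine ⟨⟨?_, ?_⟩, h⟩
      · rintro rfl; exact lt_irrefl _ h
      · rintro rfl
        rw [hx, ht_cr ha] at h
        exact lt_irrefl _ h
  have hc3 := count3 hS hij (x := x) (by rw [hx, ht_cr ha])
  rcases lt_or_gt_of_ne hβ with hneg | hpos
  · have e1 : {l | α * a l + β * B l < γ} = {l | ht a B i x < ht a B l x} := by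
      ext l
      simp only [Set.mem_ofPred_eq]
      rw [hform, hγ]
      exact mul_lt_mul_left_of_neg hneg
    have e2 : {l | γ < α * a l + β * B l} = {l | ht a B l x < ht a B i x} := by
      ext l
      simp only [Set.mem_ofPred_eq]
      rw [hform, hγ]
      exact mul_lt_mul_left_of_neg hneg
    rw [e1, e2]
    refine ⟨Or.inr ?_, by omega⟩
    unfold Tm
    rw [mem_filter]
    exact ⟨mem_univ _, ha, hx1, hnb⟩
  · have e1 : {l | α * a l + β * B l < γ} = {l | ht a B l x < ht a B i x} := by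
      ext l
      simp only [Set.mem_ofPred_eq]
      rw [hform, hγ]
      exact mul_lt_mul_iff_right₀ hpos
    have e2 : {l | γ < α * a l + β * B l} = {l | ht a B i x < ht a B l x} := by
      ext l
      simp only [Set.mem_ofPred_eq]
      rw [hform, hγ]
      exact mul_lt_mul_iff_right₀ hpos
    rw [e1, e2]
    refine ⟨Or.inl ?_, by omega⟩
    unfold Tm
    rw [mem_filter]
    exact ⟨mem_univ _, ha, hx1, hnb⟩

open Classical in
lemma card_side {U V : Fin n → ℝ} (h : Good U V) (Q : ℝ × ℝ → Prop) :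
    ((pts U V).filter Q).card = {l : Fin n | Q (U l, V l)}.ncard := by
  unfold pts
  rw [filter_image, card_image_of_injective _ (pts_inj h), ← Set.ncard_coe_finset]
  congr 1
  ext l
  simp

/-- both charts together -/
lemma charts {U V : Fin n → ℝ} (h : Good U V) {α β γ : ℝ} (hαβ : α ≠ 0 ∨ β ≠ 0)
    {i j : Fin n} (hij : i ≠ j) (hi : (U i, V i) ∈ Line α β γ) (hj : (U j, V j) ∈ Line α β γ) :
    ((i, j) ∈ Tm U V {l | α * U l + β * V l < γ}.ncard ∪ Tm V U {l | α * U l + β * V l < γ}.ncard ∨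
      (i, j) ∈ Tm U V {l | γ < α * U l + β * V l}.ncard ∪
        Tm V U {l | γ < α * U l + β * V l}.ncard) ∧
    {l | α * U l + β * V l < γ}.ncard + {l | γ < α * U l + β * V l}.ncard + 2 = n := by
  classical
  simp only [Line, Set.mem_ofPred_eq] at hi hj
  rcases le_or_gt |α| |β| with hle | hlt
  · have hβ : β ≠ 0 := by
      rintro rfl
      rw [abs_zero] at hle
      have := abs_nonpos_iff.mp hle
      rcases hαβ with h | h
      · exact h this
      · exact h rfl
    obtain ⟨h1, h2⟩ := chart h.simple hβ hle hij hi hj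
    refine ⟨?_, h2⟩
    rw [mem_union, mem_union]
    tauto
  · have hα : α ≠ 0 := by
      rintro rfl
      rw [abs_zero] at hlt
      exact absurd hlt (not_lt.mpr (abs_nonneg _))
    obtain ⟨h1, h2⟩ := chart h.swap.simple hα hlt.le hij (γ := γ) (by linarith) (by linarith)
    have e1 : {l | β * V l + α * U l < γ} = {l | α * U l + β * V l < γ} := by
      ext l
      simp only [Set.mem_ofPred_eq]
      rw [add_comm]
    have e2 : {l | γ < β * V l + α * U l} = {l | γ < α * U l + β * V l} := by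
      ext l
      simp only [Set.mem_ofPred_eq]
      rw [add_comm]
    rw [e1, e2] at h1 h2
    refine ⟨?_, h2⟩
    rw [mem_union, mem_union]
    tauto

lemma count_lines {U V : Fin n → ℝ} (h : Good U V) (T : Finset (Fin n × Fin n))
    (hT : ∀ q ∈ T, q.swap ∈ T) (S : Set (Set (ℝ × ℝ)))
    (hS : ∀ L ∈ S, ∃ α β γ : ℝ, (α ≠ 0 ∨ β ≠ 0) ∧ L = Line α β γ ∧
      ∃ i j, i ≠ j ∧ (U i, V i) ∈ L ∧ (U j, V j) ∈ L ∧ (i, j) ∈ T) :
    2 * S.ncard ≤ T.card := by
  classical
  rcases S.eq_empty_or_nonempty with hS0 | ⟨L0, hL0⟩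
  · rw [hS0]
    simp
  obtain ⟨-, -, -, -, -, i0, -⟩ := hS L0 hL0
  have hex : ∀ L : Set (ℝ × ℝ), ∃ q : Fin n × Fin n, L ∈ S → q.1 ≠ q.2 ∧ (U q.1, V q.1) ∈ L ∧
      (U q.2, V q.2) ∈ L ∧ q ∈ T := by
    intro L
    by_cases hL : L ∈ S
    · obtain ⟨α, β, γ, -, -, i, j, hij, hi, hj, hT⟩ := hS L hL
      exact ⟨(i, j), fun _ => ⟨hij, hi, hj, hT⟩⟩
    · exact ⟨(i0, i0), fun h => absurd h hL⟩
  choose f hf using hex
  apply two_mul_le S T f
  · intro L hL
    obtain ⟨h1, h2, h3, h4⟩ := hf L hL
    exact ⟨h4, hT _ h4, h1⟩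
  · intro L hL L' hL' hff
    obtain ⟨h1, h2, h3, -⟩ := hf L hL
    obtain ⟨h1', h2', h3', -⟩ := hf L' hL'
    obtain ⟨α, β, γ, hab, hLe, -⟩ := hS L hL
    obtain ⟨α', β', γ', hab', hLe', -⟩ := hS L' hL'
    have hne : (U (f L).1, V (f L).1) ≠ (U (f L).2, V (f L).2) := fun hh =>
      h1 (pts_inj h hh)
    rcases hff with hff | hff
    · rw [← hff] at h2' h3'
      rw [hLe] at h2 h3 ⊢
      rw [hLe'] at h2' h3' ⊢
      subst hLe
      exact line_unique hab hab' hne h2 h3 h2' h3'
    · have e1 : (f L').1 = (f L).2 := by rw [hff]; rfl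
      have e2 : (f L').2 = (f L).1 := by rw [hff]; rfl
      rw [e1] at h2'
      rw [e2] at h3'
      rw [hLe] at h2 h3 ⊢
      rw [hLe'] at h2' h3' ⊢
      subst hLe
      exact line_unique hab hab' hne h2 h3 h3' h2'

end Pool.Agent.U999.SH
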