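import Pool.Agent.U999.SH.Vtx

/-!
# Smoothed analysis of halving lines: the lines of a given rank above a fixed abscissa
-/

set_option autoImplicit false

namespace Pool.Agent.U999.SH

open Finset MeasureTheory Pool.Agent.H189R2.Lev Filter
open scoped ENNReal

variable {n : ℕ}

/-- indicator of a finite set of integers -/
noncomputable def ind (C : Finset ℕ) (k : ℕ) : ℝ≥0∞ := if k ∈ C then 1 else 0

lemma ind_le_one (C : Finset ℕ) (k : ℕ) : ind C k ≤ 1 := by
  unfold ind; split_ifs <;> simp

lemma icc_le {D : Fin n → ℝ → ℝ≥0∞} (ν : Fin n → Measure ℝ)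
    (hν : ∀ i, ν i = volume.withDensity (D i)) {K : ℝ} (hK0 : 0 ≤ K)
    (hK : ∀ i s, D i s ≤ ENNReal.ofReal K) :
    ∀ i, ∀ s t : ℝ, s ≤ t → ν i (Set.Icc s t) ≤ ENNReal.ofReal (K * (t - s)) := by
  intro i s t _
  rw [hν i, withDensity_apply _ measurableSet_Icc]
  calc ∫⁻ u in Set.Icc s t, D i u ≤ ∫⁻ _u in Set.Icc s t, ENNReal.ofReal K :=
        lintegral_mono (fun u => hK i u)
    _ = ENNReal.ofReal (K * (t - s)) := by
        rw [setLIntegral_const, Real.volume_Icc, ENNReal.ofReal_mul hK0]

lemma rank_inj {a B : Fin n → ℝ} {x : ℝ}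
    (h : ∀ l m, l ≠ m → a l * x + B l ≠ a m * x + B m) :
    Function.Injective (fun l => nb a B {l} x (a l * x + B l)) := by
  classical
  have key : ∀ l m, a l * x + B l < a m * x + B m →
      nb a B {l} x (a l * x + B l) < nb a B {m} x (a m * x + B m) := by
    intro l m hlm
    unfold nb
    apply card_lt_card
    rw [Finset.ssubset_iff_of_subset]
    · refine ⟨l, ?_, ?_⟩
      · simp only [mem_filter, mem_univ, true_and, mem_singleton]
        refine ⟨?_, hlm⟩
        rintro rfl
        exact lt_irrefl _ hlm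
      · simp
    · intro r hr
      simp only [mem_filter, mem_univ, true_and, mem_singleton] at hr ⊢
      refine ⟨?_, hr.2.trans hlm⟩
      rintro rfl
      exact lt_asymm hr.2 hlm
  intro l m hlm
  by_contra hne
  simp only at hlm
  rcases lt_or_gt_of_ne (h l m hne) with h1 | h1
  · exact absurd hlm (key l m h1).ne
  · exact absurd hlm.symm (key m l h1).ne

lemma sum_ind_le {a B : Fin n → ℝ} {x : ℝ}
    (h : ∀ l m, l ≠ m → a l * x + B l ≠ a m * x + B m) (C : Finset ℕ) :
    ∑ l, ind C (nb a B {l} x (a l * x + B l)) ≤ (#C : ℝ≥0∞) := by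
  classical
  unfold ind
  rw [Finset.sum_boole]
  have : #(univ.filter (fun l => nb a B {l} x (a l * x + B l) ∈ C)) ≤ #C := by
    apply card_le_card_of_injOn (fun l => nb a B {l} x (a l * x + B l))
    · intro l hl
      rw [mem_coe, mem_filter] at hl
      exact hl.2
    · exact (rank_inj h).injOn
  exact_mod_cast this

lemma measurable_pr (ν : Fin n → Measure ℝ) [∀ i, IsProbabilityMeasure (ν i)]
    (a : Fin n → ℝ) (s : Finset (Fin n)) (ω : ℕ → ℝ≥0∞) :
    Measurable (fun p : ℝ × ℝ => ∫⁻ B, ω (nb a B s p.1 p.2) ∂Measure.pi ν) := by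
  apply Measurable.lintegral_prod_right' (f := fun q : (ℝ × ℝ) × (Fin n → ℝ) =>
    ω (nb a q.2 s q.1.1 q.1.2))
  exact (measurable_of_countable ω).comp (measurable_nb a s
    (fun l => (measurable_pi_apply l).comp measurable_snd) (by fun_prop) (by fun_prop))

lemma measurable_pr1 (ν : Fin n → Measure ℝ) [∀ i, IsProbabilityMeasure (ν i)]
    (a : Fin n → ℝ) (s : Finset (Fin n)) (ω : ℕ → ℝ≥0∞) (x : ℝ) :
    Measurable (fun y : ℝ => ∫⁻ B, ω (nb a B s x y) ∂Measure.pi ν) := by
  apply Measurable.lintegral_prod_right' (f := fun q : ℝ × (Fin n → ℝ) =>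
    ω (nb a q.2 s x q.1))
  exact (measurable_of_countable ω).comp (measurable_nb a s
    (fun l => (measurable_pi_apply l).comp measurable_snd) measurable_const (by fun_prop))

/-- the expected number of lines whose rank above `x` is in `C`, as an integral over heights -/
theorem rank_bound {D : Fin n → ℝ → ℝ≥0∞} (hD : ∀ i, Measurable (D i)) (ν : Fin n → Measure ℝ)
    [∀ i, IsProbabilityMeasure (ν i)] (hν : ∀ i, ν i = volume.withDensity (D i)) {K : ℝ}
    (hK0 : 0 ≤ K) (hK : ∀ i s, D i s ≤ ENNReal.ofReal K) (a : Fin n → ℝ) (x : ℝ)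
    (C : Finset ℕ) :
    ∫⁻ y, ∑ l, D l (y - a l * x) * ∫⁻ B, ind C (nb a B {l} x y) ∂Measure.pi ν ≤ #C := by
  classical
  have mR : ∀ l, Measurable fun y => ∫⁻ B, ind C (nb a B {l} x y) ∂Measure.pi ν := fun l =>
    measurable_pr1 ν a {l} (ind C) x
  have mG : ∀ l, Measurable fun B : Fin n → ℝ => ind C (nb a B {l} x (a l * x + B l)) := by
    intro l
    exact (measurable_of_countable (ind C)).comp (measurable_nb a {l}
      (fun l => measurable_pi_apply l) measurable_const (by fun_prop))
  have mT : ∀ l, Measurable fun y => D l (y - a l * x) *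
      ∫⁻ B, ind C (nb a B {l} x y) ∂Measure.pi ν := by
    intro l
    have h1 : Measurable fun y => D l (y - a l * x) := (hD l).comp (by fun_prop)
    exact h1.mul (mR l)
  rw [lintegral_finsetSum _ (fun l _ => mT l)]
  have e : ∀ l, ∫⁻ y, D l (y - a l * x) * ∫⁻ B, ind C (nb a B {l} x y) ∂Measure.pi ν =
      ∫⁻ B, ind C (nb a B {l} x (a l * x + B l)) ∂Measure.pi ν := by
    intro l
    rw [pi_update ν l (mG l)]
    calc ∫⁻ y, D l (y - a l * x) * ∫⁻ B, ind C (nb a B {l} x y) ∂Measure.pi ν
        = ∫⁻ b, D l (b + a l * x - a l * x) *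
            ∫⁻ B, ind C (nb a B {l} x (b + a l * x)) ∂Measure.pi ν :=
          (lintegral_add_right_eq_self (fun y => D l (y - a l * x) *
            ∫⁻ B, ind C (nb a B {l} x y) ∂Measure.pi ν) (a l * x)).symm
      _ = ∫⁻ b, D l b * ∫⁻ B, ind C (nb a B {l} x (b + a l * x)) ∂Measure.pi ν := by
          simp_rw [add_sub_cancel_right]
      _ = ∫⁻ b, ∫⁻ B, ind C (nb a B {l} x (b + a l * x)) ∂Measure.pi ν ∂ν l := by
          rw [hν l]
          exact (lintegral_withDensity_eq_lintegral_mul _ (hD l)
            ((mR l).comp (by fun_prop : Measurable fun b : ℝ => b + a l * x))).symm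
      _ = ∫⁻ B, ∫⁻ b, ind C (nb a B {l} x (b + a l * x)) ∂ν l ∂Measure.pi ν := by
          apply lintegral_lintegral_swap
          apply Measurable.aemeasurable
          exact (measurable_of_countable (ind C)).comp (measurable_nb a {l}
            (fun l => (measurable_pi_apply l).comp measurable_snd) measurable_const
            (by fun_prop))
      _ = _ := by
          apply lintegral_congr
          intro B
          apply lintegral_congr
          intro b
          rw [nb_update _ _ (mem_singleton_self l), Function.update_self, add_comm b]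
  rw [Finset.sum_congr rfl (fun l _ => e l), ← lintegral_finsetSum _ (fun l _ => mG l)]
  have hae : ∀ᵐ B ∂Measure.pi ν, ∀ l m, l ≠ m → a l * x + B l ≠ a m * x + B m := by
    rw [ae_all_iff]; intro l
    rw [ae_all_iff]; intro m
    by_cases hlm : l = m
    · exact Eventually.of_forall (fun _ h => absurd hlm h)
    · filter_upwards [Pool.Agent.Results.MP_a08d0a_co.SmoothedLevel.null_coord
        (icc_le ν hν hK0 hK) l (fun B => a m * x + B m - a l * x) (by fun_prop)
        (fun B b => by rw [Function.update_of_ne (Ne.symm hlm)])] with B hB _ h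
      apply hB
      linarith
  calc ∫⁻ B, ∑ l, ind C (nb a B {l} x (a l * x + B l)) ∂Measure.pi ν
      ≤ ∫⁻ _B, (#C : ℝ≥0∞) ∂Measure.pi ν := by
        apply lintegral_mono_ae
        filter_upwards [hae] with B hB
        exact sum_ind_le hB C
    _ = #C := by simp

end Pool.Agent.U999.SH
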