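import Pool.Agent.U999.SH.Rank
import Pool.Agent.U999.SH.Lap

/-!
# Smoothed analysis of halving lines: comparison of the levels of two random arrangements
-/

set_option autoImplicit false

namespace Pool.Agent.U999.SH

open Finset MeasureTheory Pool.Agent.H189R2.Lev Filter
open scoped ENNReal

variable {n : ℕ}

/-- exponential weight of the line with slope `a l` and centre of intercept `c l` -/
noncomputable def wr (a c : Fin n → ℝ) (δ : ℝ) (l : Fin n) (x y : ℝ) : ℝ :=
  Real.exp (-|y - a l * x - c l| / δ)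

/-- sum of the weights -/
noncomputable def WW (a c : Fin n → ℝ) (δ : ℝ) (x y : ℝ) : ℝ := ∑ l, wr a c δ l x y

lemma wr_pos (a c : Fin n → ℝ) (δ : ℝ) (l : Fin n) (x y : ℝ) : 0 < wr a c δ l x y :=
  Real.exp_pos _

lemma wr_le_one (a c : Fin n → ℝ) {δ : ℝ} (hδ : 0 < δ) (l : Fin n) (x y : ℝ) :
    wr a c δ l x y ≤ 1 := by
  unfold wr
  rw [Real.exp_le_one_iff]
  apply div_nonpos_of_nonpos_of_nonneg _ hδ.le
  linarith [abs_nonneg (y - a l * x - c l)]

lemma WW_nonneg (a c : Fin n → ℝ) (δ : ℝ) (x y : ℝ) : 0 ≤ WW a c δ x y :=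
  sum_nonneg fun l _ => (wr_pos a c δ l x y).le

lemma WW_le (a c : Fin n → ℝ) {δ : ℝ} (hδ : 0 < δ) (x y : ℝ) : WW a c δ x y ≤ n := by
  unfold WW
  calc ∑ l, wr a c δ l x y ≤ ∑ _l : Fin n, (1 : ℝ) :=
        sum_le_sum fun l _ => wr_le_one a c hδ l x y
    _ = n := by simp

lemma exp_half_le : Real.exp (1 / 2) ≤ 2 := by
  have h1 : Real.exp (1 / 2) * Real.exp (1 / 2) = Real.exp 1 := by
    rw [← Real.exp_add]; norm_num
  have h2 := Real.exp_one_lt_d9
  have h3 := Real.exp_pos (1 / 2)
  nlinarith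

lemma wr_smooth (a c : Fin n → ℝ) {δ : ℝ} (hδ : 0 < δ) (l : Fin n) (x : ℝ) {y y' : ℝ}
    (h : |y - y'| ≤ δ / 2) : wr a c δ l x y ≤ 2 * wr a c δ l x y' := by
  unfold wr
  have h1 : |y' - a l * x - c l| ≤ |y - a l * x - c l| + δ / 2 := by
    calc |y' - a l * x - c l| = |(y - a l * x - c l) - (y - y')| := by congr 1; ring
      _ ≤ |y - a l * x - c l| + |y - y'| := abs_sub _ _
      _ ≤ _ := by linarith
  have h2 : -|y - a l * x - c l| / δ ≤ 1 / 2 + -|y' - a l * x - c l| / δ := by
    rw [div_add_div _ _ (by norm_num) hδ.ne', div_le_div_iff₀ hδ (by positivity)]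
    nlinarith
  calc Real.exp (-|y - a l * x - c l| / δ)
      ≤ Real.exp (1 / 2 + -|y' - a l * x - c l| / δ) := Real.exp_le_exp.mpr h2
    _ = Real.exp (1 / 2) * Real.exp (-|y' - a l * x - c l| / δ) := Real.exp_add _ _
    _ ≤ _ := by gcongr; exact exp_half_le

lemma WW_smooth (a c : Fin n → ℝ) {δ : ℝ} (hδ : 0 < δ) (x : ℝ) {y y' : ℝ}
    (h : |y - y'| ≤ δ / 2) : WW a c δ x y ≤ 2 * WW a c δ x y' := by
  unfold WW
  rw [mul_sum]
  exact sum_le_sum fun l _ => wr_smooth a c hδ l x h

lemma lap_wr (a c : Fin n → ℝ) {δ : ℝ} (hδ : 0 < δ) (l : Fin n) (x y : ℝ) :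
    lap (c l) δ (y - a l * x) = ENNReal.ofReal (1 / (2 * δ)) * ENNReal.ofReal (wr a c δ l x y) := by
  unfold lap wr
  rw [← ENNReal.ofReal_mul (by positivity)]
  congr 1
  ring

/-- the probability that a line of the two-sided exponential arrangement is on another side -/
lemma side_diff (a c : Fin n → ℝ) {δ : ℝ} (hδ : 0 < δ) (l : Fin n) {x y y' b : ℝ}
    (hb : |b - c l| ≤ δ / 2) (hy : |y - y'| ≤ δ / 2) :
    volume.withDensity (lap (c l) δ) {b' | ¬ (a l * x + b' < y' ↔ a l * x + b < y)} ≤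
      3 * ENNReal.ofReal (wr a c δ l x y') := by
  haveI : Fact (0 < δ) := ⟨hδ⟩
  obtain ⟨hb1, hb2⟩ := abs_le.mp hb
  obtain ⟨hy1, hy2⟩ := abs_le.mp hy
  rcases le_or_gt |y' - a l * x - c l| δ with h1 | h1
  · calc volume.withDensity (lap (c l) δ) {b' | ¬ (a l * x + b' < y' ↔ a l * x + b < y)} ≤ 1 :=
        prob_le_one
      _ ≤ ENNReal.ofReal (3 * wr a c δ l x y') := by
        rw [ENNReal.one_le_ofReal]
        unfold wr
        have h2 : -1 ≤ -|y' - a l * x - c l| / δ := by
          rw [le_div_iff₀ hδ]; linarith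
        have h3 := Real.exp_le_exp.mpr h2
        have h4 : 1 ≤ 3 * Real.exp (-1) := by
          have h5 := Real.exp_one_lt_d9
          have h6 : Real.exp (-1) * Real.exp 1 = 1 := by rw [← Real.exp_add]; norm_num
          have h7 := Real.exp_pos (-1)
          nlinarith
        linarith
      _ = _ := by
        rw [ENNReal.ofReal_mul (by norm_num)]
        norm_num
  · have h3 : ENNReal.ofReal (wr a c δ l x y') ≤ 3 * ENNReal.ofReal (wr a c δ l x y') := by
      calc ENNReal.ofReal (wr a c δ l x y') = 1 * ENNReal.ofReal (wr a c δ l x y') := by ring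
        _ ≤ _ := by gcongr; norm_num
    refine le_trans ?_ h3
    rcases lt_or_ge (y' - a l * x - c l) 0 with h2 | h2
    · -- the centre is above `y'`
      have e : wr a c δ l x y' = Real.exp (-(c l + a l * x - y') / δ) := by
        unfold wr; rw [abs_of_neg h2]; congr 2; ring
      rw [abs_of_neg h2] at h1
      rw [e]
      refine le_trans (measure_mono ?_) (lap_left (c l) hδ (t := c l + a l * x - y')
        (by linarith))
      intro b' hb'
      simp only [Set.mem_ofPred_eq] at hb'
      have h4 : ¬ (a l * x + b < y) := by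
        push Not
        linarith
      have h5 : a l * x + b' < y' := by
        by_contra h6
        exact hb' ⟨fun h => absurd h h6, fun h => absurd h h4⟩
      rw [Set.mem_Iio]
      linarith
    · have e : wr a c δ l x y' = Real.exp (-(y' - a l * x - c l) / δ) := by
        unfold wr; rw [abs_of_nonneg h2]
      rw [abs_of_nonneg h2] at h1
      rw [e]
      refine le_trans (measure_mono ?_) (lap_right (c l) hδ (t := y' - a l * x - c l)
        (by linarith))
      intro b' hb'
      simp only [Set.mem_ofPred_eq] at hb'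
      have h4 : a l * x + b < y := by linarith
      have h5 : ¬ (a l * x + b' < y') := by
        intro h6
        exact hb' ⟨fun _ => h4, fun _ => h6⟩
      push Not at h5
      rw [Set.mem_Ici]
      linarith

open Classical in
/-- number of lines on different sides -/
noncomputable def dif (a B B' : Fin n → ℝ) (x y y' : ℝ) : ℕ :=
  #{l | ¬ (a l * x + B' l < y' ↔ a l * x + B l < y)}

lemma nb_le_nb (a B B' : Fin n → ℝ) (s t : Finset (Fin n)) (x y y' : ℝ) :
    nb a B' s x y' ≤ nb a B t x y + #t + dif a B B' x y y' := by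
  classical
  unfold nb dif
  refine le_trans (card_le_card ?_) ((card_union_le _ _).trans
    (Nat.add_le_add_right (card_union_le _ _) _))
  intro l hl
  simp only [mem_filter, mem_univ, true_and] at hl
  simp only [mem_union, mem_filter, mem_univ, true_and]
  by_cases h1 : l ∈ t
  · exact Or.inl (Or.inr h1)
  by_cases h2 : a l * x + B l < y
  · exact Or.inl (Or.inl ⟨h1, h2⟩)
  · right
    intro h
    exact h2 (h.mp hl.2)

lemma nb_le_nb' (a B B' : Fin n → ℝ) (s t : Finset (Fin n)) (x y y' : ℝ) :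
    nb a B t x y ≤ nb a B' s x y' + #s + dif a B B' x y y' := by
  classical
  have h := nb_le_nb a B' B t s x y' y
  have e : dif a B' B x y' y = dif a B B' x y y' := by
    unfold dif
    congr 1
    ext l
    simp only [mem_filter, mem_univ, true_and]
    exact not_congr Iff.comm
  rwa [e] at h

/-- the possible ranks of a line through a point with level `m` -/
def cen (m : ℕ) : Finset ℕ := (range (m + 3)).filter (fun k => m ≤ k + 1)

lemma card_cen (m : ℕ) : #(cen m) ≤ 4 := by
  have : cen m ⊆ Icc (m - 1) (m + 2) := by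
    intro k hk
    unfold cen at hk
    rw [mem_filter, mem_range] at hk
    rw [mem_Icc]
    omega
  refine (card_le_card this).trans ?_
  rw [Nat.card_Icc]
  omega

/-- a window of levels around `m` -/
noncomputable def win (n m : ℕ) (R : ℝ) : Finset ℕ :=
  (range n).filter (fun k => |(k : ℝ) - m| ≤ R)

lemma card_win (n m : ℕ) {R : ℝ} (hR : 0 ≤ R) : (#(win n m R) : ℝ) ≤ 2 * R + 1 := by
  have hsub : win n m R ⊆ Icc ⌈(m : ℝ) - R⌉₊ ⌊(m : ℝ) + R⌋₊ := by
    intro k hk
    unfold win at hk
    rw [mem_filter, abs_le] at hk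
    rw [mem_Icc]
    refine ⟨Nat.ceil_le.mpr (by linarith [hk.2.1]), Nat.le_floor (by linarith [hk.2.2])⟩
  have h1 : (#(win n m R) : ℝ) ≤ ((⌊(m : ℝ) + R⌋₊ + 1 - ⌈(m : ℝ) - R⌉₊ : ℕ) : ℝ) := by
    have := card_le_card hsub
    rw [Nat.card_Icc] at this
    exact_mod_cast this
  have h2 : (⌊(m : ℝ) + R⌋₊ : ℝ) ≤ m + R := Nat.floor_le (by positivity)
  have h3 : (m : ℝ) - R ≤ (⌈(m : ℝ) - R⌉₊ : ℝ) := Nat.le_ceil _
  rcases le_or_gt ⌈(m : ℝ) - R⌉₊ (⌊(m : ℝ) + R⌋₊ + 1) with h4 | h4
  · rw [Nat.cast_sub h4] at h1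
    push_cast at h1
    linarith
  · rw [Nat.sub_eq_zero_of_le h4.le] at h1
    push_cast at h1
    linarith

/-- **Comparison**: in the exponential arrangement the level of `(x, y')` is with probability at
least `1 / 2` within `O(W)` of `m`. -/
theorem half (a c : Fin n → ℝ) {δ : ℝ} (hδ : 0 < δ) {B : Fin n → ℝ} {x y y' : ℝ} {m : ℕ}
    {l0 : Fin n} (hB : ∀ l, |B l - c l| ≤ δ / 2) (hy : |y - y'| ≤ δ / 2)
    (hm : nb a B {l0} x y ∈ cen m) (i j : Fin n) {R : ℝ}
    (hR : 3 + 6 * WW a c δ x y' ≤ R)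
    [∀ l, IsProbabilityMeasure (volume.withDensity (lap (c l) δ))] :
    1 ≤ 2 * ∫⁻ B', ind (win n m R) (nb a B' {i, j} x y')
      ∂Measure.pi (fun l => volume.withDensity (lap (c l) δ)) := by
  classical
  set νh : Fin n → Measure ℝ := fun l => volume.withDensity (lap (c l) δ) with hνh
  set W := WW a c δ x y' with hW
  have hW0 : 0 < W := by
    rw [hW]
    unfold WW
    exact sum_pos (fun l _ => wr_pos a c δ l x y') ⟨i, mem_univ i⟩
  -- the expected number of differences
  have mS : ∀ l, MeasurableSet {b' : ℝ | ¬ (a l * x + b' < y' ↔ a l * x + B l < y)} := by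
    intro l
    by_cases h : a l * x + B l < y
    · simp only [h, iff_true]
      exact (measurableSet_lt (f := fun b' : ℝ => a l * x + b') (g := fun _ => y')
        (by fun_prop) measurable_const).compl
    · simp only [h, iff_false, not_not]
      exact measurableSet_lt (by fun_prop) measurable_const
  have mS' : ∀ l, MeasurableSet {B' : Fin n → ℝ | ¬ (a l * x + B' l < y' ↔ a l * x + B l < y)} :=
    fun l => (mS l).preimage (measurable_pi_apply l)
  have hdif : ∀ B' : Fin n → ℝ, (dif a B B' x y y' : ℝ≥0∞) =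
      ∑ l, {B' : Fin n → ℝ | ¬ (a l * x + B' l < y' ↔ a l * x + B l < y)}.indicator
        (1 : (Fin n → ℝ) → ℝ≥0∞) B' := by
    intro B'
    unfold dif
    rw [card_filter]
    push_cast
    apply sum_congr rfl
    intro l _
    simp only [Set.indicator_apply, Set.mem_ofPred_eq, Pi.one_apply]
  have mdif : Measurable fun B' : Fin n → ℝ => (dif a B B' x y y' : ℝ≥0∞) := by
    simp_rw [hdif]
    exact Finset.measurable_sum _ (fun l _ => measurable_one.indicator (mS' l))
  have hE : ∫⁻ B', (dif a B B' x y y' : ℝ≥0∞) ∂Measure.pi νh ≤ 3 * ENNReal.ofReal W := by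
    simp_rw [hdif]
    rw [lintegral_finsetSum _ (fun l _ => measurable_one.indicator (mS' l))]
    calc ∑ l, ∫⁻ B', {B' : Fin n → ℝ | ¬ (a l * x + B' l < y' ↔
            a l * x + B l < y)}.indicator (1 : (Fin n → ℝ) → ℝ≥0∞) B' ∂Measure.pi νh
        ≤ ∑ l, 3 * ENNReal.ofReal (wr a c δ l x y') := by
          apply sum_le_sum
          intro l _
          rw [lintegral_indicator_one (mS' l)]
          have : Measure.pi νh {B' : Fin n → ℝ | ¬ (a l * x + B' l < y' ↔ a l * x + B l < y)} =
              νh l {b' : ℝ | ¬ (a l * x + b' < y' ↔ a l * x + B l < y)} :=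
            (measurePreserving_eval νh l).measure_preimage (mS l).nullMeasurableSet
          rw [this]
          exact side_diff a c hδ l (hB l) hy
      _ = _ := by
          rw [← mul_sum, hW]
          unfold WW
          rw [ENNReal.ofReal_sum_of_nonneg (fun l _ => (wr_pos a c δ l x y').le)]
  -- Markov
  have hM := mul_meas_ge_le_lintegral (μ := Measure.pi νh) mdif (ENNReal.ofReal (6 * W))
  have hbad : Measure.pi νh {B' | ENNReal.ofReal (6 * W) ≤ (dif a B B' x y y' : ℝ≥0∞)} ≤
      1 / 2 := by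
    have h1 := hM.trans hE
    have h2 : ENNReal.ofReal (6 * W) = 3 * ENNReal.ofReal W * 2 := by
      rw [show (6 : ℝ) * W = 3 * W * 2 by ring, ENNReal.ofReal_mul (by positivity),
        ENNReal.ofReal_mul (by norm_num)]
      norm_num
    rw [h2, mul_assoc] at h1
    have h3 : 3 * ENNReal.ofReal W ≠ 0 := by
      simp [hW0]
    have h4 : 3 * ENNReal.ofReal W ≠ ∞ := ENNReal.mul_ne_top (by norm_num) ENNReal.ofReal_ne_top
    have h5 : 2 * Measure.pi νh {B' | 3 * ENNReal.ofReal W * 2 ≤
        (dif a B B' x y y' : ℝ≥0∞)} ≤ 1 := by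
      have h6 : 3 * ENNReal.ofReal W * (2 * Measure.pi νh {B' | 3 * ENNReal.ofReal W * 2 ≤
        (dif a B B' x y y' : ℝ≥0∞)}) ≤ 3 * ENNReal.ofReal W * 1 := by rw [mul_one]; exact h1
      exact (ENNReal.mul_le_mul_iff_right h3 h4).mp h6
    rw [h2]
    rw [ENNReal.le_div_iff_mul_le (Or.inl (by norm_num)) (Or.inl (by norm_num)), mul_comm]
    exact h5
  have mbad : MeasurableSet {B' | ENNReal.ofReal (6 * W) ≤ (dif a B B' x y y' : ℝ≥0∞)} :=
    measurableSet_le measurable_const mdif
  have hgood : 1 / 2 ≤ Measure.pi νh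
      {B' | ENNReal.ofReal (6 * W) ≤ (dif a B B' x y y' : ℝ≥0∞)}ᶜ := by
    rw [prob_compl_eq_one_sub mbad]
    calc (1 / 2 : ℝ≥0∞) = 1 - 1 / 2 := by
          rw [one_div, ENNReal.one_sub_inv_two]
      _ ≤ _ := tsub_le_tsub_left hbad 1
  have hle : Measure.pi νh {B' | ENNReal.ofReal (6 * W) ≤ (dif a B B' x y y' : ℝ≥0∞)}ᶜ ≤
      ∫⁻ B', ind (win n m R) (nb a B' {i, j} x y') ∂Measure.pi νh := by
    rw [← lintegral_indicator_one mbad.compl]
    apply lintegral_mono
    intro B'
    by_cases hB' : B' ∈ {B' | ENNReal.ofReal (6 * W) ≤ (dif a B B' x y y' : ℝ≥0∞)}ᶜ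
    · rw [Set.indicator_of_mem hB', Pi.one_apply]
      have h1 : (dif a B B' x y y' : ℝ≥0∞) < ENNReal.ofReal (6 * W) := by
        simpa using hB'
      have h2 : (dif a B B' x y y' : ℝ) < 6 * W := by
        have h3 : (dif a B B' x y y' : ℝ≥0∞) = ENNReal.ofReal (dif a B B' x y y' : ℝ) := by
          rw [ENNReal.ofReal_natCast]
        rw [h3] at h1
        exact (ENNReal.ofReal_lt_ofReal_iff (by positivity)).mp h1
      have h4 := nb_le_nb a B B' {i, j} {l0} x y y'
      have h5 := nb_le_nb' a B B' {i, j} {l0} x y y'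
      rw [card_singleton] at h4
      have h6 : #({i, j} : Finset (Fin n)) ≤ 2 := card_le_two
      unfold cen at hm
      rw [mem_filter, mem_range] at hm
      have h7 : nb a B' {i, j} x y' ∈ win n m R := by
        unfold win
        rw [mem_filter, mem_range]
        refine ⟨nb_lt_of_mem a B' _ _ _ (mem_insert_self _ _), ?_⟩
        rw [abs_le]
        have h8 : (nb a B' {i, j} x y' : ℝ) ≤ m + 3 + dif a B B' x y y' := by
          exact_mod_cast (by omega : nb a B' {i, j} x y' ≤ m + 3 + dif a B B' x y y')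
        have h9 : (m : ℝ) ≤ nb a B' {i, j} x y' + 3 + dif a B B' x y y' := by
          exact_mod_cast (by omega : m ≤ nb a B' {i, j} x y' + 3 + dif a B B' x y y')
        constructor <;> linarith
      unfold ind
      beta_reduce
      rw [if_pos h7]
    · rw [Set.indicator_of_notMem hB']
      exact zero_le
  calc (1 : ℝ≥0∞) = 2 * (1 / 2) := by
        rw [one_div, ENNReal.mul_inv_cancel (by norm_num) (by norm_num)]
    _ ≤ _ := by gcongr; exact hgood.trans hle

end Pool.Agent.U999.SH
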