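import Pool.Agent.U999.SH.Dey

/-!
# Smoothed analysis of halving lines: density of the crossing points of random lines
-/

set_option autoImplicit false

namespace Pool.Agent.U999.SH

open Finset MeasureTheory Pool.Agent.H189R2.Lev
open scoped ENNReal

variable {n : ℕ}

lemma nb_update (a B : Fin n → ℝ) {s : Finset (Fin n)} {i : Fin n} (hi : i ∈ s) (b x y : ℝ) :
    nb a (Function.update B i b) s x y = nb a B s x y := by
  classical
  unfold nb
  congr 1
  ext l
  simp only [mem_filter, mem_univ, true_and]
  constructor
  · rintro ⟨h1, h2⟩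
    have hl : l ≠ i := fun h => h1 (h ▸ hi)
    rw [Function.update_of_ne hl] at h2
    exact ⟨h1, h2⟩
  · rintro ⟨h1, h2⟩
    have hl : l ≠ i := fun h => h1 (h ▸ hi)
    rw [Function.update_of_ne hl]
    exact ⟨h1, h2⟩

lemma measurable_nb {Ω : Type*} [MeasurableSpace Ω] (a : Fin n → ℝ) (s : Finset (Fin n))
    {B : Ω → Fin n → ℝ} {x y : Ω → ℝ} (hB : ∀ l, Measurable fun ω => B ω l) (hx : Measurable x)
    (hy : Measurable y) : Measurable (fun ω => nb a (B ω) s (x ω) (y ω)) := by
  classical
  unfold nb
  simp_rw [card_filter]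
  refine Finset.measurable_sum _ (fun l _ => Measurable.ite ?_ measurable_const measurable_const)
  exact (MeasurableSet.const _).inter (measurableSet_lt ((hx.const_mul _).add (hB l)) hy)

lemma lintegral_affine {G : ℝ → ℝ≥0∞} (hG : Measurable G) (s : ℝ) {c : ℝ} (hc : c ≠ 0) :
    ∫⁻ t, G t = ENNReal.ofReal |c| * ∫⁻ x, G (s + c * x) := by
  have h1 : ∫⁻ x, G (s + c * x) = ENNReal.ofReal |c⁻¹| * ∫⁻ u, G u := by
    calc ∫⁻ x, G (s + c * x) = ∫⁻ u, G (s + u) ∂(Measure.map (fun x => c * x) volume) := by
          exact (lintegral_map (f := fun u => G (s + u)) (hG.comp (measurable_const_add s))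
            (measurable_const_mul c)).symm
      _ = ENNReal.ofReal |c⁻¹| * ∫⁻ u, G (s + u) := by
          rw [Real.map_volume_mul_left hc, lintegral_smul_measure, smul_eq_mul]
      _ = _ := by rw [lintegral_add_left_eq_self G s]
  rw [h1, ← mul_assoc, ← ENNReal.ofReal_mul (abs_nonneg _), ← abs_mul, mul_inv_cancel₀ hc]
  simp

/-- the density of the crossing point of two random lines -/
theorem vtx {D : Fin n → ℝ → ℝ≥0∞} (hD : ∀ i, Measurable (D i)) (ν : Fin n → Measure ℝ)
    [∀ i, IsProbabilityMeasure (ν i)] (hν : ∀ i, ν i = volume.withDensity (D i)) (a : Fin n → ℝ)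
    {i j : Fin n} (ha : a i ≠ a j) (ω : ℕ → ℝ≥0∞) :
    ∫⁻ B, (if |cr a B i j| ≤ 1 then
      ω (nb a B {i, j} (cr a B i j) (ht a B i (cr a B i j))) else 0) ∂Measure.pi ν =
    ENNReal.ofReal |a i - a j| * ∫⁻ x in Set.Icc (-1) 1, ∫⁻ y, D i (y - a i * x) *
      D j (y - a j * x) * ∫⁻ B, ω (nb a B {i, j} x y) ∂Measure.pi ν := by
  classical
  have hij : i ≠ j := fun h => ha (by rw [h])
  have hc : a i - a j ≠ 0 := sub_ne_zero.mpr ha
  have hω : Measurable ω := measurable_of_countable _
  set μ := Measure.pi ν with hμ
  set Ψ : (Fin n → ℝ) → ℝ → ℝ → ℝ≥0∞ := fun B x y =>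
    if |x| ≤ 1 then ω (nb a B {i, j} x y) else 0 with hΨ
  have mΨ : ∀ {Ω : Type} [MeasurableSpace Ω] {B : Ω → Fin n → ℝ} {x y : Ω → ℝ},
      (∀ l, Measurable fun ω => B ω l) → Measurable x → Measurable y →
      Measurable (fun ω => Ψ (B ω) (x ω) (y ω)) := by
    intro Ω _ B x y hB hx hy
    refine Measurable.ite (measurableSet_le hx.abs measurable_const) ?_ measurable_const
    exact hω.comp (measurable_nb a _ hB hx hy)
  set F : (Fin n → ℝ) → ℝ≥0∞ := fun B => Ψ B (cr a B i j) (ht a B i (cr a B i j)) with hF
  have mcr : Measurable fun B : Fin n → ℝ => cr a B i j := by unfold cr; fun_prop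
  have mF : Measurable F := by
    apply mΨ (fun l => measurable_pi_apply l) mcr
    unfold ht
    exact (mcr.const_mul _).add (measurable_pi_apply i)
  have mup : ∀ k : Fin n, Measurable (fun p : (Fin n → ℝ) × ℝ => Function.update p.1 k p.2) := by
    intro k
    rw [measurable_pi_iff]
    intro l
    by_cases hl : l = k
    · subst hl
      simpa using measurable_snd
    · simp only [Function.update_of_ne hl]
      exact (measurable_pi_apply l).comp measurable_fst
  have e1 : ∫⁻ B, F B ∂μ = ∫⁻ B, ∫⁻ t, ∫⁻ s, F (Function.update (Function.update B j t) i s)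
      ∂ν i ∂ν j ∂μ := by
    rw [hμ, pi_update ν i mF]
    exact pi_update ν j (f := fun B => ∫⁻ s, F (Function.update B i s) ∂ν i)
      (Measurable.lintegral_prod_right' (mF.comp (mup i)))
  have e2 : ∀ (B : Fin n → ℝ) (t s : ℝ), F (Function.update (Function.update B j t) i s) =
      Ψ B ((t - s) / (a i - a j)) (a i * ((t - s) / (a i - a j)) + s) := by
    intro B t s
    have c1 : cr a (Function.update (Function.update B j t) i s) i j =
        (t - s) / (a i - a j) := by
      unfold cr
      rw [Function.update_self, Function.update_of_ne hij.symm, Function.update_self]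
    rw [hF]
    simp only [c1]
    unfold ht
    rw [Function.update_self, hΨ]
    simp only
    rw [nb_update _ _ (mem_insert_self _ _), nb_update _ _ (by simp)]
  have e3 : ∀ B : Fin n → ℝ, ∫⁻ t, ∫⁻ s, F (Function.update (Function.update B j t) i s)
      ∂ν i ∂ν j = ENNReal.ofReal |a i - a j| * ∫⁻ x, ∫⁻ y, D i (y - a i * x) *
        D j (y - a j * x) * Ψ B x y := by
    intro B
    have mP : Measurable fun p : ℝ × ℝ => Ψ B ((p.1 - p.2) / (a i - a j))
        (a i * ((p.1 - p.2) / (a i - a j)) + p.2) :=
      mΨ (fun l => measurable_const) (by fun_prop) (by fun_prop)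
    have mP2 : ∀ t, Measurable fun s : ℝ => Ψ B ((t - s) / (a i - a j))
        (a i * ((t - s) / (a i - a j)) + s) := fun t =>
      mΨ (fun l => measurable_const) (by fun_prop) (by fun_prop)
    have mP3 : ∀ s, Measurable fun t : ℝ => Ψ B ((t - s) / (a i - a j))
        (a i * ((t - s) / (a i - a j)) + s) := fun s =>
      mΨ (fun l => measurable_const) (by fun_prop) (by fun_prop)
    calc ∫⁻ t, ∫⁻ s, F (Function.update (Function.update B j t) i s) ∂ν i ∂ν j
        = ∫⁻ t, ∫⁻ s, Ψ B ((t - s) / (a i - a j)) (a i * ((t - s) / (a i - a j)) + s)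
            ∂ν i ∂ν j := by simp_rw [e2]
      _ = ∫⁻ t, D j t * ∫⁻ s, D i s * Ψ B ((t - s) / (a i - a j))
            (a i * ((t - s) / (a i - a j)) + s) := by
          rw [hν j, lintegral_withDensity_eq_lintegral_mul _ (hD j)
            (Measurable.lintegral_prod_right' (ν := ν i) mP)]
          apply lintegral_congr
          intro t
          rw [Pi.mul_apply, hν i, lintegral_withDensity_eq_lintegral_mul _ (hD i) (mP2 t)]
          rfl
      _ = ∫⁻ t, ∫⁻ s, D j t * (D i s * Ψ B ((t - s) / (a i - a j))
            (a i * ((t - s) / (a i - a j)) + s)) := by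
          apply lintegral_congr
          intro t
          exact (lintegral_const_mul (D j t) (f := fun s => D i s * Ψ B ((t - s) / (a i - a j))
            (a i * ((t - s) / (a i - a j)) + s)) ((hD i).mul (mP2 t))).symm
      _ = ∫⁻ s, ∫⁻ t, D j t * (D i s * Ψ B ((t - s) / (a i - a j))
            (a i * ((t - s) / (a i - a j)) + s)) := by
          apply lintegral_lintegral_swap
          apply Measurable.aemeasurable
          exact ((hD j).comp measurable_fst).mul (((hD i).comp measurable_snd).mul mP)
      _ = ∫⁻ s, ENNReal.ofReal |a i - a j| * ∫⁻ x, D j (s + (a i - a j) * x) *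
            (D i s * Ψ B x (a i * x + s)) := by
          apply lintegral_congr
          intro s
          rw [lintegral_affine (G := fun t => D j t * (D i s * Ψ B ((t - s) / (a i - a j))
            (a i * ((t - s) / (a i - a j)) + s))) ((hD j).mul (measurable_const.mul (mP3 s))) s hc]
          congr 1
          apply lintegral_congr
          intro x
          have : (s + (a i - a j) * x - s) / (a i - a j) = x := by
            field_simp
            ring
          simp only [this]
      _ = ENNReal.ofReal |a i - a j| * ∫⁻ s, ∫⁻ x, D j (s + (a i - a j) * x) *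
            (D i s * Ψ B x (a i * x + s)) := by
          rw [lintegral_const_mul]
          apply Measurable.lintegral_prod_right' (f := fun p : ℝ × ℝ =>
            D j (p.1 + (a i - a j) * p.2) * (D i p.1 * Ψ B p.2 (a i * p.2 + p.1)))
          exact ((hD j).comp (by fun_prop)).mul (((hD i).comp measurable_fst).mul
            (mΨ (fun l => measurable_const) (by fun_prop) (by fun_prop)))
      _ = ENNReal.ofReal |a i - a j| * ∫⁻ x, ∫⁻ s, D j (s + (a i - a j) * x) *
            (D i s * Ψ B x (a i * x + s)) := by
          congr 1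
          apply lintegral_lintegral_swap
          apply Measurable.aemeasurable
          exact ((hD j).comp (by fun_prop)).mul (((hD i).comp measurable_fst).mul
            (mΨ (fun l => measurable_const) (by fun_prop) (by fun_prop)))
      _ = _ := by
          congr 1
          apply lintegral_congr
          intro x
          rw [← lintegral_sub_right_eq_self (fun s => D j (s + (a i - a j) * x) *
            (D i s * Ψ B x (a i * x + s))) (a i * x)]
          apply lintegral_congr
          intro y
          have h1 : y - a i * x + (a i - a j) * x = y - a j * x := by ring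
          have h2 : a i * x + (y - a i * x) = y := by ring
          rw [h1, h2]
          ring
  have m4 : Measurable fun p : (Fin n → ℝ) × ℝ × ℝ => D i (p.2.2 - a i * p.2.1) *
      D j (p.2.2 - a j * p.2.1) * Ψ p.1 p.2.1 p.2.2 := by
    refine (((hD i).comp (by fun_prop)).mul ((hD j).comp (by fun_prop))).mul ?_
    exact mΨ (fun l => (measurable_pi_apply l).comp measurable_fst) (by fun_prop) (by fun_prop)
  have m5 : Measurable fun p : ((Fin n → ℝ) × ℝ) × ℝ => D i (p.2 - a i * p.1.2) *
      D j (p.2 - a j * p.1.2) * Ψ p.1.1 p.1.2 p.2 := by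
    refine (((hD i).comp (by fun_prop)).mul ((hD j).comp (by fun_prop))).mul ?_
    exact mΨ (fun l => (measurable_pi_apply l).comp (measurable_fst.comp measurable_fst))
      (by fun_prop) (by fun_prop)
  calc _ = ∫⁻ B, F B ∂μ := rfl
    _ = ∫⁻ B, ENNReal.ofReal |a i - a j| * (∫⁻ x, ∫⁻ y, D i (y - a i * x) *
        D j (y - a j * x) * Ψ B x y) ∂μ := by
        rw [e1]
        exact lintegral_congr e3
    _ = ENNReal.ofReal |a i - a j| * ∫⁻ B, (∫⁻ x, ∫⁻ y, D i (y - a i * x) *
        D j (y - a j * x) * Ψ B x y) ∂μ := by
        rw [lintegral_const_mul]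
        exact Measurable.lintegral_prod_right' (f := fun p : (Fin n → ℝ) × ℝ =>
          ∫⁻ y, D i (y - a i * p.2) * D j (y - a j * p.2) * Ψ p.1 p.2 y)
          (Measurable.lintegral_prod_right' m5)
    _ = ENNReal.ofReal |a i - a j| * ∫⁻ x, ∫⁻ B, (∫⁻ y, D i (y - a i * x) *
        D j (y - a j * x) * Ψ B x y) ∂μ := by
        congr 1
        apply lintegral_lintegral_swap
        exact (Measurable.lintegral_prod_right' m5).aemeasurable
    _ = ENNReal.ofReal |a i - a j| * ∫⁻ x, ∫⁻ y, ∫⁻ B, D i (y - a i * x) *
        D j (y - a j * x) * Ψ B x y ∂μ := by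
        congr 1
        apply lintegral_congr
        intro x
        apply lintegral_lintegral_swap
        apply Measurable.aemeasurable
        refine (((hD i).comp (by fun_prop)).mul ((hD j).comp (by fun_prop))).mul ?_
        exact mΨ (fun l => (measurable_pi_apply l).comp measurable_fst) (by fun_prop)
          (by fun_prop)
    _ = ENNReal.ofReal |a i - a j| * ∫⁻ x, (Set.Icc (-1 : ℝ) 1).indicator (fun x =>
        ∫⁻ y, D i (y - a i * x) * D j (y - a j * x) * ∫⁻ B, ω (nb a B {i, j} x y) ∂μ) x := by
        congr 1
        apply lintegral_congr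
        intro x
        by_cases hx : |x| ≤ 1
        · rw [Set.indicator_of_mem (Set.mem_Icc.mpr (abs_le.mp hx))]
          apply lintegral_congr
          intro y
          rw [lintegral_const_mul]
          · congr 1
            apply lintegral_congr
            intro B
            rw [hΨ]
            simp only [hx, if_true]
          · exact mΨ (fun l => measurable_pi_apply l) measurable_const measurable_const
        · rw [Set.indicator_of_notMem (fun h => hx (abs_le.mpr (Set.mem_Icc.mp h)))]
          simp only [hΨ, hx, if_false, mul_zero, lintegral_zero]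
    _ = _ := by
        rw [lintegral_indicator measurableSet_Icc]

end Pool.Agent.U999.SH
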